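import Mathlib
import Pool.Agent.T2H02.Gap.Ker

/-!
# The extension of an integral operator to the completion, and its compactness
-/

open MeasureTheory Filter Function
open scoped Topology RealInnerProductSpace
open Pool.Agent.T2H02.Gap

namespace Pool.Agent.T2H02.Lev

set_option linter.unusedSectionVars false
set_option linter.unusedVariables false

noncomputable section

variable {X : Type*} [TopologicalSpace X] [CompactSpace X] [T2Space X] [SecondCountableTopology X]
  [MeasurableSpace X] [BorelSpace X]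

/-- the completion of the space of continuous functions -/
abbrev HC (X : Type*) [TopologicalSpace X] [CompactSpace X] [T2Space X]
    [SecondCountableTopology X] [MeasurableSpace X] [BorelSpace X] (ν : Measure X)
    [IsProbabilityMeasure ν] : Type _ := UniformSpace.Completion (CF X ν)

variable (ν : Measure X) [IsProbabilityMeasure ν]

/-- the embedding -/
def io : CF X ν →L[ℝ] HC X ν := UniformSpace.Completion.toComplL

lemma io_eq (f : CF X ν) : io ν f = (f : HC X ν) := rfl

lemma io_inner (f g : CF X ν) : ⟪io ν f, io ν g⟫ = ⟪f, g⟫ := UniformSpace.Completion.inner_coe f g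

lemma io_norm (f : CF X ν) : ‖io ν f‖ = ‖f‖ := UniformSpace.Completion.norm_coe f

lemma io_dense : DenseRange (io ν : CF X ν → HC X ν) := UniformSpace.Completion.denseRange_coe

lemma io_ui : IsUniformInducing (io ν : CF X ν → HC X ν) :=
  UniformSpace.Completion.isUniformInducing_coe _

variable {a : X → X → ℝ}

/-- the row -/
def row (ha : Continuous (uncurry a)) (U : X) : CF X ν := CF.mk ν (fun V => a U V) (left_cont ha U)

lemma opT_row (ha : Continuous (uncurry a)) (f : CF X ν) (U : X) :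
    (opT ν a ha f).fn U = ⟪row ν ha U, f⟫ := by
  rw [opT_fn, inner_cf]; rfl

lemma exists_bound (ha : Continuous (uncurry a)) : ∃ A : ℝ, 0 ≤ A ∧ ∀ U V, |a U V| ≤ A := by
  obtain ⟨M, hM⟩ := (isCompact_range ha).isBounded.exists_norm_le
  refine ⟨max M 0, le_max_right _ _, fun U V => ?_⟩
  exact (hM (a U V) ⟨(U, V), rfl⟩).trans (le_max_left _ _)

lemma norm_row {ha : Continuous (uncurry a)} {A : ℝ} (hA : 0 ≤ A) (h : ∀ U V, |a U V| ≤ A) (U : X) :
    ‖row ν ha U‖ ≤ A := by
  refine le_of_sq_le_sq ?_ hA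
  rw [norm_cf]
  calc ∫ V, (row ν ha U).fn V ^ 2 ∂ν ≤ ∫ _V, A ^ 2 ∂ν := by
        refine integral_mono (cint ν ((CF.cont ν _).pow 2)) (integrable_const _) fun V => ?_
        have h' := abs_le.1 (h U V)
        show a U V ^ 2 ≤ A ^ 2
        exact sq_le_sq' h'.1 h'.2
    _ = A ^ 2 := by simp

/-- the operator with values in the continuous functions with the supremum norm -/
def S0 (ha : Continuous (uncurry a)) : CF X ν →ₗ[ℝ] C(X, ℝ) where
  toFun f := ⟨(opT ν a ha f).fn, CF.cont ν _⟩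
  map_add' f g := by
    ext U
    show (opT ν a ha (f + g)).fn U = (opT ν a ha f).fn U + (opT ν a ha g).fn U
    rw [map_add, CF.fn_add]
  map_smul' r f := by
    ext U
    show (opT ν a ha (r • f)).fn U = r * (opT ν a ha f).fn U
    rw [map_smul, CF.fn_smul]

lemma S0_apply (ha : Continuous (uncurry a)) (f : CF X ν) (U : X) :
    S0 ν ha f U = ⟪row ν ha U, f⟫ := opT_row ν ha f U

lemma S0_bound (ha : Continuous (uncurry a)) : ∃ A : ℝ, ∀ f : CF X ν, ‖S0 ν ha f‖ ≤ A * ‖f‖ := by
  obtain ⟨A, hA, h⟩ := exists_bound ha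
  refine ⟨A, fun f => ?_⟩
  rw [ContinuousMap.norm_le _ (by positivity)]
  intro U
  rw [S0_apply]
  refine (norm_inner_le_norm _ _).trans ?_
  exact mul_le_mul_of_nonneg_right (norm_row ν hA h U) (norm_nonneg _)

/-- bounded version -/
def S1 (ha : Continuous (uncurry a)) : CF X ν →L[ℝ] C(X, ℝ) :=
  (S0 ν ha).mkContinuousOfExistsBound (S0_bound ν ha)

/-- the extension to the completion -/
def Sh (ha : Continuous (uncurry a)) : HC X ν →L[ℝ] C(X, ℝ) := (S1 ν ha).extend (io ν)

lemma Sh_io (ha : Continuous (uncurry a)) (f : CF X ν) : Sh ν ha (io ν f) = S0 ν ha f :=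
  ContinuousLinearMap.extend_eq _ (io_dense ν) (io_ui ν) f

/-- the inclusion of the continuous functions with the supremum norm -/
def j0 : C(X, ℝ) →ₗ[ℝ] HC X ν where
  toFun f := io ν (CF.mk ν f f.continuous)
  map_add' f g := by rw [← map_add]; rfl
  map_smul' r f := by rw [RingHom.id_apply, ← map_smul]; rfl

/-- bounded version -/
def jo : C(X, ℝ) →L[ℝ] HC X ν := (j0 ν).mkContinuousOfExistsBound ⟨1, fun f => by
  show ‖io ν (CF.mk ν f f.continuous)‖ ≤ 1 * ‖f‖
  rw [io_norm, one_mul]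
  refine le_of_sq_le_sq ?_ (norm_nonneg _)
  rw [norm_cf]
  calc ∫ V, (CF.mk ν f f.continuous).fn V ^ 2 ∂ν ≤ ∫ _V, ‖f‖ ^ 2 ∂ν := by
        refine integral_mono (cint ν ((CF.cont ν _).pow 2)) (integrable_const _) fun V => ?_
        have h := abs_le.1 (f.norm_coe_le_norm V)
        exact sq_le_sq' h.1 h.2
    _ = ‖f‖ ^ 2 := by simp⟩

lemma jo_apply (f : C(X, ℝ)) : jo ν f = io ν (CF.mk ν f f.continuous) := rfl

/-- the operator on the completion -/
def Th (ha : Continuous (uncurry a)) : HC X ν →L[ℝ] HC X ν := (jo ν).comp (Sh ν ha)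

lemma Th_eq (ha : Continuous (uncurry a)) (f : HC X ν) :
    Th ν ha f = io ν (CF.mk ν (Sh ν ha f) (Sh ν ha f).continuous) := rfl

lemma Th_io (ha : Continuous (uncurry a)) (f : CF X ν) : Th ν ha (io ν f) = io ν (opT ν a ha f) := by
  rw [Th_eq, Sh_io]; rfl

lemma Th_pow_io (ha : Continuous (uncurry a)) (k : ℕ) (f : CF X ν) :
    (Th ν ha ^ k) (io ν f) = io ν ((opT ν a ha ^ k) f) := by
  induction k with
  | zero => rfl
  | succ k ih =>
    rw [pow_succ', pow_succ', mul_apply_eq_comp, Module.End.mul_apply, ih, Th_io]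

lemma Sh_apply (ha : Continuous (uncurry a)) (hs : ∀ U V, a U V = a V U) (f : HC X ν) (V : X) :
    Sh ν ha f V = ⟪io ν (col ν a ha V), f⟫ := by
  have hrc : row ν ha V = col ν a ha V := by
    refine CF.ext' ν fun U => ?_
    exact hs V U
  refine UniformSpace.Completion.induction_on f ?_ fun g => ?_
  · refine isClosed_eq ?_ ?_
    · have : Continuous fun g : C(X, ℝ) => g V := continuous_eval_const V
      exact this.comp (Sh ν ha).continuous
    · exact continuous_const.inner continuous_id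
  · rw [← io_eq, Sh_io, S0_apply, io_inner, hrc]

lemma norm_Th_sq (ha : Continuous (uncurry a)) (f : HC X ν) :
    ‖Th ν ha f‖ ^ 2 = ∫ V, Sh ν ha f V ^ 2 ∂ν := by
  rw [Th_eq, io_norm, norm_cf]; rfl

lemma Th_symm (ha : Continuous (uncurry a)) (hs : ∀ U V, a U V = a V U) (f g : HC X ν) :
    ⟪Th ν ha f, g⟫ = ⟪f, Th ν ha g⟫ := by
  refine UniformSpace.Completion.induction_on₂ f g ?_ fun f g => ?_
  · refine isClosed_eq ?_ ?_
    · exact ((Th ν ha).continuous.comp continuous_fst).inner continuous_snd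
    · exact continuous_fst.inner ((Th ν ha).continuous.comp continuous_snd)
  · rw [← io_eq, ← io_eq, Th_io, Th_io, io_inner, io_inner]
    exact (kern_opT ν ha hs).symm f g

/-- Bessel's inequality for the columns -/
lemma bessel_sum (ha : Continuous (uncurry a)) (hs : ∀ U V, a U V = a V U) {ι : Type*}
    {v : ι → HC X ν} (hv : Orthonormal ℝ v) (s : Finset ι) :
    ∑ i ∈ s, ‖Th ν ha (v i)‖ ^ 2 ≤ ∫ V, ‖col ν a ha V‖ ^ 2 ∂ν := by
  have h1 : ∑ i ∈ s, ‖Th ν ha (v i)‖ ^ 2 = ∫ V, ∑ i ∈ s, Sh ν ha (v i) V ^ 2 ∂ν := by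
    rw [integral_finsetSum]
    · exact Finset.sum_congr rfl fun i _ => norm_Th_sq ν ha (v i)
    · intro i _
      exact cint ν ((Sh ν ha (v i)).continuous.pow 2)
  rw [h1]
  refine integral_mono ?_ ?_ fun V => ?_
  · refine cint ν ?_
    exact continuous_finsetSum _ fun i _ => (Sh ν ha (v i)).continuous.pow 2
  · have := (kern_opT ν ha hs).int 0
    simpa using this
  · have h2 := hv.sum_inner_products_le (io ν (col ν a ha V)) (s := s)
    rw [io_norm] at h2
    refine le_trans (le_of_eq ?_) h2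
    refine Finset.sum_congr rfl fun i _ => ?_
    rw [Sh_apply ν ha hs, real_inner_comm, Real.norm_eq_abs, sq_abs]

/-- **The operator is compact.** -/
theorem Th_compact (ha : Continuous (uncurry a)) (hs : ∀ U V, a U V = a V U) :
    IsCompactOperator (Th ν ha) := by
  classical
  obtain ⟨w, b, hb⟩ := exists_hilbertBasis ℝ (HC X ν)
  have hsum : Summable fun i : w => ‖Th ν ha (b i)‖ ^ 2 :=
    summable_of_sum_le (fun i => sq_nonneg _) fun s => bessel_sum ν ha hs b.orthonormal s
  obtain ⟨S, hS⟩ := hsum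
  obtain ⟨TF, hTF⟩ : ∃ TF : Finset w → (HC X ν →L[ℝ] HC X ν), TF = fun F =>
    ∑ i ∈ F, (innerSL ℝ (b i)).smulRight (Th ν ha (b i)) := ⟨_, rfl⟩
  have hTFc : ∀ F, IsCompactOperator (TF F) := by
    intro F
    rw [hTF]
    have h1 : ∀ i : w, IsCompactOperator ((innerSL ℝ (b i)).smulRight (Th ν ha (b i))) := by
      intro i
      have h2 : IsCompactOperator (ContinuousLinearMap.toSpanSingleton ℝ (Th ν ha (b i))) :=
        isCompactOperator_of_locallyCompactSpace_rng
          (ContinuousLinearMap.toSpanSingleton ℝ (Th ν ha (b i)))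
      exact h2.comp_clm (innerSL ℝ (b i))
    refine Finset.sum_induction _ (fun T : HC X ν →L[ℝ] HC X ν => IsCompactOperator T) ?_ ?_ ?_
    · intro T T' h h'
      exact h.add h'
    · exact isCompactOperator_zero
    · intro i _
      exact h1 i
  refine isCompactOperator_of_tendsto (l := atTop) (F := TF) (f := Th ν ha) ?_
    (Eventually.of_forall hTFc)
  rw [Metric.tendsto_nhds]
  intro ε hε
  have hev : ∀ᶠ F in atTop, S - (ε / 2) ^ 2 < ∑ i ∈ F, ‖Th ν ha (b i)‖ ^ 2 :=
    hS.eventually_const_lt (by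
      have : 0 < (ε / 2) ^ 2 := by positivity
      linarith)
  filter_upwards [hev] with F hF
  rw [dist_comm, dist_eq_norm]
  refine lt_of_le_of_lt (ContinuousLinearMap.opNorm_le_bound _ (by positivity : 0 ≤ ε / 2) ?_)
    (by linarith)
  intro f
  have h1 : HasSum (fun i => ⟪b i, f⟫ • b i) f := by
    have := b.hasSum_repr f
    simpa only [b.repr_apply_apply] using this
  have h2 : HasSum (fun i => ⟪b i, f⟫ • Th ν ha (b i)) (Th ν ha f) := by
    have := h1.mapL (Th ν ha)
    simpa only [map_smul] using this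
  have h3 : Tendsto (fun K : Finset w => ‖∑ i ∈ K, ⟪b i, f⟫ • Th ν ha (b i) - TF F f‖) atTop
      (𝓝 ‖Th ν ha f - TF F f‖) := (h2.sub_const _).norm
  refine le_of_tendsto h3 ?_
  filter_upwards [eventually_ge_atTop F] with K hK
  have h4 : ∑ i ∈ K, ⟪b i, f⟫ • Th ν ha (b i) - TF F f = ∑ i ∈ K \ F, ⟪b i, f⟫ • Th ν ha (b i) := by
    rw [hTF]
    simp only [sum_apply, ContinuousLinearMap.smulRight_apply, innerSL_apply_apply]
    rw [← Finset.sum_sdiff hK]
    abel
  rw [h4]
  have h5 : ∑ i ∈ K \ F, ‖Th ν ha (b i)‖ ^ 2 ≤ (ε / 2) ^ 2 := by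
    have h6 : ∑ i ∈ K, ‖Th ν ha (b i)‖ ^ 2 ≤ S := sum_le_hasSum _ (fun i _ => sq_nonneg _) hS
    rw [← Finset.sum_sdiff hK] at h6
    linarith
  have h7 : ∑ i ∈ K \ F, |⟪b i, f⟫| ^ 2 ≤ ‖f‖ ^ 2 := by
    have := b.orthonormal.sum_inner_products_le f (s := K \ F)
    simpa only [Real.norm_eq_abs] using this
  calc ‖∑ i ∈ K \ F, ⟪b i, f⟫ • Th ν ha (b i)‖ ≤ ∑ i ∈ K \ F, |⟪b i, f⟫| * ‖Th ν ha (b i)‖ := by
        refine (norm_sum_le _ _).trans (le_of_eq ?_)
        refine Finset.sum_congr rfl fun i _ => ?_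
        rw [norm_smul, Real.norm_eq_abs]
    _ ≤ Real.sqrt (∑ i ∈ K \ F, |⟪b i, f⟫| ^ 2) * Real.sqrt (∑ i ∈ K \ F, ‖Th ν ha (b i)‖ ^ 2) :=
        Real.sum_mul_le_sqrt_mul_sqrt _ _ _
    _ ≤ Real.sqrt (‖f‖ ^ 2) * Real.sqrt ((ε / 2) ^ 2) := by
        refine mul_le_mul (Real.sqrt_le_sqrt h7) (Real.sqrt_le_sqrt h5) (Real.sqrt_nonneg _)
          (Real.sqrt_nonneg _)
    _ = ε / 2 * ‖f‖ := by
        rw [Real.sqrt_sq (norm_nonneg _), Real.sqrt_sq (by positivity), mul_comm]

end

end Pool.Agent.T2H02.Lev
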