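import Mathlib
import Pool.Agent.T2H02.Lev.Ext

/-!
# The eigenvalues of an integral operator and its levels
-/

open MeasureTheory Filter Function
open scoped Topology RealInnerProductSpace
open Pool.Agent.T2H02.Gap

namespace Pool.Agent.T2H02.Lev

set_option linter.unusedSectionVars false
set_option linter.unusedVariables false

noncomputable section

/-! ### levels of an operator -/

section lev

variable {H : Type*} [SeminormedAddCommGroup H] [InnerProductSpace ℝ H]

/-- the lower bounds on subspaces of dimension `k + 1` -/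
def levSet (T : H →ₗ[ℝ] H) (k : ℕ) : Set ℝ := {s | ∃ f : Fin (k + 1) → H,
  (∀ i j, ⟪f i, f j⟫ = if i = j then (1 : ℝ) else 0) ∧
  ∀ a : Fin (k + 1) → ℝ, s * ∑ i, a i ^ 2 ≤ ‖T (∑ i, a i • f i)‖ ^ 2}

/-- the square of the `k`-th singular value, starting with `0` -/
def lev (T : H →ₗ[ℝ] H) (k : ℕ) : ℝ := sSup (levSet T k)

lemma norm_comb {n : ℕ} {f : Fin n → H} (hf : ∀ i j, ⟪f i, f j⟫ = if i = j then (1 : ℝ) else 0)
    (a : Fin n → ℝ) : ‖∑ i, a i • f i‖ ^ 2 = ∑ i, a i ^ 2 := by
  rw [← real_inner_self_eq_norm_sq, sum_inner]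
  refine Finset.sum_congr rfl fun i _ => ?_
  rw [inner_sum]
  have h : ∀ j, ⟪a i • f i, a j • f j⟫ = if i = j then a i * a j else 0 := fun j => by
    rw [real_inner_smul_left, real_inner_smul_right, hf]
    split_ifs <;> ring
  simp only [h]
  rw [Finset.sum_ite_eq]
  simp [sq]

variable {T : H →ₗ[ℝ] H} {Ω : Type*} [MeasurableSpace Ω] {ν : Measure Ω} {c : Ω → H}

lemma levSet_le (hT : Kern T ν c) {k : ℕ} {s : ℝ} (hs : s ∈ levSet T k) : s ≤ top2 T := by
  obtain ⟨f, hf, h⟩ := hs
  have h1 := h (Pi.single 0 1)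
  have h2 : ∑ i : Fin (k + 1), (Pi.single 0 1 : Fin (k + 1) → ℝ) i ^ 2 = 1 := by
    rw [Finset.sum_eq_single 0]
    · simp
    · intro b _ hb; simp [hb]
    · simp
  rw [h2, mul_one] at h1
  refine h1.trans ((le_top hT _).trans (le_of_eq ?_))
  rw [norm_comb hf, h2, mul_one]

lemma bdd_lev (hT : Kern T ν c) (k : ℕ) : BddAbove (levSet T k) :=
  ⟨top2 T, fun _ hs => levSet_le hT hs⟩

lemma lev_nonneg (hT : Kern T ν c) (k : ℕ) : 0 ≤ lev T k := by
  unfold lev
  rcases Set.eq_empty_or_nonempty (levSet T k) with h | h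
  · rw [h, Real.sSup_empty]
  · obtain ⟨s, f, hf, hs⟩ := h
    exact le_csSup (bdd_lev hT k) ⟨f, hf, fun a => by rw [zero_mul]; exact sq_nonneg _⟩

lemma levSet_anti (k : ℕ) : levSet T (k + 1) ⊆ levSet T k := by
  rintro s ⟨f, hf, h⟩
  refine ⟨fun i => f i.castSucc, fun i j => ?_, fun a => ?_⟩
  · rw [hf]
    simp only [Fin.castSucc_inj]
  · have h1 := h (Fin.snoc a 0)
    have h2 : ∑ i : Fin (k + 2), (Fin.snoc a 0 : Fin (k + 2) → ℝ) i ^ 2 = ∑ i, a i ^ 2 := by
      rw [Fin.sum_univ_castSucc]
      simp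
    have h3 : ∑ i : Fin (k + 2), (Fin.snoc a 0 : Fin (k + 2) → ℝ) i • f i =
        ∑ i, a i • f i.castSucc := by
      rw [Fin.sum_univ_castSucc]
      simp
    rw [h2, h3] at h1
    exact h1

lemma lev_antitone (hT : Kern T ν c) : Antitone (lev T) := by
  refine antitone_nat_of_succ_le fun k => ?_
  unfold lev
  rcases Set.eq_empty_or_nonempty (levSet T (k + 1)) with h | h
  · rw [h, Real.sSup_empty]
    exact lev_nonneg hT k
  · exact csSup_le_csSup (bdd_lev hT k) h (levSet_anti k)

/-- `k + 1` vectors with a nontrivial combination orthogonal to `k` vectors -/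
lemma exists_comb {k : ℕ} {f : Fin (k + 1) → H}
    (hf : ∀ i j, ⟪f i, f j⟫ = if i = j then (1 : ℝ) else 0) (w : Fin k → H) :
    ∃ a : Fin (k + 1) → ℝ, ∑ i, a i ^ 2 = 1 ∧ ∀ j, ⟪w j, ∑ i, a i • f i⟫ = 0 := by
  obtain ⟨φ, hφ⟩ : ∃ φ : (Fin (k + 1) → ℝ) →ₗ[ℝ] (Fin k → ℝ), ∀ a j, φ a j = ⟪w j, ∑ i, a i • f i⟫ :=
    ⟨{ toFun := fun a j => ⟪w j, ∑ i, a i • f i⟫
       map_add' := fun a b => by
        funext j
        simp only [Pi.add_apply, add_smul, Finset.sum_add_distrib, inner_add_right]
       map_smul' := fun r a => by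
        funext j
        simp only [Pi.smul_apply, smul_eq_mul, mul_smul, RingHom.id_apply]
        rw [← Finset.smul_sum, real_inner_smul_right] }, fun a j => rfl⟩
  obtain ⟨a, ha, ha0⟩ := (Submodule.ne_bot_iff _).1
    (LinearMap.ker_ne_bot_of_finrank_lt (f := φ) (by simp))
  have hpos : 0 < ∑ i, a i ^ 2 := by
    rcases (Finset.sum_nonneg fun i (_ : i ∈ Finset.univ) => sq_nonneg (a i)).eq_or_lt with h | h
    · exfalso
      apply ha0
      funext i
      have := (Finset.sum_eq_zero_iff_of_nonneg fun i _ => sq_nonneg (a i)).1 h.symm i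
        (Finset.mem_univ i)
      exact pow_eq_zero_iff (two_ne_zero) |>.1 this
    · exact h
  obtain ⟨r, hr⟩ : ∃ r, r = (Real.sqrt (∑ i, a i ^ 2))⁻¹ := ⟨_, rfl⟩
  refine ⟨r • a, ?_, fun j => ?_⟩
  · simp only [Pi.smul_apply, smul_eq_mul, mul_pow]
    rw [← Finset.mul_sum, hr, inv_pow, Real.sq_sqrt hpos.le, inv_mul_cancel₀ hpos.ne']
  · rw [← hφ, map_smul]
    have : φ a = 0 := ha
    rw [this]; simp

/-- Bessel's inequality for the powers of the operator -/
lemma besseln (hT : Kern T ν c) (m : ℕ) {n : ℕ} {w : Fin n → H}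
    (hw : ∀ i j, ⟪w i, w j⟫ = if i = j then (1 : ℝ) else 0) :
    ∑ i, ‖(T ^ (m + 1)) (w i)‖ ^ 2 ≤ zt T ν c m := by
  have ho : Orthonormal ℝ w := orthonormal_iff_ite.2 hw
  calc ∑ i, ‖(T ^ (m + 1)) (w i)‖ ^ 2 = ∑ i, ∫ V, ⟪w i, (T ^ m) (c V)⟫ ^ 2 ∂ν :=
        Finset.sum_congr rfl fun i _ => (hT.eq m (w i)).symm
    _ = ∫ V, ∑ i, ⟪w i, (T ^ m) (c V)⟫ ^ 2 ∂ν :=
        (integral_finsetSum _ fun i _ => hT.intf m (w i)).symm
    _ ≤ zt T ν c m := by
        refine integral_mono (integrable_finsetSum _ fun i _ => hT.intf m (w i)) (hT.int m)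
          fun V => ?_
        have h := ho.sum_inner_products_le ((T ^ m) (c V)) (s := Finset.univ)
        simpa only [Real.norm_eq_abs, sq_abs] using h

/-- vectors for the lower bounds -/
lemma exists_flag {n : ℕ} (s : ℕ → ℝ) (hs : ∀ k < n, s k ∈ levSet T k) :
    ∃ w : Fin n → H, (∀ i j, ⟪w i, w j⟫ = if i = j then (1 : ℝ) else 0) ∧
      ∀ i : Fin n, s i ≤ ‖T (w i)‖ ^ 2 := by
  induction n with
  | zero => exact ⟨fun i => i.elim0, fun i => i.elim0, fun i => i.elim0⟩
  | succ n ih =>
    obtain ⟨w, hw, hsw⟩ := ih fun k hk => hs k (by omega)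
    obtain ⟨f, hf, h⟩ := hs n (by omega)
    obtain ⟨a, ha, haw⟩ := exists_comb hf w
    have h1 := h a
    rw [ha, mul_one] at h1
    refine ⟨Fin.snoc w (∑ i, a i • f i), fun i j => ?_, fun i => ?_⟩
    · refine Fin.lastCases ?_ (fun i => ?_) i
      · refine Fin.lastCases ?_ (fun j => ?_) j
        · rw [Fin.snoc_last, if_pos rfl, real_inner_self_eq_norm_sq, norm_comb hf, ha]
        · rw [Fin.snoc_last, Fin.snoc_castSucc, real_inner_comm, haw,
            if_neg (Fin.castSucc_lt_last j).ne']
      · refine Fin.lastCases ?_ (fun j => ?_) j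
        · rw [Fin.snoc_last, Fin.snoc_castSucc, haw, if_neg (Fin.castSucc_lt_last i).ne]
        · rw [Fin.snoc_castSucc, Fin.snoc_castSucc, hw]
          simp only [Fin.castSucc_inj]
    · refine Fin.lastCases ?_ (fun i => ?_) i
      · rw [Fin.snoc_last]
        exact h1
      · rw [Fin.snoc_castSucc]
        exact hsw i

/-- **The sum of the powers of the levels is at most the trace.** -/
theorem sum_lev_le (hT : Kern T ν c) (m n : ℕ) :
    ∑ k ∈ Finset.range n, lev T k ^ (m + 1) ≤ zt T ν c m := by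
  -- an arbitrary error
  have key : ∀ η : ℝ, 0 < η → ∑ k ∈ Finset.range n, (max (lev T k - η) 0) ^ (m + 1) ≤ zt T ν c m := by
    intro η hη
    -- number of the levels which are positive
    obtain ⟨r, hr⟩ : ∃ r, r = ((Finset.range n).filter fun k => 0 < lev T k).card := ⟨_, rfl⟩
    have hdown : ∀ k, 0 < lev T k → ∀ j ≤ k, 0 < lev T j := fun k hk j hj =>
      lt_of_lt_of_le hk (lev_antitone hT hj)
    have hfil : (Finset.range n).filter (fun k => 0 < lev T k) = Finset.range r := by
      ext k
      rw [Finset.mem_filter, Finset.mem_range, Finset.mem_range]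
      constructor
      · rintro ⟨h1, h2⟩
        rw [hr]
        have : Finset.range (k + 1) ⊆ (Finset.range n).filter fun k => 0 < lev T k := by
          intro j hj
          rw [Finset.mem_range] at hj
          rw [Finset.mem_filter, Finset.mem_range]
          exact ⟨by omega, hdown k h2 j (by omega)⟩
        have := Finset.card_le_card this
        rw [Finset.card_range] at this
        omega
      · intro hk
        by_contra hc
        have : (Finset.range n).filter (fun k => 0 < lev T k) ⊆ Finset.range k := by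
          intro j hj
          rw [Finset.mem_filter, Finset.mem_range] at hj
          rw [Finset.mem_range]
          by_contra hjk
          push Not at hjk
          exact hc ⟨by omega, hdown j hj.2 k hjk⟩
        have := Finset.card_le_card this
        rw [Finset.card_range, ← hr] at this
        omega
    have hlev : ∀ k < r, 0 < lev T k ∧ k < n := by
      intro k hk
      have : k ∈ (Finset.range n).filter (fun k => 0 < lev T k) := by
        rw [hfil, Finset.mem_range]; exact hk
      rw [Finset.mem_filter, Finset.mem_range] at this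
      exact ⟨this.2, this.1⟩
    have hex : ∀ k, ∃ s, k < r → s ∈ levSet T k ∧ lev T k - η < s := by
      intro k
      by_cases hk : k < r
      · have hne : (levSet T k).Nonempty := by
          rcases Set.eq_empty_or_nonempty (levSet T k) with h1 | h1
          · exfalso
            have := (hlev k hk).1
            unfold lev at this
            rw [h1, Real.sSup_empty] at this
            exact lt_irrefl _ this
          · exact h1
        have hlt : lev T k - η < sSup (levSet T k) := by
          show lev T k - η < lev T k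
          linarith
        obtain ⟨s, hs, hs2⟩ := exists_lt_of_lt_csSup hne hlt
        exact ⟨s, fun _ => ⟨hs, hs2⟩⟩
      · exact ⟨0, fun h => absurd h hk⟩
    choose s hs using hex
    obtain ⟨w, hw, hws⟩ := exists_flag (T := T) (n := r) s fun k hk => (hs k hk).1
    have h1 := besseln hT m hw
    have h2 : ∀ i : Fin r, (max (lev T i - η) 0) ^ (m + 1) ≤ ‖(T ^ (m + 1)) (w i)‖ ^ 2 := by
      intro i
      have hwi : ‖w i‖ ^ 2 = 1 := by
        rw [← real_inner_self_eq_norm_sq, hw, if_pos rfl]
      refine le_trans ?_ (moment_le hT (w i) hwi (m + 1))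
      refine pow_le_pow_left₀ (le_max_right _ _) ?_ _
      refine max_le ?_ (sq_nonneg _)
      exact ((hs i i.2).2.le).trans (hws i)
    have hrn : r ≤ n := by
      rcases Nat.eq_zero_or_pos r with h | h
      · omega
      · have := (hlev (r - 1) (by omega)).2
        omega
    calc ∑ k ∈ Finset.range n, (max (lev T k - η) 0) ^ (m + 1) =
        ∑ k ∈ Finset.range r, (max (lev T k - η) 0) ^ (m + 1) := by
          symm
          refine Finset.sum_subset (Finset.range_mono hrn) fun k hk hk2 => ?_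
          have h3 : ¬ 0 < lev T k := by
            intro h4
            apply hk2
            rw [← hfil, Finset.mem_filter]
            exact ⟨hk, h4⟩
          have h5 : max (lev T k - η) 0 = 0 := max_eq_right (by linarith)
          rw [h5, zero_pow (by omega)]
      _ = ∑ i : Fin r, (max (lev T i - η) 0) ^ (m + 1) :=
          Finset.sum_range fun k => (max (lev T k - η) 0) ^ (m + 1)
      _ ≤ ∑ i, ‖(T ^ (m + 1)) (w i)‖ ^ 2 := Finset.sum_le_sum fun i _ => h2 i
      _ ≤ zt T ν c m := h1
  have hl : Tendsto (fun η : ℝ => ∑ k ∈ Finset.range n, (max (lev T k - η) 0) ^ (m + 1)) (𝓝[>] 0)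
      (𝓝 (∑ k ∈ Finset.range n, (max (lev T k - 0) 0) ^ (m + 1))) := by
    have : Continuous fun η : ℝ => ∑ k ∈ Finset.range n, (max (lev T k - η) 0) ^ (m + 1) := by
      fun_prop
    exact (this.tendsto 0).mono_left nhdsWithin_le_nhds
  have he : ∑ k ∈ Finset.range n, (max (lev T k - 0) 0) ^ (m + 1) =
      ∑ k ∈ Finset.range n, lev T k ^ (m + 1) := by
    refine Finset.sum_congr rfl fun k _ => ?_
    rw [sub_zero, max_eq_left (lev_nonneg hT k)]
  rw [he] at hl
  refine le_of_tendsto hl ?_
  filter_upwards [self_mem_nhdsWithin] with η hη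
  exact key η hη

end lev

end

end Pool.Agent.T2H02.Lev
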