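import Mathlib
import Pool.Agent.T2H02.Lev.Eig

/-!
# The sum of the powers of the levels is the trace
-/

open MeasureTheory Filter Function
open scoped Topology RealInnerProductSpace
open Pool.Agent.T2H02.Gap

namespace Pool.Agent.T2H02.Lev

set_option linter.unusedSectionVars false
set_option linter.unusedVariables false

noncomputable section

/-- **A Hilbert basis of eigenvectors** of a compact symmetric operator. -/
theorem exists_eigenbasis.{u} {E : Type u} [NormedAddCommGroup E] [InnerProductSpace ℝ E]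
    [CompleteSpace E] (T : E →L[ℝ] E) (hT : IsCompactOperator T)
    (hs : (T : E →ₗ[ℝ] E).IsSymmetric) :
    ∃ (ι : Type u) (b : HilbertBasis ι ℝ E) (s : ι → ℝ), ∀ i, T (b i) = s i • b i := by
  obtain ⟨V, hV⟩ : ∃ V : ℝ → Submodule ℝ E, V = fun μ => Module.End.eigenspace (T : E →ₗ[ℝ] E) μ :=
    ⟨_, rfl⟩
  have hmem : ∀ μ x, x ∈ V μ → T x = μ • x := by
    intro μ x hx
    rw [hV] at hx
    exact Module.End.mem_eigenspace_iff.1 hx
  have hof : OrthogonalFamily ℝ (fun μ => V μ) fun μ => (V μ).subtypeₗᵢ := by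
    rw [hV]
    exact hs.orthogonalFamily_eigenspaces
  have hclosed : ∀ μ, IsClosed (V μ : Set E) := by
    intro μ
    have : (V μ : Set E) = {x | T x = μ • x} := by
      ext x
      rw [hV]
      exact Module.End.mem_eigenspace_iff
    rw [this]
    exact isClosed_eq T.continuous (continuous_const_smul μ)
  have hcomp : ∀ μ, CompleteSpace (V μ) := fun μ => (hclosed μ).completeSpace_coe
  choose w b hb using fun μ => exists_hilbertBasis ℝ (V μ)
  obtain ⟨v, hv⟩ : ∃ v : (Σ μ : ℝ, w μ) → E, v = fun i => ((b i.1 i.2 : V i.1) : E) := ⟨_, rfl⟩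
  have hon : Orthonormal ℝ v := by
    rw [hv]
    exact hof.orthonormal_sigma_orthonormal fun μ => (b μ).orthonormal
  have hbot : (Submodule.span ℝ (Set.range v))ᗮ = ⊥ := by
    rw [eq_bot_iff]
    intro x hx
    have hx1 : ∀ i, ⟪v i, x⟫ = 0 := fun i =>
      (Submodule.mem_orthogonal _ _).1 hx _ (Submodule.subset_span ⟨i, rfl⟩)
    have hx2 : ∀ μ, ∀ y ∈ V μ, ⟪y, x⟫ = 0 := by
      intro μ y hy
      have h1 : HasSum (fun i => ⟪b μ i, (⟨y, hy⟩ : V μ)⟫ • b μ i) (⟨y, hy⟩ : V μ) := by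
        have := (b μ).hasSum_repr (⟨y, hy⟩ : V μ)
        simpa only [(b μ).repr_apply_apply] using this
      have h2 : HasSum (fun i => ⟪b μ i, (⟨y, hy⟩ : V μ)⟫ • ((b μ i : V μ) : E)) y := by
        have := h1.mapL (V μ).subtypeL
        simpa using this
      have h3 : HasSum (fun i => ⟪x, ⟪b μ i, (⟨y, hy⟩ : V μ)⟫ • ((b μ i : V μ) : E)⟫) ⟪x, y⟫ :=
        h2.mapL (innerSL ℝ x)
      have h4 : (fun i => ⟪x, ⟪b μ i, (⟨y, hy⟩ : V μ)⟫ • ((b μ i : V μ) : E)⟫) = fun _ => (0 : ℝ) := by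
        funext i
        have h5 : ⟪((b μ i : V μ) : E), x⟫ = 0 := by
          have := hx1 ⟨μ, i⟩
          rw [hv] at this
          exact this
        rw [real_inner_smul_right, real_inner_comm ((b μ i : V μ) : E) x, h5, mul_zero]
      rw [h4] at h3
      rw [real_inner_comm]
      exact h3.unique hasSum_zero
    have hx3 : x ∈ (⨆ μ, Module.End.eigenspace (T : E →ₗ[ℝ] E) μ)ᗮ := by
      rw [Submodule.mem_orthogonal]
      intro u hu
      refine Submodule.iSup_induction _ (motive := fun u => ⟪u, x⟫ = 0) hu ?_ ?_ ?_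
      · intro μ y hy
        refine hx2 μ y ?_
        rw [hV]; exact hy
      · exact inner_zero_left _
      · intro y z hy hz
        rw [inner_add_left, hy, hz, add_zero]
    rw [ContinuousLinearMap.orthogonalComplement_iSup_eigenspaces_eq_bot hT hs] at hx3
    exact hx3
  have hev : ∀ i, T (v i) = i.1 • v i := by
    intro i
    rw [hv]
    exact hmem i.1 _ (b i.1 i.2).2
  refine ⟨(Σ μ : ℝ, w μ), HilbertBasis.mkOfOrthogonalEqBot hon hbot, fun i => i.1, fun i => ?_⟩
  have h6 : (HilbertBasis.mkOfOrthogonalEqBot hon hbot : (Σ μ : ℝ, w μ) → E) = v :=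
    HilbertBasis.coe_mkOfOrthogonalEqBot hon hbot
  rw [h6]
  exact hev i

variable {X : Type*} [TopologicalSpace X] [CompactSpace X] [T2Space X] [SecondCountableTopology X]
  [MeasurableSpace X] [BorelSpace X] (ν : Measure X) [IsProbabilityMeasure ν] {a : X → X → ℝ}

section basis

variable (ha : Continuous (uncurry a)) (hs : ∀ U V, a U V = a V U) {ι : Type*}
  (b : HilbertBasis ι ℝ (HC X ν)) (s : ι → ℝ) (hb : ∀ i, Th ν ha (b i) = s i • b i)

/-- the continuous representative of an eigenvector -/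
def ev (i : ι) : CF X ν := (s i)⁻¹ • CF.mk ν (Sh ν ha (b i)) (Sh ν ha (b i)).continuous

include hb in
lemma io_ev {i : ι} (hi : s i ≠ 0) : io ν (ev ν ha b s i) = b i := by
  unfold ev
  rw [map_smul, ← Th_eq, hb, smul_smul, inv_mul_cancel₀ hi, one_smul]

include hb in
lemma norm_Th_b (i : ι) : ‖Th ν ha (b i)‖ ^ 2 = s i ^ 2 := by
  rw [hb, norm_smul, b.orthonormal.1, mul_one, Real.norm_eq_abs, sq_abs]

include hs hb in
lemma summable_s : Summable fun i => s i ^ 2 := by
  refine summable_of_sum_le (c := ∫ V, ‖col ν a ha V‖ ^ 2 ∂ν) (fun i => sq_nonneg _) fun F => ?_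
  have := bessel_sum ν ha hs b.orthonormal F
  simpa only [norm_Th_b ν ha b s hb] using this

include hs hb in
/-- **The trace is the sum of the powers of the eigenvalues.** -/
theorem hasSum_s (m : ℕ) (hm : 1 ≤ m) :
    HasSum (fun i => (s i ^ 2) ^ (m + 1)) (zt (opT ν a ha) ν (col ν a ha) m) := by
  have hsum := summable_s ν ha hs b s hb
  -- the pointwise expansion
  have hterm : ∀ (i : ι) (V : X), ⟪b i, io ν ((opT ν a ha ^ m) (col ν a ha V))⟫ =
      s i ^ m * Sh ν ha (b i) V := by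
    intro i V
    rw [← Th_pow_io]
    have h : ∀ (k : ℕ) (g : HC X ν), ⟪b i, (Th ν ha ^ k) g⟫ = s i ^ k * ⟪b i, g⟫ := by
      intro k
      induction k with
      | zero => intro g; simp
      | succ k ih =>
        intro g
        rw [pow_succ', mul_apply_eq_comp, ← Th_symm ν ha hs, hb, real_inner_smul_left, ih]
        ring
    rw [h, Sh_apply ν ha hs, real_inner_comm]
  have hpt : ∀ V, HasSum (fun i => s i ^ (2 * m) * Sh ν ha (b i) V ^ 2)
      (‖(opT ν a ha ^ m) (col ν a ha V)‖ ^ 2) := by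
    intro V
    have h1 := b.hasSum_inner_mul_inner (io ν ((opT ν a ha ^ m) (col ν a ha V)))
      (io ν ((opT ν a ha ^ m) (col ν a ha V)))
    rw [real_inner_self_eq_norm_sq, io_norm] at h1
    refine h1.congr_fun ?_
    intro i
    rw [real_inner_comm, hterm]
    ring
  -- the countable set of indices
  obtain ⟨S, hS⟩ : ∃ S : Set ι, S = {i | s i ≠ 0} := ⟨_, rfl⟩
  have hSc : S.Countable := by
    have := hsum.countable_support
    refine this.mono ?_
    intro i hi
    rw [hS] at hi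
    rw [Function.mem_support]
    exact pow_ne_zero 2 hi
  have : Countable S := hSc.to_subtype
  have hpt' : ∀ V, HasSum (fun i : S => s i ^ (2 * m) * Sh ν ha (b i) V ^ 2)
      (‖(opT ν a ha ^ m) (col ν a ha V)‖ ^ 2) := by
    intro V
    have h2 : support (fun i => s i ^ (2 * m) * Sh ν ha (b i) V ^ 2) ⊆ S := by
      intro i hi
      rw [hS]
      intro h0
      apply hi
      simp only
      rw [h0, zero_pow (by omega), zero_mul]
    exact (hasSum_subtype_iff_of_support_subset h2).2 (hpt V)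
  have hint : ∀ i : S, Integrable (fun V => s i ^ (2 * m) * Sh ν ha (b i) V ^ 2) ν := fun i =>
    cint ν (continuous_const.mul ((Sh ν ha (b i)).continuous.pow 2))
  have hval : ∀ i : S, ∫ V, s i ^ (2 * m) * Sh ν ha (b i) V ^ 2 ∂ν = (s i ^ 2) ^ (m + 1) := by
    intro i
    rw [integral_const_mul, ← norm_Th_sq, norm_Th_b ν ha b s hb]
    ring
  have hnn : ∀ (i : S) (V : X), 0 ≤ s i ^ (2 * m) * Sh ν ha (b i) V ^ 2 := by
    intro i V
    rw [pow_mul]
    positivity
  have hsum2 : Summable fun i : S => ∫ V, ‖s i ^ (2 * m) * Sh ν ha (b i) V ^ 2‖ ∂ν := by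
    have h3 : (fun i : S => ∫ V, ‖s i ^ (2 * m) * Sh ν ha (b i) V ^ 2‖ ∂ν) =
        fun i : S => (s i ^ 2) ^ (m + 1) := by
      funext i
      rw [← hval i]
      refine integral_congr_ae (Eventually.of_forall fun V => ?_)
      exact Real.norm_of_nonneg (hnn i V)
    rw [h3]
    have h4 : Summable fun i => (s i ^ 2) ^ (m + 1) := by
      obtain ⟨B, hB⟩ : ∃ B, B = ∑' i, s i ^ 2 := ⟨_, rfl⟩
      have hle : ∀ i, s i ^ 2 ≤ B := fun i => by
        rw [hB]; exact hsum.le_tsum i fun j _ => sq_nonneg _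
      refine Summable.of_nonneg_of_le (fun i => by positivity) (fun i => ?_) (hsum.mul_left (B ^ m))
      calc (s i ^ 2) ^ (m + 1) = (s i ^ 2) ^ m * s i ^ 2 := pow_succ _ _
        _ ≤ B ^ m * s i ^ 2 :=
          mul_le_mul_of_nonneg_right (pow_le_pow_left₀ (sq_nonneg _) (hle i) m) (sq_nonneg _)
    exact h4.subtype S
  have hmain := hasSum_integral_of_summable_integral_norm hint hsum2
  have htot : ∫ V, ∑' i : S, s i ^ (2 * m) * Sh ν ha (b i) V ^ 2 ∂ν =
      zt (opT ν a ha) ν (col ν a ha) m := by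
    unfold zt
    exact integral_congr_ae (Eventually.of_forall fun V => (hpt' V).tsum_eq)
  rw [htot] at hmain
  simp only [hval] at hmain
  have h5 : support (fun i => (s i ^ 2) ^ (m + 1)) ⊆ S := by
    intro i hi
    rw [hS]
    intro h0
    apply hi
    simp only
    rw [h0, zero_pow (by omega), zero_pow (by omega)]
  exact (hasSum_subtype_iff_of_support_subset h5).1 hmain

include hb in
/-- eigenvectors give lower bounds on the levels -/
lemma mem_levSet {k : ℕ} (e : Fin (k + 1) → ι) (he : Injective e) {r : ℝ} (hr : 0 < r)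
    (h : ∀ j, r ≤ s (e j) ^ 2) : r ∈ levSet (opT ν a ha) k := by
  classical
  have hne : ∀ j, s (e j) ≠ 0 := fun j h0 => by
    have := h j
    rw [h0] at this
    norm_num at this
    linarith
  have hio : ∀ j, io ν (ev ν ha b s (e j)) = b (e j) := fun j => io_ev ν ha b s hb (hne j)
  refine ⟨fun j => ev ν ha b s (e j), fun i j => ?_, fun x => ?_⟩
  · rw [← io_inner, hio, hio]
    have := orthonormal_iff_ite.1 b.orthonormal (e i) (e j)
    rw [this]
    simp only [he.eq_iff]
  · rw [← io_norm, ← Th_io, map_sum]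
    have h1 : ∀ j, io ν (x j • ev ν ha b s (e j)) = x j • b (e j) := fun j => by
      rw [map_smul, hio]
    simp only [h1]
    rw [map_sum]
    have h2 : ∀ j, Th ν ha (x j • b (e j)) = (x j * s (e j)) • b (e j) := fun j => by
      rw [map_smul, hb, smul_smul]
    simp only [h2]
    have h3 : ∀ i j, ⟪b (e i), b (e j)⟫ = if i = j then (1 : ℝ) else 0 := fun i j => by
      have := orthonormal_iff_ite.1 b.orthonormal (e i) (e j)
      rw [this]
      simp only [he.eq_iff]
    rw [norm_comb h3, Finset.mul_sum]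
    refine Finset.sum_le_sum fun j _ => ?_
    rw [mul_pow, mul_comm]
    exact mul_le_mul_of_nonneg_left (h j) (sq_nonneg _)

include hs hb in
lemma le_lev {k : ℕ} (e : Fin (k + 1) → ι) (he : Injective e) {r : ℝ} (hr : 0 ≤ r)
    (h : ∀ j, r ≤ s (e j) ^ 2) : r ≤ lev (opT ν a ha) k := by
  rcases hr.eq_or_lt with h0 | h0
  · rw [← h0]; exact lev_nonneg (kern_opT ν ha hs) k
  · exact le_csSup (bdd_lev (kern_opT ν ha hs) k) (mem_levSet ν ha b s hb e he h0 h)

include hs hb in
/-- a finite sum of powers of eigenvalues is at most the sum of the powers of the levels -/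
lemma sum_s_le (m : ℕ) (F : Finset ι) : ∑ i ∈ F, (s i ^ 2) ^ (m + 1) ≤
    ∑ k ∈ Finset.range F.card, lev (opT ν a ha) k ^ (m + 1) := by
  classical
  -- sort the eigenvalues
  obtain ⟨n, hn⟩ : ∃ n, n = F.card := ⟨_, rfl⟩
  obtain ⟨e0⟩ : Nonempty (Fin n ≃ F) := ⟨(F.equivFin.symm).trans (Equiv.refl _) |> fun e =>
    (finCongr hn).trans e⟩
  obtain ⟨t, ht⟩ : ∃ t : Fin n → ℝ, ∀ j, t j = -(s (e0 j) ^ 2) := ⟨_, fun j => rfl⟩
  obtain ⟨σ, hσ⟩ : ∃ σ : Equiv.Perm (Fin n), Monotone (t ∘ σ) :=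
    ⟨Tuple.sort t, Tuple.monotone_sort t⟩
  have hle : ∀ j : Fin n, s (e0 (σ j)) ^ 2 ≤ lev (opT ν a ha) j := by
    intro j
    refine le_lev ν ha hs b s hb (k := j) (fun i => ((e0 (σ ⟨i, by omega⟩) : F) : ι)) ?_
      (sq_nonneg _) ?_
    · intro i i' hii
      have h1 := e0.injective (Subtype.ext hii)
      have h2 := σ.injective h1
      have h3 := Fin.mk.inj_iff.1 h2
      exact Fin.ext h3
    · intro i
      have hij : (⟨i, by omega⟩ : Fin n) ≤ j := by
        rw [Fin.le_def]
        show (i : ℕ) ≤ j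
        omega
      have h4 : t (σ ⟨i, by omega⟩) ≤ t (σ j) := hσ hij
      rw [ht, ht] at h4
      exact neg_le_neg_iff.1 h4
  calc ∑ i ∈ F, (s i ^ 2) ^ (m + 1) = ∑ i : F, (s i ^ 2) ^ (m + 1) :=
        (Finset.sum_coe_sort F fun i => (s i ^ 2) ^ (m + 1)).symm
    _ = ∑ j : Fin n, (s (e0 (σ j)) ^ 2) ^ (m + 1) :=
        ((σ.trans e0).sum_comp fun i : F => (s i ^ 2) ^ (m + 1)).symm
    _ ≤ ∑ j : Fin n, lev (opT ν a ha) j ^ (m + 1) :=
        Finset.sum_le_sum fun j _ => pow_le_pow_left₀ (sq_nonneg _) (hle j) _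
    _ = ∑ k ∈ Finset.range F.card, lev (opT ν a ha) k ^ (m + 1) := by
        rw [← hn]
        exact (Finset.sum_range fun k => lev (opT ν a ha) k ^ (m + 1)).symm

end basis

/-- **The trace is the sum of the powers of the levels.** -/
theorem hasSum_lev (ha : Continuous (uncurry a)) (hs : ∀ U V, a U V = a V U) (m : ℕ) (hm : 1 ≤ m) :
    HasSum (fun k => lev (opT ν a ha) k ^ (m + 1)) (zt (opT ν a ha) ν (col ν a ha) m) := by
  have hK := kern_opT ν ha hs
  obtain ⟨ι, b, s, hb⟩ := exists_eigenbasis (Th ν ha) (Th_compact ν ha hs)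
    (fun f g => Th_symm ν ha hs f g)
  have h1 := hasSum_s ν ha hs b s hb m hm
  have hnn : ∀ k, 0 ≤ lev (opT ν a ha) k ^ (m + 1) := fun k => pow_nonneg (lev_nonneg hK k) _
  have hsm : Summable fun k => lev (opT ν a ha) k ^ (m + 1) :=
    summable_of_sum_range_le hnn fun n => sum_lev_le hK m n
  have h2 : ∑' k, lev (opT ν a ha) k ^ (m + 1) ≤ zt (opT ν a ha) ν (col ν a ha) m :=
    hsm.tsum_le_of_sum_range_le fun n => sum_lev_le hK m n
  have h3 : zt (opT ν a ha) ν (col ν a ha) m ≤ ∑' k, lev (opT ν a ha) k ^ (m + 1) := by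
    refine le_of_tendsto h1 (Eventually.of_forall fun F => ?_)
    refine (sum_s_le ν ha hs b s hb m F).trans ?_
    exact hsm.sum_le_tsum _ fun k _ => hnn k
  rw [le_antisymm h3 h2]
  exact hsm.hasSum

end

end Pool.Agent.T2H02.Lev
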