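import Mathlib

/-!
# The Fock space of finitely many oscillators with colour: definitions
-/

open MvPolynomial

namespace Pool.Agent.T2H02.Lev

noncomputable section

variable {M : Type} {n : ℕ} {G : Type}

/-- energy of a monomial -/
def fen (ω : M → ℝ) (d : M × Fin n →₀ ℕ) : ℝ := d.sum fun s j => (j : ℝ) * ω s.1

/-- the action of a matrix on the polynomials: it acts on the colour index of the variables -/
def fact (M : Type) {n : ℕ} (A : Matrix (Fin n) (Fin n) ℝ) :
    MvPolynomial (M × Fin n) ℂ →ₐ[ℂ] MvPolynomial (M × Fin n) ℂ :=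
  aeval fun s => ∑ b, C ((A b s.2 : ℝ) : ℂ) * X (s.1, b)

/-- the invariant polynomials of energy at most `E` -/
def singl (ω : M → ℝ) (ρ : G → Matrix (Fin n) (Fin n) ℝ) (E : ℝ) :
    Submodule ℂ (MvPolynomial (M × Fin n) ℂ) where
  carrier := {p | (∀ d ∈ p.support, fen ω d ≤ E) ∧ ∀ g, fact M (ρ g) p = p}
  add_mem' := by
    classical
    rintro p q ⟨h1, h2⟩ ⟨h3, h4⟩
    refine ⟨fun d hd => ?_, fun g => by rw [map_add, h2 g, h4 g]⟩
    rcases Finset.mem_union.1 (support_add hd) with h | h
    · exact h1 d h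
    · exact h3 d h
  zero_mem' := ⟨fun d hd => by simp at hd, fun g => map_zero _⟩
  smul_mem' := by
    rintro c p ⟨h1, h2⟩
    exact ⟨fun d hd => h1 d (support_smul hd), fun g => by rw [map_smul, h2 g]⟩

/-- the `k`-th energy level of the invariant polynomials, with multiplicity, starting with `0` -/
def flev (ω : M → ℝ) (ρ : G → Matrix (Fin n) (Fin n) ℝ) (k : ℕ) : ℝ :=
  sInf {E : ℝ | k + 1 ≤ Module.finrank ℂ (singl ω ρ E)}

end

end Pool.Agent.T2H02.Lev
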