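import Mathlib

/-!
# Generating functions and the layer cake formula (package C3)
-/

open MeasureTheory

namespace Pool.Agent.T2H02.Lev

theorem gen_aux (α : Type) [Fintype α] : ∀ x : α → ℂ, (∀ i, ‖x i‖ < 1) →
    (Summable fun d : α → ℕ => ‖∏ i, x i ^ d i‖) ∧
    HasSum (fun d : α → ℕ => ∏ i, x i ^ d i) (∏ i, (1 - x i)⁻¹) := by
  refine Fintype.induction_empty_option (P := fun α _ => ∀ x : α → ℂ, (∀ i, ‖x i‖ < 1) →
    (Summable fun d : α → ℕ => ‖∏ i, x i ^ d i‖) ∧
    HasSum (fun d : α → ℕ => ∏ i, x i ^ d i) (∏ i, (1 - x i)⁻¹)) ?_ ?_ ?_ α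
  · intro α β _ e h x hx
    obtain ⟨h1, h2⟩ := h (fun i => x (e i)) (fun i => hx _)
    let E : (β → ℕ) ≃ (α → ℕ) := e.symm.arrowCongr (Equiv.refl ℕ)
    have hE : ∀ (d : β → ℕ) (i : α), E d i = d (e i) := fun d i => rfl
    have e1 : ∀ d : β → ℕ, ∏ i, x i ^ d i =
        @Finset.prod _ _ _ (@Finset.univ α (Fintype.ofEquiv β e.symm))
          (fun i => x (e i) ^ E d i) := by
      intro d
      symm
      exact @Fintype.prod_equiv α β ℂ (Fintype.ofEquiv β e.symm) _ _ e _ _
        (fun i => by rw [hE])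
    constructor
    · have := (E.summable_iff).2 h1
      refine this.congr fun d => ?_
      simp only [Function.comp_apply]
      rw [e1]
    · have h3 := (E.hasSum_iff).2 h2
      have e2 : (∏ i, (1 - x i)⁻¹) =
        @Finset.prod _ _ _ (@Finset.univ α (Fintype.ofEquiv β e.symm))
          (fun i => (1 - x (e i))⁻¹) := by
        symm
        exact @Fintype.prod_equiv α β ℂ (Fintype.ofEquiv β e.symm) _ _ e _ _ (fun i => rfl)
      rw [e2]
      convert! h3 using 1
      funext d
      exact e1 d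
  · intro x _
    constructor
    · exact Summable.of_finite
    · have h := hasSum_fintype (fun d : PEmpty → ℕ => ∏ i : PEmpty, x i ^ d i)
      simpa using h
  · intro α _ h x hx
    obtain ⟨h1, h2⟩ := h (fun i => x (some i)) (fun i => hx _)
    have hg : HasSum (fun j : ℕ => x none ^ j) (1 - x none)⁻¹ :=
      hasSum_geometric_of_norm_lt_one (hx none)
    have hgn : Summable fun j : ℕ => ‖x none ^ j‖ := by
      simp only [norm_pow]
      exact summable_geometric_of_lt_one (norm_nonneg _) (hx none)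
    have hs := hgn.mul_norm h1
    let E : (Option α → ℕ) ≃ ℕ × (α → ℕ) := Equiv.piOptionEquivProd
    have e1 : ∀ d : Option α → ℕ, ∏ i, x i ^ d i =
        x none ^ (E d).1 * ∏ i, x (some i) ^ (E d).2 i := by
      intro d
      rw [Fintype.prod_option]
      rfl
    constructor
    · have := (E.summable_iff).2 hs
      refine this.congr fun d => ?_
      simp only [Function.comp_apply]
      rw [e1]
    · have h3 := hg.mul h2 hs.of_norm
      have h4 := (E.hasSum_iff).2 h3
      rw [Fintype.prod_option]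
      convert! h4 using 1
      funext d
      exact e1 d

theorem gen {α : Type} [Fintype α] (x : α → ℂ) (hx : ∀ i, ‖x i‖ < 1) :
    (Summable fun d : α →₀ ℕ => ‖d.prod fun i j => x i ^ j‖) ∧
    HasSum (fun d : α →₀ ℕ => d.prod fun i j => x i ^ j) (∏ i, (1 - x i)⁻¹) := by
  obtain ⟨h1, h2⟩ := gen_aux α x hx
  let E : (α →₀ ℕ) ≃ (α → ℕ) := Finsupp.equivFunOnFinite
  have e1 : ∀ d : α →₀ ℕ, (d.prod fun i j => x i ^ j) = ∏ i, x i ^ E d i := by
    intro d
    rw [Finsupp.prod_fintype _ _ (fun i => pow_zero _)]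
    rfl
  constructor
  · refine ((E.summable_iff).2 h1).congr fun d => ?_
    simp only [Function.comp_apply]
    rw [e1]
  · have h4 := (E.hasSum_iff).2 h2
    convert! h4 using 1
    funext d
    exact e1 d

theorem exp_lint (t : ℝ) (ht : 0 < t) (e : ℝ) :
    ∫⁻ u in Set.Ici e, ENNReal.ofReal (t * Real.exp (-(t * u))) =
      ENNReal.ofReal (Real.exp (-(t * e))) := by
  rw [setLIntegral_congr Ioi_ae_eq_Ici.symm]
  have h1 : IntegrableOn (fun u : ℝ => t * Real.exp (-(t * u))) (Set.Ioi e) := by
    have := (integrableOn_exp_mul_Ioi (a := -t) (by linarith) e).const_mul t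
    simp only [neg_mul] at this
    exact this
  rw [← ofReal_integral_eq_lintegral_ofReal h1
    (Filter.Eventually.of_forall fun u => by positivity)]
  congr 1
  have h2 := integral_exp_mul_Ioi (a := -t) (by linarith) e
  rw [integral_const_mul]
  simp only [neg_mul] at h2
  rw [h2]
  field_simp

theorem layer {ι : Type} [Countable ι] (t : ℝ) (ht : 0 < t) (e : ι → ℝ) (w : ι → ENNReal) :
    ∑' i, w i * ENNReal.ofReal (Real.exp (-(t * e i))) =
      ∫⁻ u : ℝ, ENNReal.ofReal (t * Real.exp (-(t * u))) * ∑' i, (if e i ≤ u then w i else 0) := by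
  have hm : Measurable fun u : ℝ => ENNReal.ofReal (t * Real.exp (-(t * u))) := by fun_prop
  simp only [← ENNReal.tsum_mul_left]
  rw [lintegral_tsum]
  · refine tsum_congr fun i => ?_
    rw [← exp_lint t ht, ← lintegral_indicator measurableSet_Ici,
      ← lintegral_const_mul _ (hm.indicator measurableSet_Ici)]
    refine lintegral_congr fun u => ?_
    by_cases h : e i ≤ u
    · rw [Set.indicator_of_mem (Set.mem_Ici.2 h), if_pos h, mul_comm]
    · rw [Set.indicator_of_notMem (fun h' => h (Set.mem_Ici.1 h')), if_neg h, mul_zero, mul_zero]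
  · intro i
    refine (hm.mul ?_).aemeasurable
    exact Measurable.ite measurableSet_Ici measurable_const measurable_const

theorem layer_eq {ι κ : Type} [Countable ι] [Countable κ] (t : ℝ) (ht : 0 < t) (e : ι → ℝ)
    (w : ι → ENNReal) (e' : κ → ℝ) (w' : κ → ENNReal)
    (h : ∀ u : ℝ, ∑' i, (if e i ≤ u then w i else 0) = ∑' j, (if e' j ≤ u then w' j else 0)) :
    ∑' i, w i * ENNReal.ofReal (Real.exp (-(t * e i))) =
      ∑' j, w' j * ENNReal.ofReal (Real.exp (-(t * e' j))) := by
  rw [layer t ht, layer t ht]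
  simp only [h]

end Pool.Agent.T2H02.Lev
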