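import Mathlib
import Pool.Agent.T2H02.Lev.FockDefs

/-!
# The dimension of the space of invariants (package C2)
-/

open MeasureTheory MvPolynomial
open scoped Matrix

set_option linter.unusedSectionVars false

namespace Pool.Agent.T2H02.Lev

section haar

variable {G : Type} [Group G] [TopologicalSpace G] [IsTopologicalGroup G] [CompactSpace G]
  [MeasurableSpace G] [BorelSpace G] {I : Type} [Fintype I] [DecidableEq I]

/-- the invariant vectors of a family of matrices -/
def fixv (σ : G → Matrix I I ℂ) : Submodule ℂ (I → ℂ) where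
  carrier := {v | ∀ g, σ g *ᵥ v = v}
  add_mem' := by
    intro v w hv hw g
    rw [Matrix.mulVec_add, hv g, hw g]
  zero_mem' := fun g => Matrix.mulVec_zero _
  smul_mem' := by
    intro c v hv g
    rw [Matrix.mulVec_smul, hv g]

theorem mem_inv (σ : G → Matrix I I ℂ) (v : I → ℂ) : v ∈ fixv σ ↔ ∀ g, σ g *ᵥ v = v := Iff.rfl

/-- the average of the matrices -/
noncomputable def avg (μ : Measure G) (σ : G → Matrix I I ℂ) : Matrix I I ℂ :=
  Matrix.of fun i j => ∫ g, σ g i j ∂μ

variable (μ : Measure G) [IsProbabilityMeasure μ] (σ : G → Matrix I I ℂ) (hσ : Continuous σ)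

include hσ

theorem entry_int (i j : I) : Integrable (fun g => σ g i j) μ := by
  have h1 : Continuous fun g => σ g i j := (continuous_apply_apply i j).comp hσ
  exact h1.integrable_of_hasCompactSupport (HasCompactSupport.of_compactSpace _)

theorem avg_mulVec (v : I → ℂ) (i : I) : (avg μ σ *ᵥ v) i = ∫ g, (σ g *ᵥ v) i ∂μ := by
  simp only [Matrix.mulVec, dotProduct, avg, Matrix.of_apply]
  rw [integral_finsetSum _ fun j _ => (entry_int μ σ hσ i j).mul_const _]
  refine Finset.sum_congr rfl fun j _ => ?_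
  rw [integral_mul_const]

theorem mul_avg [μ.IsMulLeftInvariant] (hmul : ∀ g h, σ (g * h) = σ g * σ h) (h : G) :
    σ h * avg μ σ = avg μ σ := by
  ext i j
  rw [Matrix.mul_apply]
  simp only [avg, Matrix.of_apply]
  rw [← integral_mul_left_eq_self (fun g => σ g i j) h]
  simp only [hmul, Matrix.mul_apply]
  rw [integral_finsetSum _ fun k _ => (entry_int μ σ hσ k j).const_mul _]
  refine Finset.sum_congr rfl fun k _ => ?_
  rw [integral_const_mul]

theorem trace_avg : (avg μ σ).trace = ∫ g, (σ g).trace ∂μ := by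
  simp only [Matrix.trace, Matrix.diag, avg, Matrix.of_apply]
  rw [integral_finsetSum _ fun i _ => entry_int μ σ hσ i i]

/-- **The dimension of the invariants is the integral of the character.** -/
theorem finrank_inv_eq [μ.IsMulLeftInvariant] (hmul : ∀ g h, σ (g * h) = σ g * σ h) :
    (Module.finrank ℂ (fixv σ) : ℂ) = ∫ g, (σ g).trace ∂μ := by
  rw [← trace_avg μ σ hσ]
  have h1 : LinearMap.IsProj (fixv σ) (Matrix.toLin' (avg μ σ)) := by
    constructor
    · intro v g
      rw [Matrix.toLin'_apply, Matrix.mulVec_mulVec, mul_avg μ σ hσ hmul g]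
    · intro v hv
      rw [Matrix.toLin'_apply]
      funext i
      rw [avg_mulVec μ σ hσ]
      have h2 : ∀ g, (σ g *ᵥ v) i = v i := fun g => by rw [(mem_inv σ v).1 hv g]
      simp only [h2, integral_const, probReal_univ, one_smul]
  rw [← h1.trace, Matrix.trace_toLin'_eq]

theorem haar_trace {G : Type} [Group G] [TopologicalSpace G] [IsTopologicalGroup G]
    [CompactSpace G] [MeasurableSpace G] [BorelSpace G] {I : Type} [Fintype I] [DecidableEq I]
    (s : G → Matrix I I ℂ) (hs : Continuous s) (hmul : ∀ g h, s (g * h) = s g * s h)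
    (_hone : s 1 = 1) (μ : Measure G) [IsProbabilityMeasure μ] [μ.IsMulLeftInvariant] :
    ∫ g, (s g).trace ∂μ = (Module.finrank ℂ (fixv s) : ℂ) :=
  (finrank_inv_eq μ s hs hmul).symm

end haar

/-! ### polynomials -/

section pol

variable {M : Type} {n : ℕ}

theorem fact_X (A : Matrix (Fin n) (Fin n) ℝ) (s : M × Fin n) :
    fact M A (X s) = ∑ b, C ((A b s.2 : ℝ) : ℂ) * X (s.1, b) := by
  unfold fact
  rw [aeval_X]

theorem fact_C (A : Matrix (Fin n) (Fin n) ℝ) (c : ℂ) :
    fact M A (C c) = C c := by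
  unfold fact
  rw [aeval_C]
  rfl

theorem fact_one (p : MvPolynomial (M × Fin n) ℂ) : fact M (1 : Matrix (Fin n) (Fin n) ℝ) p = p := by
  have h : fact M (1 : Matrix (Fin n) (Fin n) ℝ) = AlgHom.id ℂ _ := by
    apply MvPolynomial.algHom_ext
    intro s
    rw [fact_X, AlgHom.id_apply]
    rw [Finset.sum_eq_single s.2]
    · simp
    · intro b _ hb
      rw [Matrix.one_apply_ne hb]
      simp
    · intro h
      exact absurd (Finset.mem_univ _) h
  rw [h, AlgHom.id_apply]

theorem fact_mul (A B : Matrix (Fin n) (Fin n) ℝ) (p : MvPolynomial (M × Fin n) ℂ) :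
    fact M (A * B) p = fact M A (fact M B p) := by
  have h : fact M (A * B) = (fact M A).comp (fact M B) := by
    apply MvPolynomial.algHom_ext
    intro s
    rw [AlgHom.comp_apply, fact_X, fact_X, map_sum]
    have h1 : ∀ b, fact M A (C ((B b s.2 : ℝ) : ℂ) * X (s.1, b)) =
        ∑ c, C ((B b s.2 : ℝ) : ℂ) * (C ((A c b : ℝ) : ℂ) * X (s.1, c)) := by
      intro b
      rw [map_mul, fact_C, fact_X, Finset.mul_sum]
    simp only [h1]
    rw [Finset.sum_comm]
    refine Finset.sum_congr rfl fun c _ => ?_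
    rw [Matrix.mul_apply]
    push_cast
    rw [map_sum, Finset.sum_mul]
    refine Finset.sum_congr rfl fun b _ => ?_
    rw [map_mul]
    ring
  rw [h, AlgHom.comp_apply]

variable {G : Type} [Group G] [TopologicalSpace G]

/-- the coefficients of the transformed polynomials depend continuously on the group element -/
theorem continuous_coeff (ρ : G → Matrix (Fin n) (Fin n) ℝ) (hρ : Continuous ρ)
    (p : MvPolynomial (M × Fin n) ℂ) :
    ∀ d, Continuous fun g => coeff d (fact M (ρ g) p) := by
  classical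
  induction p using MvPolynomial.induction_on with
  | C a =>
    intro d
    simp only [fact_C]
    exact continuous_const
  | add p q hp hq =>
    intro d
    simp only [map_add, coeff_add]
    exact (hp d).add (hq d)
  | mul_X p s hp =>
    intro d
    simp only [map_mul, fact_X, coeff_mul]
    refine continuous_finsetSum _ fun x _ => (hp x.1).mul ?_
    simp only [coeff_sum, coeff_C_mul]
    refine continuous_finsetSum _ fun b _ => Continuous.mul ?_ continuous_const
    exact Complex.continuous_ofReal.comp ((continuous_apply_apply b s.2).comp hρ)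

/-- the polynomials supported in `S` which are invariant -/
def invS (S : Set (M × Fin n →₀ ℕ)) (ρ : G → Matrix (Fin n) (Fin n) ℝ) :
    Submodule ℂ (MvPolynomial (M × Fin n) ℂ) where
  carrier := {p | (∀ d ∈ p.support, d ∈ S) ∧ ∀ g, fact M (ρ g) p = p}
  add_mem' := by
    classical
    rintro p q ⟨h1, h2⟩ ⟨h3, h4⟩
    refine ⟨fun d hd => ?_, fun g => by rw [map_add, h2 g, h4 g]⟩
    rcases Finset.mem_union.1 (support_add hd) with h | h
    · exact h1 d h
    · exact h3 d h
  zero_mem' := ⟨fun d hd => by simp at hd, fun g => map_zero _⟩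
  smul_mem' := by
    rintro c p ⟨h1, h2⟩
    exact ⟨fun d hd => h1 d (support_smul hd), fun g => by rw [map_smul, h2 g]⟩

theorem singl_eq (ω : M → ℝ) (ρ : G → Matrix (Fin n) (Fin n) ℝ) (E : ℝ) :
    singl ω ρ E = invS {d | fen ω d ≤ E} ρ := rfl

/-- the matrix of the action on the polynomials supported in `S` -/
noncomputable def matS (S : Finset (M × Fin n →₀ ℕ)) (A : Matrix (Fin n) (Fin n) ℝ) :
    Matrix S S ℂ :=
  Matrix.of fun d e => coeff d.1 (fact M A (monomial e.1 1))

/-- the polynomial with the coefficients `v` -/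
noncomputable def polS (S : Finset (M × Fin n →₀ ℕ)) (v : S → ℂ) : MvPolynomial (M × Fin n) ℂ :=
  ∑ e : S, monomial e.1 (v e)

theorem coeff_polS (S : Finset (M × Fin n →₀ ℕ)) (v : S → ℂ) (d : S) :
    coeff d.1 (polS S v) = v d := by
  classical
  unfold polS
  rw [coeff_sum, Finset.sum_eq_single d]
  · rw [coeff_monomial, if_pos rfl]
  · intro e _ he
    rw [coeff_monomial, if_neg fun h => he (Subtype.ext h)]
  · intro h
    exact absurd (Finset.mem_univ _) h

theorem coeff_polS_of_notMem (S : Finset (M × Fin n →₀ ℕ)) (v : S → ℂ) (d : M × Fin n →₀ ℕ)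
    (hd : d ∉ S) : coeff d (polS S v) = 0 := by
  classical
  unfold polS
  rw [coeff_sum]
  refine Finset.sum_eq_zero fun e _ => ?_
  have h1 : ¬ e.1 = d := by
    rintro rfl
    exact hd e.2
  rw [coeff_monomial, if_neg h1]

theorem polS_coeff (S : Finset (M × Fin n →₀ ℕ)) (p : MvPolynomial (M × Fin n) ℂ)
    (hp : ∀ d ∈ p.support, d ∈ S) : polS S (fun d => coeff d.1 p) = p := by
  ext d
  by_cases hd : d ∈ S
  · exact coeff_polS S (fun d => coeff d.1 p) ⟨d, hd⟩
  · rw [coeff_polS_of_notMem S _ d hd]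
    by_contra h
    exact hd (hp d (mem_support_iff.2 (Ne.symm h)))

theorem fact_polS (S : Finset (M × Fin n →₀ ℕ)) (A : Matrix (Fin n) (Fin n) ℝ)
    (hS : ∀ e ∈ S, ∀ d ∈ (fact M A (monomial e 1)).support, d ∈ S) (v : S → ℂ) :
    fact M A (polS S v) = polS S (matS S A *ᵥ v) := by
  have h1 : fact M A (polS S v) = ∑ e : S, C (v e) * fact M A (monomial e.1 1) := by
    unfold polS
    rw [map_sum]
    refine Finset.sum_congr rfl fun e _ => ?_
    have h2 : monomial e.1 (v e) = C (v e) * monomial e.1 (1 : ℂ) := by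
      rw [C_mul_monomial, mul_one]
    rw [h2, map_mul, fact_C]
  ext d
  by_cases hd : d ∈ S
  · have h3 := coeff_polS S (matS S A *ᵥ v) ⟨d, hd⟩
    simp only at h3
    rw [h3, h1, coeff_sum]
    simp only [Matrix.mulVec, dotProduct, matS, Matrix.of_apply]
    refine Finset.sum_congr rfl fun e _ => ?_
    rw [coeff_C_mul, mul_comm]
  · rw [coeff_polS_of_notMem S _ d hd, h1, coeff_sum]
    refine Finset.sum_eq_zero fun e _ => ?_
    rw [coeff_C_mul]
    by_cases h : d ∈ (fact M A (monomial e.1 1)).support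
    · exact absurd (hS e.1 e.2 d h) hd
    · rw [notMem_support_iff.1 h, mul_zero]

theorem polS_injective (S : Finset (M × Fin n →₀ ℕ)) :
    Function.Injective (polS (M := M) (n := n) S) := by
  intro v w h
  funext d
  rw [← coeff_polS S v d, h, coeff_polS S w d]

theorem matS_mul (S : Finset (M × Fin n →₀ ℕ)) (A B : Matrix (Fin n) (Fin n) ℝ)
    (hA : ∀ e ∈ S, ∀ d ∈ (fact M A (monomial e 1)).support, d ∈ S)
    (hB : ∀ e ∈ S, ∀ d ∈ (fact M B (monomial e 1)).support, d ∈ S)
    (hAB : ∀ e ∈ S, ∀ d ∈ (fact M (A * B) (monomial e 1)).support, d ∈ S) :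
    matS S (A * B) = matS S A * matS S B := by
  classical
  apply Matrix.toLin'.injective
  apply LinearMap.ext
  intro v
  rw [Matrix.toLin'_apply, Matrix.toLin'_apply, ← Matrix.mulVec_mulVec]
  apply polS_injective S
  rw [← fact_polS S (A * B) hAB, ← fact_polS S A hA, ← fact_polS S B hB, fact_mul]

theorem continuous_matS (S : Finset (M × Fin n →₀ ℕ)) (ρ : G → Matrix (Fin n) (Fin n) ℝ)
    (hρ : Continuous ρ) : Continuous fun g => matS S (ρ g) := by
  refine continuous_matrix fun d e => ?_
  exact continuous_coeff ρ hρ (monomial e.1 1) d.1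

/-- the invariant polynomials supported in `S` and the invariant vectors -/
noncomputable def invEquiv (S : Finset (M × Fin n →₀ ℕ)) (ρ : G → Matrix (Fin n) (Fin n) ℝ)
    (hS : ∀ g, ∀ e ∈ S, ∀ d ∈ (fact M (ρ g) (monomial e 1)).support, d ∈ S) :
    fixv (fun g => matS S (ρ g)) ≃ₗ[ℂ] invS (S : Set (M × Fin n →₀ ℕ)) ρ where
  toFun v := ⟨polS S v.1, fun d hd => by
      by_contra h
      exact (mem_support_iff.1 hd) (coeff_polS_of_notMem S v.1 d h),
    fun g => by rw [fact_polS S (ρ g) (hS g), v.2 g]⟩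
  map_add' v w := by
    apply Subtype.ext
    show polS S (v.1 + w.1) = polS S v.1 + polS S w.1
    unfold polS
    rw [← Finset.sum_add_distrib]
    refine Finset.sum_congr rfl fun e _ => ?_
    rw [Pi.add_apply, map_add]
  map_smul' c v := by
    apply Subtype.ext
    show polS S (c • v.1) = c • polS S v.1
    unfold polS
    rw [Finset.smul_sum]
    refine Finset.sum_congr rfl fun e _ => ?_
    rw [Pi.smul_apply, smul_monomial]
  invFun p := ⟨fun d => coeff d.1 p.1, fun g => by
    apply polS_injective S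
    rw [← fact_polS S (ρ g) (hS g), polS_coeff S p.1 p.2.1, p.2.2 g]⟩
  left_inv v := by
    apply Subtype.ext
    funext d
    exact coeff_polS S v.1 d
  right_inv p := by
    apply Subtype.ext
    exact polS_coeff S p.1 p.2.1

/-- **The dimension of the space of invariant polynomials supported in `S`.** -/
theorem finrank_invS [IsTopologicalGroup G] [CompactSpace G] [MeasurableSpace G] [BorelSpace G]
    (μ : Measure G) [IsProbabilityMeasure μ] [μ.IsMulLeftInvariant]
    (S : Finset (M × Fin n →₀ ℕ)) (ρ : G → Matrix (Fin n) (Fin n) ℝ)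
    (hρ : Continuous ρ) (hmul : ∀ g h, ρ (g * h) = ρ g * ρ h)
    (hS : ∀ g, ∀ e ∈ S, ∀ d ∈ (fact M (ρ g) (monomial e 1)).support, d ∈ S) :
    (Module.finrank ℂ (invS (S : Set (M × Fin n →₀ ℕ)) ρ) : ℂ) =
      ∫ g, ∑ d ∈ S, coeff d (fact M (ρ g) (monomial d 1)) ∂μ := by
  classical
  rw [← (invEquiv S ρ hS).finrank_eq]
  have h1 := finrank_inv_eq μ (fun g => matS S (ρ g)) (continuous_matS S ρ hρ) (fun g h => by
    show matS S (ρ (g * h)) = matS S (ρ g) * matS S (ρ h)
    rw [hmul]
    exact matS_mul S _ _ (hS g) (hS h) (by rw [← hmul]; exact hS (g * h)))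
  rw [h1]
  refine integral_congr_ae (Filter.Eventually.of_forall fun g => ?_)
  show (matS S (ρ g)).trace = ∑ d ∈ S, coeff d (fact M (ρ g) (monomial d 1))
  rw [Matrix.trace, ← Finset.sum_coe_sort S]
  rfl

end pol

end Pool.Agent.T2H02.Lev
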