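import Mathlib
import Pool.Agent.H16.SUn1
import Pool.Agent.T2H02.Lev.FockDefs

/-!
# The trace formula for the action on polynomials (package C1)
-/

open MvPolynomial Matrix

namespace Pool.Agent.T2H02.Lev

noncomputable section

variable {M : Type} {n : ℕ}

/-- the action of a complex matrix on the polynomials, on the colour index of the variables -/
def factC (M : Type) {n : ℕ} (A : Matrix (Fin n) (Fin n) ℂ) :
    MvPolynomial (M × Fin n) ℂ →ₐ[ℂ] MvPolynomial (M × Fin n) ℂ :=
  aeval fun s => ∑ b, C (A b s.2) * X (s.1, b)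

/-- complexification of a real matrix -/
def cx (A : Matrix (Fin n) (Fin n) ℝ) : Matrix (Fin n) (Fin n) ℂ := A.map fun x => (x : ℂ)

theorem fact_eq (A : Matrix (Fin n) (Fin n) ℝ) : fact M A = factC M (cx A) := rfl

theorem factC_X (A : Matrix (Fin n) (Fin n) ℂ) (s : M × Fin n) :
    factC M A (X s) = ∑ b, C (A b s.2) * X (s.1, b) := by
  unfold factC
  rw [aeval_X]

theorem factC_C (A : Matrix (Fin n) (Fin n) ℂ) (c : ℂ) : factC M A (C c) = C c := by
  unfold factC
  rw [aeval_C]
  rfl

theorem factC_mul (A B : Matrix (Fin n) (Fin n) ℂ) (p : MvPolynomial (M × Fin n) ℂ) :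
    factC M (A * B) p = factC M A (factC M B p) := by
  have h : factC M (A * B) = (factC M A).comp (factC M B) := by
    refine MvPolynomial.algHom_ext fun s => ?_
    rw [AlgHom.comp_apply, factC_X, factC_X, map_sum]
    simp only [map_mul, factC_C, factC_X, Matrix.mul_apply, Finset.mul_sum, map_sum,
      Finset.sum_mul]
    rw [Finset.sum_comm]
    refine Finset.sum_congr rfl fun b _ => Finset.sum_congr rfl fun c _ => ?_
    ring
  rw [h]
  rfl

theorem factC_one (p : MvPolynomial (M × Fin n) ℂ) : factC M 1 p = p := by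
  have h : factC M (1 : Matrix (Fin n) (Fin n) ℂ) = AlgHom.id ℂ _ := by
    refine MvPolynomial.algHom_ext fun s => ?_
    rw [factC_X, AlgHom.id_apply, Finset.sum_eq_single s.2]
    · simp
    · intro b _ hb
      rw [Matrix.one_apply_ne hb, C_0, zero_mul]
    · simp
  rw [h]
  rfl

/-- the weights of the multidegree -/
def mw (M : Type) (n : ℕ) (s : M × Fin n) : M → ℕ := by
  classical exact Pi.single s.1 1

/-- the multidegree -/
def mdeg (d : M × Fin n →₀ ℕ) : M → ℕ := Finsupp.weight (mw M n) d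

theorem mdeg_add (d d' : M × Fin n →₀ ℕ) : mdeg (d + d') = mdeg d + mdeg d' :=
  map_add _ _ _

theorem factC_whom (A : Matrix (Fin n) (Fin n) ℂ) (d : M × Fin n →₀ ℕ) :
    IsWeightedHomogeneous (mw M n) (factC M A (monomial d 1)) (mdeg d) := by
  classical
  rw [MvPolynomial.monomial_eq, C_1, one_mul, Finsupp.prod, map_prod]
  have e : mdeg d = ∑ s ∈ d.support, d s • mw M n s := rfl
  rw [e]
  refine IsWeightedHomogeneous.prod _ _ _ fun s _ => ?_
  rw [map_pow, factC_X]
  refine IsWeightedHomogeneous.pow (IsWeightedHomogeneous.sum _ _ _ fun b _ => ?_) _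
  refine IsWeightedHomogeneous.C_mul ?_ _
  have h := isWeightedHomogeneous_X ℂ (mw M n) (s.1, b)
  exact h

theorem coeff_factC_ne {A : Matrix (Fin n) (Fin n) ℂ} {d d' : M × Fin n →₀ ℕ}
    (h : coeff d' (factC M A (monomial d 1)) ≠ 0) : mdeg d' = mdeg d :=
  factC_whom A d h

/-- closed sets of exponents -/
def Clo (S : Finset (M × Fin n →₀ ℕ)) : Prop := ∀ d ∈ S, ∀ d', mdeg d' = mdeg d → d' ∈ S

/-- the polynomial of a vector -/
def toP (S : Finset (M × Fin n →₀ ℕ)) : (S → ℂ) →ₗ[ℂ] MvPolynomial (M × Fin n) ℂ :=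
  ∑ d : S, (MvPolynomial.monomial (d : M × Fin n →₀ ℕ)).comp (LinearMap.proj d)

theorem toP_apply (S : Finset (M × Fin n →₀ ℕ)) (v : S → ℂ) :
    toP S v = ∑ d : S, monomial (d : M × Fin n →₀ ℕ) (v d) := by
  unfold toP
  rw [LinearMap.sum_apply]
  rfl

theorem coeff_toP (S : Finset (M × Fin n →₀ ℕ)) (v : S → ℂ) (d : S) :
    coeff (d : M × Fin n →₀ ℕ) (toP S v) = v d := by
  classical
  rw [toP_apply, coeff_sum, Finset.sum_eq_single d]
  · rw [coeff_monomial, if_pos rfl]
  · intro b _ hb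
    rw [coeff_monomial, if_neg fun h => hb (Subtype.ext h)]
  · simp

theorem coeff_toP_ne (S : Finset (M × Fin n →₀ ℕ)) (v : S → ℂ) {d : M × Fin n →₀ ℕ} (hd : d ∉ S) :
    coeff d (toP S v) = 0 := by
  classical
  rw [toP_apply, coeff_sum]
  refine Finset.sum_eq_zero fun b _ => ?_
  rw [coeff_monomial, if_neg]
  rintro rfl
  exact hd b.2

theorem toP_coeff {S : Finset (M × Fin n →₀ ℕ)} {p : MvPolynomial (M × Fin n) ℂ}
    (h : ∀ d, coeff d p ≠ 0 → d ∈ S) : toP S (fun d => coeff (d : M × Fin n →₀ ℕ) p) = p := by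
  ext d
  by_cases hd : d ∈ S
  · rw [coeff_toP S _ ⟨d, hd⟩]
  · rw [coeff_toP_ne S _ hd]
    by_contra h1
    exact hd (h d (Ne.symm h1))

/-- the matrix of the action -/
def TS (S : Finset (M × Fin n →₀ ℕ)) (A : Matrix (Fin n) (Fin n) ℂ) : Matrix S S ℂ :=
  fun d' d => coeff (d' : M × Fin n →₀ ℕ) (factC M A (monomial (d : M × Fin n →₀ ℕ) 1))

theorem factC_toP {S : Finset (M × Fin n →₀ ℕ)} (hS : Clo S) (A : Matrix (Fin n) (Fin n) ℂ)
    (v : S → ℂ) : factC M A (toP S v) = toP S (TS S A *ᵥ v) := by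
  classical
  ext d'
  have e1 : factC M A (toP S v) =
      ∑ d : S, v d • factC M A (monomial (d : M × Fin n →₀ ℕ) 1) := by
    rw [toP_apply, map_sum]
    refine Finset.sum_congr rfl fun d _ => ?_
    rw [← map_smul, smul_monomial, smul_eq_mul, mul_one]
  rw [e1, coeff_sum]
  simp only [coeff_smul, smul_eq_mul]
  by_cases hd : d' ∈ S
  · rw [coeff_toP S _ ⟨d', hd⟩]
    unfold TS
    rw [mulVec, dotProduct]
    exact Finset.sum_congr rfl fun d _ => mul_comm _ _
  · rw [coeff_toP_ne S _ hd]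
    refine Finset.sum_eq_zero fun d _ => ?_
    have : coeff d' (factC M A (monomial (d : M × Fin n →₀ ℕ) 1)) = 0 := by
      by_contra h
      exact hd (hS d d.2 d' (coeff_factC_ne h))
    rw [this, mul_zero]

theorem toP_inj {S : Finset (M × Fin n →₀ ℕ)} {v w : S → ℂ} (h : toP S v = toP S w) : v = w := by
  funext d
  rw [← coeff_toP S v d, h, coeff_toP]

theorem TS_mul {S : Finset (M × Fin n →₀ ℕ)} (hS : Clo S) (A B : Matrix (Fin n) (Fin n) ℂ) :
    TS S (A * B) = TS S A * TS S B := by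
  classical
  refine Matrix.ext_of_mulVec_single fun i => ?_
  apply toP_inj
  rw [← factC_toP hS, factC_mul, factC_toP hS, factC_toP hS, mulVec_mulVec]

theorem TS_one {S : Finset (M × Fin n →₀ ℕ)} (hS : Clo S) [DecidableEq S] :
    TS S (1 : Matrix (Fin n) (Fin n) ℂ) = 1 := by
  refine Matrix.ext_of_mulVec_single fun i => ?_
  apply toP_inj
  rw [← factC_toP hS, factC_one, one_mulVec]

/-- the diagonal coefficient -/
def kap (A : Matrix (Fin n) (Fin n) ℂ) (d : M × Fin n →₀ ℕ) : ℂ :=
  coeff d (factC M A (monomial d 1))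

theorem trace_TS (S : Finset (M × Fin n →₀ ℕ)) (A : Matrix (Fin n) (Fin n) ℂ) :
    (TS S A).trace = ∑ d ∈ S, kap A d := by
  unfold Matrix.trace
  rw [← Finset.sum_coe_sort S]
  rfl

theorem factC_diag (z : Fin n → ℂ) (d : M × Fin n →₀ ℕ) :
    factC M (Matrix.diagonal z) (monomial d 1) = monomial d (d.prod fun s j => z s.2 ^ j) := by
  classical
  rw [MvPolynomial.monomial_eq, C_1, one_mul, MvPolynomial.monomial_eq]
  simp only [Finsupp.prod, map_prod]
  rw [← Finset.prod_mul_distrib]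
  refine Finset.prod_congr rfl fun s _ => ?_
  rw [map_pow, factC_X, map_pow, ← mul_pow]
  congr 1
  rw [Finset.sum_eq_single s.2]
  · rw [Matrix.diagonal_apply_eq]
  · intro b _ hb
    rw [Matrix.diagonal_apply_ne _ hb, C_0, zero_mul]
  · simp

theorem kap_diag (z : Fin n → ℂ) (d : M × Fin n →₀ ℕ) :
    kap (Matrix.diagonal z) d = d.prod fun s j => z s.2 ^ j := by
  classical
  unfold kap
  rw [factC_diag, coeff_monomial, if_pos rfl]

/-- **Trace formula.** -/
theorem trace_formula {A : Matrix (Fin n) (Fin n) ℝ} (hA : A.transpose * A = 1) :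
    ∃ z : Fin n → ℂ, (∀ a, ‖z a‖ = 1) ∧
      (∀ (M : Type) (S : Finset (M × Fin n →₀ ℕ)), Clo S →
        ∑ d ∈ S, kap (cx A) d = ∑ d ∈ S, d.prod fun s j => z s.2 ^ j) ∧
      ∀ s : ℝ, (((1 - s • A).det : ℝ) : ℂ) = ∏ a, (1 - (s : ℂ) * z a) := by
  have hU : (cx A)ᴴ * cx A = 1 := by
    have e1 : (cx A)ᴴ = cx A.transpose := by
      ext i j
      simp [cx, conjTranspose_apply, Matrix.map_apply]
    have e2 : cx A.transpose * cx A = cx (A.transpose * A) := by
      unfold cx
      rw [show (fun x : ℝ => (x : ℂ)) = ⇑Complex.ofRealHom from rfl, ← Matrix.map_mul]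
    rw [e1, e2, hA]
    unfold cx
    rw [show (fun x : ℝ => (x : ℂ)) = ⇑Complex.ofRealHom from rfl, Matrix.map_one _ (map_zero _)
      (map_one _)]
  obtain ⟨P, z, h1, h2, h3, h4⟩ := Pool.Agent.H16.SUn.diagonalise hU
  refine ⟨z, fun a => ?_, fun M S hS => ?_, fun s => ?_⟩
  · have h5 := h4 a
    have h6 : ((‖z a‖ ^ 2 : ℝ) : ℂ) = 1 := by
      rw [← h5, Complex.ofReal_pow, ← Complex.conj_mul']
      rfl
    have h7 : ‖z a‖ ^ 2 = 1 := by exact_mod_cast h6
    have h8 := norm_nonneg (z a)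
    nlinarith
  · classical
    rw [← trace_TS, h3, TS_mul hS, TS_mul hS, Matrix.trace_mul_comm, ← Matrix.mul_assoc,
      ← TS_mul hS, h1, TS_one hS, one_mul, trace_TS]
    exact Finset.sum_congr rfl fun d _ => kap_diag z d
  · have e1 : (((1 - s • A).det : ℝ) : ℂ) = (1 - (s : ℂ) • cx A).det := by
      have := RingHom.map_det Complex.ofRealHom (1 - s • A)
      rw [show ((((1 - s • A).det : ℝ)) : ℂ) = Complex.ofRealHom (1 - s • A).det from rfl, this]
      congr 1
      ext i j
      simp [cx, Matrix.map_apply, Matrix.one_apply, apply_ite]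
    have e2 : (1 - (s : ℂ) • cx A) = P * Matrix.diagonal (fun a => 1 - (s : ℂ) * z a) * Pᴴ := by
      have e3 : Matrix.diagonal (fun a => 1 - (s : ℂ) * z a) =
          (1 : Matrix (Fin n) (Fin n) ℂ) - (s : ℂ) • Matrix.diagonal z := by
        ext i j
        by_cases h : i = j
        · subst h; simp
        · simp [h, Matrix.diagonal_apply_ne]
      rw [e3, mul_sub, sub_mul, mul_one, h2, Matrix.mul_smul, Matrix.smul_mul, ← h3]
    rw [e1, e2, Matrix.det_mul, Matrix.det_mul, Matrix.det_diagonal, mul_comm P.det, mul_assoc,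
      ← Matrix.det_mul, h2, Matrix.det_one, mul_one]

/-! ### continuity -/

theorem cont_coeff {Y : Type} [TopologicalSpace Y] {A : Y → Matrix (Fin n) (Fin n) ℂ}
    (hA : Continuous A) (p : MvPolynomial (M × Fin n) ℂ) :
    ∀ d : M × Fin n →₀ ℕ, Continuous fun y => coeff d (factC M (A y) p) := by
  classical
  induction p using MvPolynomial.induction_on with
  | C c =>
    intro d
    simp only [factC_C]
    exact continuous_const
  | add p q hp hq =>
    intro d
    simp only [map_add, coeff_add]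
    exact (hp d).add (hq d)
  | mul_X p s hp =>
    intro d
    simp only [map_mul, factC_X, coeff_mul]
    refine continuous_finsetSum _ fun x _ => (hp _).mul ?_
    simp only [coeff_sum, coeff_C_mul]
    refine continuous_finsetSum _ fun b _ => Continuous.mul ?_ continuous_const
    exact (continuous_apply_apply b s.2).comp hA

theorem cont_TS {Y : Type} [TopologicalSpace Y] {A : Y → Matrix (Fin n) (Fin n) ℂ}
    (hA : Continuous A) (S : Finset (M × Fin n →₀ ℕ)) : Continuous fun y => TS S (A y) :=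
  continuous_matrix fun i j => cont_coeff hA _ _

theorem cont_kap {Y : Type} [TopologicalSpace Y] {A : Y → Matrix (Fin n) (Fin n) ℂ}
    (hA : Continuous A) (d : M × Fin n →₀ ℕ) : Continuous fun y => kap (A y) d :=
  cont_coeff hA _ _

end

end Pool.Agent.T2H02.Lev
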