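import Mathlib
import Pool.Agent.T2H02.Lev.FockTr
import Pool.Agent.T2H02.Lev.FockHaar

/-!
# The levels of the invariant polynomials (package C3)
-/

open MeasureTheory MvPolynomial

namespace Pool.Agent.T2H02.Lev

set_option linter.unusedSectionVars false

noncomputable section

variable {M : Type} [Fintype M] {n : ℕ}

/-- energy of a multidegree -/
def eN (ω : M → ℝ) (ν : M → ℕ) : ℝ := ∑ l, (ν l : ℝ) * ω l

theorem mdeg_apply (d : M × Fin n →₀ ℕ) (l : M) : mdeg d l = ∑ a, d (l, a) := by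
  classical
  unfold mdeg
  rw [Finsupp.weight_eq_sum, Fintype.sum_prod_type, Finset.sum_apply, Finset.sum_eq_single l]
  · rw [Finset.sum_apply]
    refine Finset.sum_congr rfl fun a _ => ?_
    simp [mw]
  · intro b _ hb
    rw [Finset.sum_apply]
    refine Finset.sum_eq_zero fun a _ => ?_
    simp [mw, Ne.symm hb]
  · simp

theorem fen_eq (ω : M → ℝ) (d : M × Fin n →₀ ℕ) : fen ω d = eN ω (mdeg d) := by
  classical
  unfold fen eN
  rw [Finsupp.sum_fintype _ _ (fun i => by simp), Fintype.sum_prod_type]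
  refine Finset.sum_congr rfl fun l _ => ?_
  rw [mdeg_apply]
  push_cast
  rw [Finset.sum_mul]

theorem eN_nonneg {ω : M → ℝ} (hω : ∀ l, 0 < ω l) (ν : M → ℕ) : 0 ≤ eN ω ν :=
  Finset.sum_nonneg fun l _ => mul_nonneg (Nat.cast_nonneg _) (hω l).le

theorem finV {ω : M → ℝ} (hω : ∀ l, 0 < ω l) (E : ℝ) : {ν : M → ℕ | eN ω ν ≤ E}.Finite := by
  classical
  refine (Set.finite_Iic (fun l : M => ⌊E / ω l⌋₊)).subset fun ν hν => ?_
  intro l
  refine Nat.le_floor ?_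
  rw [le_div_iff₀ (hω l)]
  refine le_trans ?_ hν
  exact Finset.single_le_sum (f := fun l => (ν l : ℝ) * ω l)
    (fun l _ => mul_nonneg (Nat.cast_nonneg _) (hω l).le) (Finset.mem_univ l)

theorem finD {ω : M → ℝ} (hω : ∀ l, 0 < ω l) (E : ℝ) :
    {d : M × Fin n →₀ ℕ | fen ω d ≤ E}.Finite := by
  classical
  refine (Set.finite_Icc 0 (Finsupp.equivFunOnFinite.symm
    fun s : M × Fin n => ⌊E / ω s.1⌋₊)).subset fun d hd => ⟨zero_le, ?_⟩
  intro s
  show d s ≤ ⌊E / ω s.1⌋₊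
  refine Nat.le_floor ?_
  rw [le_div_iff₀ (hω s.1)]
  refine le_trans ?_ hd
  unfold fen
  rw [Finsupp.sum_fintype _ _ (fun i => by simp)]
  exact Finset.single_le_sum (f := fun s : M × Fin n => (d s : ℝ) * ω s.1)
    (fun l _ => mul_nonneg (Nat.cast_nonneg _) (hω l.1).le) (Finset.mem_univ s)

theorem finS (ν : M → ℕ) : {d : M × Fin n →₀ ℕ | mdeg d = ν}.Finite := by
  refine (finD (ω := fun _ : M => (1 : ℝ)) (fun _ => one_pos) (eN (fun _ => 1) ν)).subset
    fun d hd => ?_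
  show fen _ d ≤ _
  rw [fen_eq, show mdeg d = ν from hd]

/-- the exponents of given multidegree -/
def Sν (ν : M → ℕ) : Finset (M × Fin n →₀ ℕ) := (finS ν).toFinset

theorem mem_Sν {ν : M → ℕ} {d : M × Fin n →₀ ℕ} : d ∈ Sν ν ↔ mdeg d = ν := by
  unfold Sν
  rw [Set.Finite.mem_toFinset]
  rfl

/-- the multidegrees of energy at most `E` -/
def V {ω : M → ℝ} (hω : ∀ l, 0 < ω l) (E : ℝ) : Finset (M → ℕ) := (finV hω E).toFinset

theorem mem_V {ω : M → ℝ} {hω : ∀ l, 0 < ω l} {E : ℝ} {ν : M → ℕ} :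
    ν ∈ V hω E ↔ eN ω ν ≤ E := by
  unfold V
  rw [Set.Finite.mem_toFinset]
  rfl

/-- the exponents of energy at most `E` -/
def DE {ω : M → ℝ} (hω : ∀ l, 0 < ω l) (E : ℝ) : Finset (M × Fin n →₀ ℕ) :=
  (finD hω E).toFinset

theorem mem_DE {ω : M → ℝ} {hω : ∀ l, 0 < ω l} {E : ℝ} {d : M × Fin n →₀ ℕ} :
    d ∈ DE hω E ↔ fen ω d ≤ E := by
  unfold DE
  rw [Set.Finite.mem_toFinset]
  rfl

theorem coe_DE {ω : M → ℝ} (hω : ∀ l, 0 < ω l) (E : ℝ) :
    ((DE hω E : Finset (M × Fin n →₀ ℕ)) : Set (M × Fin n →₀ ℕ)) = {d | fen ω d ≤ E} := by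
  unfold DE
  rw [Set.Finite.coe_toFinset]

theorem clo_DE {ω : M → ℝ} (hω : ∀ l, 0 < ω l) (E : ℝ) :
    Clo (DE hω E : Finset (M × Fin n →₀ ℕ)) := by
  intro d hd d' h
  rw [mem_DE, fen_eq] at hd ⊢
  rwa [h]

theorem clo_Sν (ν : M → ℕ) : Clo (Sν ν : Finset (M × Fin n →₀ ℕ)) := by
  intro d hd d' h
  rw [mem_Sν] at hd ⊢
  rw [h, hd]

theorem clo_stab {S : Finset (M × Fin n →₀ ℕ)} (hS : Clo S) (A : Matrix (Fin n) (Fin n) ℝ) :
    ∀ e ∈ S, ∀ d ∈ (fact M A (monomial e 1)).support, d ∈ S := by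
  intro e he d hd
  refine hS e he d (coeff_factC_ne (A := cx A) ?_)
  rw [← fact_eq]
  exact mem_support_iff.1 hd

variable {G : Type} [Group G] [TopologicalSpace G]
  [IsTopologicalGroup G] [CompactSpace G]
  [MeasurableSpace G] [BorelSpace G]

/-- number of invariants of given multidegree -/
def nν (ρ : G → Matrix (Fin n) (Fin n) ℝ) (ν : M → ℕ) : ℕ :=
  Module.finrank ℂ (invS ((Sν ν : Finset (M × Fin n →₀ ℕ)) : Set (M × Fin n →₀ ℕ)) ρ)

theorem kap_int (μ : Measure G) [IsProbabilityMeasure μ] (ρ : G → Matrix (Fin n) (Fin n) ℝ)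
    (hρ : Continuous ρ) (d : M × Fin n →₀ ℕ) :
    Integrable (fun g => coeff d (fact M (ρ g) (monomial d 1))) μ :=
  (continuous_coeff ρ hρ _ d).integrable_of_hasCompactSupport (HasCompactSupport.of_compactSpace _)

theorem nν_eq (μ : Measure G) [IsProbabilityMeasure μ] [μ.IsMulLeftInvariant]
    (ρ : G → Matrix (Fin n) (Fin n) ℝ) (hρ : Continuous ρ)
    (hmul : ∀ g h, ρ (g * h) = ρ g * ρ h) (ν : M → ℕ) :
    (nν ρ ν : ℂ) = ∫ g, ∑ d ∈ Sν ν, coeff d (fact M (ρ g) (monomial d 1)) ∂μ :=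
  finrank_invS μ (Sν ν) ρ hρ hmul fun g => clo_stab (clo_Sν ν) (ρ g)

theorem N_eq (μ : Measure G) [IsProbabilityMeasure μ] [μ.IsMulLeftInvariant]
    {ω : M → ℝ} (hω : ∀ l, 0 < ω l)
    (ρ : G → Matrix (Fin n) (Fin n) ℝ) (hρ : Continuous ρ)
    (hmul : ∀ g h, ρ (g * h) = ρ g * ρ h) (E : ℝ) :
    Module.finrank ℂ (singl ω ρ E) = ∑ ν ∈ V hω E, nν ρ ν := by
  classical
  have h1 := finrank_invS μ (DE hω E) ρ hρ hmul fun g => clo_stab (clo_DE hω E) (ρ g)
  rw [coe_DE, ← singl_eq] at h1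
  have h2 : (Module.finrank ℂ (singl ω ρ E) : ℂ) = ((∑ ν ∈ V hω E, nν ρ ν : ℕ) : ℂ) := by
    rw [h1]
    push_cast
    simp only [nν_eq μ ρ hρ hmul]
    rw [← integral_finsetSum _ fun ν _ => integrable_finsetSum _ fun d _ => kap_int μ ρ hρ d]
    refine integral_congr_ae (Filter.Eventually.of_forall fun g => ?_)
    simp only []
    rw [← Finset.sum_fiberwise_of_maps_to (s := DE hω E) (t := V hω E) (g := mdeg) (fun d hd => by
      rw [mem_V, ← fen_eq]
      exact mem_DE.1 hd)]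
    refine Finset.sum_congr rfl fun ν hν => ?_
    refine Finset.sum_congr ?_ fun _ _ => rfl
    ext d
    rw [Finset.mem_filter, mem_DE, mem_Sν, fen_eq]
    constructor
    · exact fun h => h.2
    · intro h
      refine ⟨?_, h⟩
      rw [h]
      exact mem_V.1 hν
  exact_mod_cast h2

/-! ### the invariant `∑ X²` -/

/-- the quadratic invariant -/
def qI (n : ℕ) (l0 : M) : MvPolynomial (M × Fin n) ℂ := ∑ a, X (l0, a) ^ 2

theorem fact_qI {A : Matrix (Fin n) (Fin n) ℝ} (hA : A.transpose * A = 1) (l0 : M) :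
    fact M A (qI n l0) = qI n l0 := by
  classical
  have hA' : A * A.transpose = 1 := mul_eq_one_comm.1 hA
  unfold qI
  rw [map_sum]
  simp only [pow_two, map_mul, fact_X, Finset.sum_mul_sum]
  rw [Finset.sum_comm]
  refine Finset.sum_congr rfl fun b _ => ?_
  rw [Finset.sum_comm, Finset.sum_eq_single b]
  · have h1 : ∑ a, (A b a) * (A b a) = 1 := by
      have := congrFun (congrFun hA' b) b
      rw [Matrix.mul_apply, Matrix.one_apply_eq] at this
      exact this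
    have h2 : ∀ a, C ((A b a : ℝ) : ℂ) * X (l0, b) * (C ((A b a : ℝ) : ℂ) * X (l0, b)) =
        C ((A b a * A b a : ℝ) : ℂ) * (X (l0, b) * X (l0, b) : MvPolynomial (M × Fin n) ℂ) := by
      intro a
      rw [Complex.ofReal_mul, C_mul]
      ring
    simp only [h2]
    rw [← Finset.sum_mul, ← map_sum, ← Complex.ofReal_sum, h1, Complex.ofReal_one, C_1, one_mul]
  · intro c _ hc
    have h1 : ∑ a, (A b a) * (A c a) = 0 := by
      have := congrFun (congrFun hA' b) c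
      rw [Matrix.mul_apply, Matrix.one_apply_ne (Ne.symm hc)] at this
      exact this
    have h2 : ∀ a, C ((A b a : ℝ) : ℂ) * X (l0, b) * (C ((A c a : ℝ) : ℂ) * X (l0, c)) =
        C ((A b a * A c a : ℝ) : ℂ) * (X (l0, b) * X (l0, c) : MvPolynomial (M × Fin n) ℂ) := by
      intro a
      rw [Complex.ofReal_mul, C_mul]
      ring
    simp only [h2]
    rw [← Finset.sum_mul, ← map_sum, ← Complex.ofReal_sum, h1, Complex.ofReal_zero, C_0, zero_mul]
  · simp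

/-- twice the multidegree of the mode `l0` -/
def dl0 (l0 : M) (j : ℕ) : M → ℕ := by
  classical exact j • (2 • Pi.single l0 1)

theorem qI_whom (l0 : M) (j : ℕ) : IsWeightedHomogeneous (mw M n) (qI n l0 ^ j) (dl0 l0 j) := by
  classical
  unfold dl0
  refine IsWeightedHomogeneous.pow ?_ _
  unfold qI
  refine IsWeightedHomogeneous.sum _ _ _ fun a _ => ?_
  refine IsWeightedHomogeneous.pow ?_ _
  exact isWeightedHomogeneous_X ℂ (mw M n) (l0, a)

theorem qI_ne (hn : 0 < n) (l0 : M) (j : ℕ) : qI n l0 ^ j ≠ 0 := by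
  classical
  intro h
  have h1 := congrArg (MvPolynomial.eval fun s : M × Fin n => if s.2 = ⟨0, hn⟩ then (1 : ℂ) else 0) h
  rw [map_pow, map_zero] at h1
  have h2 : MvPolynomial.eval (fun s : M × Fin n => if s.2 = ⟨0, hn⟩ then (1 : ℂ) else 0)
      (qI n l0) = 1 := by
    unfold qI
    rw [map_sum, Finset.sum_eq_single ⟨0, hn⟩]
    · simp
    · intro b _ hb
      simp [hb]
    · simp
  rw [h2, one_pow] at h1
  exact one_ne_zero h1

theorem eN_dl0 (ω : M → ℝ) (l0 : M) (j : ℕ) : eN ω (dl0 l0 j) = 2 * j * ω l0 := by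
  classical
  unfold eN dl0
  rw [Finset.sum_eq_single l0]
  · have e : (j • (2 • Pi.single l0 1) : M → ℕ) l0 = j * 2 := by simp
    rw [e]
    push_cast
    ring
  · intro b _ hb
    simp [hb]
  · simp

theorem nν_pos (hn : 0 < n) (l0 : M) (ρ : G → Matrix (Fin n) (Fin n) ℝ)
    (horth : ∀ g, (ρ g).transpose * ρ g = 1) (j : ℕ) : 1 ≤ nν ρ (dl0 l0 j) := by
  classical
  have hfin : Module.Finite ℂ (invS ((Sν (dl0 l0 j) : Finset (M × Fin n →₀ ℕ)) :
      Set (M × Fin n →₀ ℕ)) ρ) :=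
    Module.Finite.equiv (invEquiv (Sν (dl0 l0 j)) ρ fun g => clo_stab (clo_Sν _) (ρ g))
  have hmem : qI n l0 ^ j ∈ invS ((Sν (dl0 l0 j) : Finset (M × Fin n →₀ ℕ)) :
      Set (M × Fin n →₀ ℕ)) ρ := by
    refine ⟨fun d hd => ?_, fun g => ?_⟩
    · have h1 := qI_whom (n := n) l0 j (mem_support_iff.1 hd)
      exact Finset.mem_coe.2 (mem_Sν.2 h1)
    · rw [map_pow, fact_qI (horth g)]
  have hnt : Nontrivial (invS ((Sν (dl0 l0 j) : Finset (M × Fin n →₀ ℕ)) :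
      Set (M × Fin n →₀ ℕ)) ρ) :=
    ⟨⟨⟨_, hmem⟩, 0, fun h => qI_ne hn l0 j (congrArg Subtype.val h)⟩⟩
  exact Module.finrank_pos

/-- the number of levels up to the energy `E` -/
def NN (ω : M → ℝ) (ρ : G → Matrix (Fin n) (Fin n) ℝ) (E : ℝ) : ℕ :=
  Module.finrank ℂ (singl ω ρ E)

section levels

variable {ω : M → ℝ} {hω : ∀ l, 0 < ω l} {ρ : G → Matrix (Fin n) (Fin n) ℝ}
  (hN : ∀ E, NN ω ρ E = ∑ ν ∈ V hω E, nν ρ ν)

include hN

theorem NN_mono {E E' : ℝ} (h : E ≤ E') : NN ω ρ E ≤ NN ω ρ E' := by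
  rw [hN, hN]
  exact Finset.sum_le_sum_of_subset fun ν hν => mem_V.2 ((mem_V.1 hν).trans h)

theorem NN_neg {E : ℝ} (h : 1 ≤ NN ω ρ E) : 0 ≤ E := by
  by_contra hE
  rw [hN, Finset.sum_eq_zero] at h
  · omega
  · intro ν hν
    exact absurd ((eN_nonneg hω ν).trans (mem_V.1 hν)) hE

theorem NN_lower (hn : 0 < n) (l0 : M) (horth : ∀ g, (ρ g).transpose * ρ g = 1) (k : ℕ) :
    k + 1 ≤ NN ω ρ (2 * k * ω l0) := by
  classical
  rw [hN]
  have hinj : Function.Injective (dl0 l0 : ℕ → M → ℕ) := by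
    intro i j h
    have := congrFun h l0
    simp [dl0] at this
    exact this
  have h1 : (Finset.range (k + 1)).image (dl0 l0) ⊆ V hω (2 * k * ω l0) := by
    intro ν hν
    obtain ⟨j, hj, rfl⟩ := Finset.mem_image.1 hν
    rw [mem_V, eN_dl0]
    have h2 : (j : ℝ) ≤ k := by exact_mod_cast Nat.lt_succ_iff.1 (Finset.mem_range.1 hj)
    have := hω l0
    nlinarith
  calc k + 1 = ∑ _ν ∈ (Finset.range (k + 1)).image (dl0 l0), 1 := by
        rw [Finset.sum_const, smul_eq_mul, mul_one, Finset.card_image_of_injective _ hinj,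
          Finset.card_range]
    _ ≤ ∑ ν ∈ (Finset.range (k + 1)).image (dl0 l0), nν ρ ν := by
        refine Finset.sum_le_sum fun ν hν => ?_
        obtain ⟨j, hj, rfl⟩ := Finset.mem_image.1 hν
        exact nν_pos hn l0 ρ horth j
    _ ≤ _ := Finset.sum_le_sum_of_subset h1

theorem NN_right (u : ℝ) : ∃ u', u < u' ∧ ∀ E, E < u' → NN ω ρ E ≤ NN ω ρ u := by
  classical
  obtain ⟨T, hT⟩ : ∃ T, T = (V hω (u + 1)).filter fun ν => u < eN ω ν := ⟨_, rfl⟩
  have h1 : ∀ᶠ x in nhdsWithin u (Set.Ioi u), ∀ ν ∈ T, x < eN ω ν := by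
    rw [Filter.eventually_all_finset]
    intro ν hν
    rw [hT, Finset.mem_filter] at hν
    exact nhdsWithin_le_nhds (Iio_mem_nhds hν.2)
  have h2 : ∀ᶠ x in nhdsWithin u (Set.Ioi u), u < x := self_mem_nhdsWithin
  have h3 : ∀ᶠ x in nhdsWithin u (Set.Ioi u), x < u + 1 :=
    nhdsWithin_le_nhds (Iio_mem_nhds (by linarith))
  obtain ⟨u', h4, h5, h6⟩ := (h1.and (h2.and h3)).exists
  refine ⟨u', h5, fun E hE => ?_⟩
  rw [hN, hN]
  refine Finset.sum_le_sum_of_subset fun ν hν => ?_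
  rw [mem_V] at hν ⊢
  by_contra hcon
  have h7 : ν ∈ T := by
    rw [hT, Finset.mem_filter, mem_V]
    exact ⟨by linarith, not_le.1 hcon⟩
  have := h4 ν h7
  linarith

theorem flev_le_iff (hn : 0 < n) (l0 : M) (horth : ∀ g, (ρ g).transpose * ρ g = 1) (k : ℕ)
    (u : ℝ) : flev ω ρ k ≤ u ↔ k + 1 ≤ NN ω ρ u := by
  have hb : BddBelow {E : ℝ | k + 1 ≤ Module.finrank ℂ (singl ω ρ E)} :=
    ⟨0, fun E hE => NN_neg hN (le_trans (Nat.le_add_left 1 k) hE)⟩
  constructor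
  · intro h
    obtain ⟨u', h1, h2⟩ := NN_right hN u
    have hne : {E : ℝ | k + 1 ≤ Module.finrank ℂ (singl ω ρ E)}.Nonempty :=
      ⟨_, NN_lower hN hn l0 horth k⟩
    obtain ⟨E, hE, hE2⟩ := exists_lt_of_csInf_lt hne (lt_of_le_of_lt h h1)
    exact le_trans hE (h2 E hE2)
  · intro h
    exact csInf_le hb h

end levels

end

end Pool.Agent.T2H02.Lev
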