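import Mathlib
import Pool.Agent.T2H02.Lev.FockDefs
import Pool.Agent.T2H02.Lev.FockGen
import Pool.Agent.T2H02.Lev.FockLev

/-!
# The partition function of the singlets of the Fock space (package C)
-/

open MeasureTheory MvPolynomial

namespace Pool.Agent.T2H02.Lev

set_option linter.unusedSectionVars false

variable {M : Type} [Fintype M] {n : ℕ} {G : Type} [Group G] [TopologicalSpace G]
  [IsTopologicalGroup G] [CompactSpace G]
  [MeasurableSpace G] [BorelSpace G]

/-- sums over the fibres of the multidegree -/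
theorem fib {E : Type} [NormedAddCommGroup E] [CompleteSpace E] {f : (M × Fin n →₀ ℕ) → E} {a : E}
    (hf : HasSum f a) : HasSum (fun ν : M → ℕ => ∑ d ∈ Sν ν, f d) a := by
  have h1 := (Equiv.sigmaFiberEquiv (mdeg : (M × Fin n →₀ ℕ) → M → ℕ)).hasSum_iff.2 hf
  refine h1.sigma fun ν => ?_
  have h2 := (Sν ν : Finset (M × Fin n →₀ ℕ)).hasSum f
  let e : {d : M × Fin n →₀ ℕ // mdeg d = ν} ≃ {d // d ∈ (Sν ν : Finset (M × Fin n →₀ ℕ))} :=
    Equiv.subtypeEquivRight fun d => mem_Sν.symm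
  exact e.hasSum_iff.2 h2

/-- the determinants are positive -/
theorem det_pos {A : Matrix (Fin n) (Fin n) ℝ} (hA : A.transpose * A = 1) {s : ℝ} (hs0 : 0 ≤ s)
    (hs1 : s < 1) : 0 < (1 - s • A).det := by
  obtain ⟨z, hz, -, hdet⟩ := trace_formula hA
  have hne : ∀ r : ℝ, 0 ≤ r → r < 1 → (1 - r • A).det ≠ 0 := by
    intro r hr0 hr1 h
    have h1 := hdet r
    rw [h, Complex.ofReal_zero] at h1
    obtain ⟨a, -, ha⟩ := Finset.prod_eq_zero_iff.1 h1.symm
    have h2 : (r : ℂ) * z a = 1 := (sub_eq_zero.1 ha).symm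
    have h3 := congrArg norm h2
    rw [norm_mul, hz, Complex.norm_real, Real.norm_of_nonneg hr0, mul_one, norm_one] at h3
    linarith
  by_contra hcon
  have hc : Continuous fun r : ℝ => (1 - r • A).det :=
    (continuous_const.sub (continuous_id.smul continuous_const)).matrix_det
  have h0 : (1 - (0 : ℝ) • A).det = 1 := by rw [zero_smul, sub_zero, Matrix.det_one]
  obtain ⟨r, hr, hr2⟩ := intermediate_value_Icc' hs0 hc.continuousOn
    (show (0 : ℝ) ∈ Set.Icc ((1 - s • A).det) ((1 - (0 : ℝ) • A).det) from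
      ⟨not_lt.1 hcon, by rw [h0]; norm_num⟩)
  exact hne r hr.1 (lt_of_le_of_lt hr.2 hs1) hr2

theorem exp_fen (ω : M → ℝ) (t : ℝ) (d : M × Fin n →₀ ℕ) :
    Real.exp (-(t * eN ω (mdeg d))) = d.prod fun s j => Real.exp (-(t * ω s.1)) ^ j := by
  rw [← fen_eq, Finsupp.prod_fintype _ _ (fun i => pow_zero _)]
  unfold fen
  rw [Finsupp.sum_fintype _ _ (fun i => by simp), Finset.mul_sum, ← Finset.sum_neg_distrib,
    Real.exp_sum]
  refine Finset.prod_congr rfl fun s _ => ?_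
  rw [← Real.exp_nat_mul]
  congr 1
  ring

/-- the generating function of the characters -/
theorem char_gen {ω : M → ℝ} (hω : ∀ l, 0 < ω l) {t : ℝ} (ht : 0 < t)
    {A : Matrix (Fin n) (Fin n) ℝ} (hA : A.transpose * A = 1) :
    HasSum (fun ν : M → ℕ => (Real.exp (-(t * eN ω ν)) : ℂ) *
      ∑ d ∈ Sν ν, coeff d (fact M A (monomial d 1)))
      ((∏ l, 1 / |(1 - Real.exp (-(t * ω l)) • A).det| : ℝ) : ℂ) := by
  obtain ⟨z, hz, htr, hdet⟩ := trace_formula hA
  have hr : ∀ l, Real.exp (-(t * ω l)) < 1 := by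
    intro l
    rw [Real.exp_lt_one_iff]
    have := mul_pos ht (hω l)
    linarith
  obtain ⟨x, hx⟩ : ∃ x : M × Fin n → ℂ, x = fun s => (Real.exp (-(t * ω s.1)) : ℂ) * z s.2 :=
    ⟨_, rfl⟩
  have hx1 : ∀ s, ‖x s‖ < 1 := by
    intro s
    rw [hx]
    simp only []
    rw [norm_mul, hz, mul_one, Complex.norm_real, Real.norm_of_nonneg (Real.exp_pos _).le]
    exact hr s.1
  obtain ⟨-, h2⟩ := gen x hx1
  have h3 := fib h2
  have e1 : (∏ s, (1 - x s)⁻¹) =
      ((∏ l, 1 / |(1 - Real.exp (-(t * ω l)) • A).det| : ℝ) : ℂ) := by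
    rw [Complex.ofReal_prod, Fintype.prod_prod_type]
    refine Finset.prod_congr rfl fun l _ => ?_
    rw [abs_of_pos (det_pos hA (Real.exp_pos _).le (hr l)), one_div, Complex.ofReal_inv, hdet,
      ← Finset.prod_inv_distrib]
    refine Finset.prod_congr rfl fun a _ => ?_
    rw [hx]
  rw [← e1]
  convert! h3 using 1
  funext ν
  have h4 := htr M (Sν ν) (clo_Sν ν)
  have e2 : ∑ d ∈ Sν ν, coeff d (fact M A (monomial d 1)) =
      ∑ d ∈ Sν ν, d.prod fun s j => z s.2 ^ j := h4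
  rw [e2, Finset.mul_sum]
  refine Finset.sum_congr rfl fun d hd => ?_
  have h5 : mdeg d = ν := mem_Sν.1 hd
  rw [← h5, exp_fen]
  simp only [Finsupp.prod, Complex.ofReal_prod, Complex.ofReal_pow]
  rw [← Finset.prod_mul_distrib]
  refine Finset.prod_congr rfl fun s _ => ?_
  rw [hx]
  simp only [mul_pow]

/-- the bound of the characters -/
theorem kap_bound {A : Matrix (Fin n) (Fin n) ℝ} (hA : A.transpose * A = 1) (ν : M → ℕ) :
    ‖∑ d ∈ Sν ν, coeff d (fact M A (monomial d 1))‖ ≤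
      (Sν ν : Finset (M × Fin n →₀ ℕ)).card := by
  obtain ⟨z, hz, htr, hdet⟩ := trace_formula hA
  have h4 := htr M (Sν ν) (clo_Sν ν)
  have e2 : ∑ d ∈ Sν ν, coeff d (fact M A (monomial d 1)) =
      ∑ d ∈ Sν ν, d.prod fun s j => z s.2 ^ j := h4
  rw [e2]
  refine (norm_sum_le _ _).trans ?_
  rw [Finset.card_eq_sum_ones]
  push_cast
  refine Finset.sum_le_sum fun d _ => ?_
  rw [Finsupp.prod, norm_prod]
  refine Finset.prod_le_one (fun _ _ => norm_nonneg _) fun s _ => ?_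
  rw [norm_pow, hz, one_pow]

theorem sum_card {ω : M → ℝ} (hω : ∀ l, 0 < ω l) {t : ℝ} (ht : 0 < t) :
    Summable fun ν : M → ℕ => Real.exp (-(t * eN ω ν)) *
      ((Sν ν : Finset (M × Fin n →₀ ℕ)).card : ℝ) := by
  have hr : ∀ l, Real.exp (-(t * ω l)) < 1 := by
    intro l
    rw [Real.exp_lt_one_iff]
    have := mul_pos ht (hω l)
    linarith
  obtain ⟨h1, -⟩ := gen (fun s : M × Fin n => (Real.exp (-(t * ω s.1)) : ℂ)) (fun s => by
    rw [Complex.norm_real, Real.norm_of_nonneg (Real.exp_pos _).le]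
    exact hr s.1)
  have h2 := (fib h1.hasSum).summable
  refine h2.congr fun ν => ?_
  rw [Finset.card_eq_sum_ones, Nat.cast_sum, Finset.mul_sum]
  refine Finset.sum_congr rfl fun d hd => ?_
  have h5 : mdeg d = ν := mem_Sν.1 hd
  rw [← h5, exp_fen, Nat.cast_one, mul_one, Finsupp.prod, Finsupp.prod, norm_prod]
  refine Finset.prod_congr rfl fun s _ => ?_
  rw [norm_pow, Complex.norm_real, Real.norm_of_nonneg (Real.exp_pos _).le]

theorem inv_sum {ω : M → ℝ} (hω : ∀ l, 0 < ω l) {t : ℝ} (ht : 0 < t)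
    (ρ : G → Matrix (Fin n) (Fin n) ℝ) (hρ : Continuous ρ)
    (hmul : ∀ g h, ρ (g * h) = ρ g * ρ h) (horth : ∀ g, (ρ g).transpose * ρ g = 1)
    (μ : Measure G) [IsProbabilityMeasure μ] [μ.IsMulLeftInvariant] :
    HasSum (fun ν : M → ℕ => (nν ρ ν : ℝ) * Real.exp (-(t * eN ω ν)))
      (∫ g, ∏ l, 1 / |(1 - Real.exp (-(t * ω l)) • ρ g).det| ∂μ) := by
  obtain ⟨F, hF⟩ : ∃ F : (M → ℕ) → G → ℂ, F = fun ν g => (Real.exp (-(t * eN ω ν)) : ℂ) *
      ∑ d ∈ Sν ν, coeff d (fact M (ρ g) (monomial d 1)) := ⟨_, rfl⟩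
  have hFi : ∀ ν, Integrable (F ν) μ := by
    intro ν
    rw [hF]
    exact (integrable_finsetSum _ fun d _ => kap_int μ ρ hρ d).const_mul _
  have hFn : ∀ ν g, ‖F ν g‖ ≤ Real.exp (-(t * eN ω ν)) *
      ((Sν ν : Finset (M × Fin n →₀ ℕ)).card : ℝ) := by
    intro ν g
    rw [hF]
    simp only []
    rw [norm_mul, Complex.norm_real, Real.norm_of_nonneg (Real.exp_pos _).le]
    exact mul_le_mul_of_nonneg_left (kap_bound (horth g) ν) (Real.exp_pos _).le
  have hsum : Summable fun ν => ∫ g, ‖F ν g‖ ∂μ := by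
    refine Summable.of_nonneg_of_le (fun ν => integral_nonneg fun g => norm_nonneg _) (fun ν => ?_)
      (sum_card (n := n) hω ht)
    have h1 := integral_mono (hFi ν).norm (integrable_const (μ := μ) _) (hFn ν)
    rwa [integral_const, probReal_univ, one_smul] at h1
  have h1 := hasSum_integral_of_summable_integral_norm hFi hsum
  have e1 : (∫ g, (∑' ν, F ν g) ∂μ) =
      ((∫ g, ∏ l, 1 / |(1 - Real.exp (-(t * ω l)) • ρ g).det| ∂μ : ℝ) : ℂ) := by
    rw [← integral_complex_ofReal]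
    refine integral_congr_ae (Filter.Eventually.of_forall fun g => ?_)
    simp only []
    rw [hF]
    exact (char_gen hω ht (horth g)).tsum_eq
  rw [e1] at h1
  have e2 : ∀ ν, ∫ g, F ν g ∂μ = (((nν ρ ν : ℝ) * Real.exp (-(t * eN ω ν)) : ℝ) : ℂ) := by
    intro ν
    rw [hF]
    simp only []
    rw [integral_const_mul, ← nν_eq μ ρ hρ hmul]
    push_cast
    ring
  simp only [e2] at h1
  exact_mod_cast h1

theorem fock (ω : M → ℝ) (hω : ∀ l, 0 < ω l) (l0 : M) (hn : 0 < n)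
    (ρ : G → Matrix (Fin n) (Fin n) ℝ) (hρ : Continuous ρ) (hmul : ∀ g h, ρ (g * h) = ρ g * ρ h)
    (hone : ρ 1 = 1) (horth : ∀ g, (ρ g).transpose * ρ g = 1)
    (μ : Measure G) [IsProbabilityMeasure μ] [μ.IsMulLeftInvariant] :
    Monotone (flev ω ρ) ∧ flev ω ρ 0 = 0 ∧ (∀ k, flev ω ρ k ≤ 2 * k * ω l0) ∧
    ∀ t : ℝ, 0 < t → HasSum (fun k => Real.exp (-(t * flev ω ρ k)))
      (∫ g, ∏ l, 1 / |(1 - Real.exp (-(t * ω l)) • ρ g).det| ∂μ) := by
  have hN : ∀ E, NN ω ρ E = ∑ ν ∈ V hω E, nν ρ ν := N_eq μ hω ρ hρ hmul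
  have hiff := flev_le_iff hN hn l0 horth
  have hup : ∀ k, flev ω ρ k ≤ 2 * k * ω l0 := fun k => (hiff k _).2 (NN_lower hN hn l0 horth k)
  refine ⟨fun j k hjk => ?_, le_antisymm ?_ ?_, hup, fun t ht => ?_⟩
  · have h1 := (hiff k _).1 le_rfl
    exact (hiff j _).2 (by omega)
  · have := hup 0
    simpa using this
  · have h1 := (hiff 0 _).1 le_rfl
    exact NN_neg hN (by omega)
  · have hZ := inv_sum hω ht ρ hρ hmul horth μ
    obtain ⟨Z, hZd⟩ : ∃ Z, Z = ∫ g, ∏ l, 1 / |(1 - Real.exp (-(t * ω l)) • ρ g).det| ∂μ := ⟨_, rfl⟩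
    rw [← hZd] at hZ ⊢
    have h1 := layer_eq t ht (flev ω ρ) (fun _ => (1 : ENNReal)) (eN ω)
      (fun ν => (nν ρ ν : ENNReal)) (fun u => by
        have e1 : ∑' k : ℕ, (if flev ω ρ k ≤ u then (1 : ENNReal) else 0) = (NN ω ρ u : ENNReal) := by
          rw [tsum_eq_sum (s := Finset.range (NN ω ρ u))]
          · rw [Finset.sum_congr rfl (fun k hk => if_pos ((hiff k u).2
              (Finset.mem_range.1 hk)))]
            simp
          · intro k hk
            rw [if_neg]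
            intro h
            exact hk (Finset.mem_range.2 ((hiff k u).1 h))
        have e2 : ∑' ν : M → ℕ, (if eN ω ν ≤ u then (nν ρ ν : ENNReal) else 0) =
            (NN ω ρ u : ENNReal) := by
          rw [tsum_eq_sum (s := V hω u)]
          · rw [Finset.sum_congr rfl (fun ν hν => if_pos (mem_V.1 hν)), hN]
            push_cast
            rfl
          · intro ν hν
            rw [if_neg]
            intro h
            exact hν (mem_V.2 h)
        rw [e1, e2])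
    simp only [one_mul] at h1
    have h2 : ∑' ν : M → ℕ, (nν ρ ν : ENNReal) * ENNReal.ofReal (Real.exp (-(t * eN ω ν))) =
        ENNReal.ofReal Z := by
      rw [← hZ.tsum_eq, ENNReal.ofReal_tsum_of_nonneg (fun ν => by positivity) hZ.summable]
      refine tsum_congr fun ν => ?_
      rw [ENNReal.ofReal_mul (Nat.cast_nonneg _), ENNReal.ofReal_natCast]
    rw [h2] at h1
    have h3 : Summable fun k => Real.exp (-(t * flev ω ρ k)) := by
      have h4 := ENNReal.summable_toReal (f := fun k => ENNReal.ofReal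
        (Real.exp (-(t * flev ω ρ k)))) (by rw [h1]; exact ENNReal.ofReal_ne_top)
      refine h4.congr fun k => ?_
      exact ENNReal.toReal_ofReal (Real.exp_pos _).le
    have hZ0 : 0 ≤ Z := by
      rw [← hZ.tsum_eq]
      exact tsum_nonneg fun ν => by positivity
    have h5 : ∑' k, Real.exp (-(t * flev ω ρ k)) = Z := by
      rw [← ENNReal.ofReal_tsum_of_nonneg (fun k => (Real.exp_pos _).le) h3] at h1
      exact (ENNReal.ofReal_eq_ofReal_iff (tsum_nonneg fun k => (Real.exp_pos _).le) hZ0).1 h1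
    rw [← h5]
    exact h3.hasSum

end Pool.Agent.T2H02.Lev
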