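import Mathlib

/-!
# Elementary symmetric functions from power sums
-/

namespace Pool.Agent.T2H02.Lev

open Finset

/-- Newton's recursion -/
noncomputable def newt (P : ℕ → ℝ) : ℕ → ℝ
  | 0 => 1
  | (k + 1) => (∑ a : Fin (k + 1), (-1 : ℝ) ^ (k - (a : ℕ)) * newt P a * P (k + 1 - a)) / (k + 1)

theorem newt_zero (P : ℕ → ℝ) : newt P 0 = 1 := by rw [newt]

theorem newt_succ (P : ℕ → ℝ) (k : ℕ) : newt P (k + 1) =
    (∑ a ∈ range (k + 1), (-1 : ℝ) ^ (k - a) * newt P a * P (k + 1 - a)) / (k + 1) := by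
  rw [newt, Fin.sum_univ_eq_sum_range (fun a => (-1 : ℝ) ^ (k - a) * newt P a * P (k + 1 - a))]

theorem newt_bound {P : ℕ → ℝ} {b : ℝ} (hb : 1 ≤ b) (K : ℕ) (h : ∀ j, 1 ≤ j → j ≤ K → |P j| ≤ b) :
    ∀ k ≤ K, |newt P k| ≤ b ^ k := by
  intro k
  induction k using Nat.strong_induction_on with
  | _ k ih =>
    intro hk
    rcases k with _ | k
    · rw [newt_zero]; simp
    · have hk1 : (0 : ℝ) < (k : ℝ) + 1 := by positivity
      rw [newt_succ, abs_div, abs_of_pos hk1, div_le_iff₀ hk1]
      refine (abs_sum_le_sum_abs _ _).trans ?_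
      have h1 : ∀ a ∈ range (k + 1), |(-1 : ℝ) ^ (k - a) * newt P a * P (k + 1 - a)| ≤ b ^ (k + 1) := by
        intro a ha
        have ha' := mem_range.1 ha
        rw [abs_mul, abs_mul, abs_pow, abs_neg, abs_one, one_pow, one_mul]
        have h2 := ih a (by omega) (by omega)
        have h3 := h (k + 1 - a) (by omega) (by omega)
        calc |newt P a| * |P (k + 1 - a)| ≤ b ^ a * b :=
              mul_le_mul h2 h3 (abs_nonneg _) (by positivity)
          _ = b ^ (a + 1) := by rw [pow_succ]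
          _ ≤ b ^ (k + 1) := pow_le_pow_right₀ hb (by omega)
      refine (sum_le_sum h1).trans (le_of_eq ?_)
      rw [sum_const, card_range, nsmul_eq_mul]
      push_cast
      ring

theorem newt_diff {P Q : ℕ → ℝ} {b ε : ℝ} (hb : 1 ≤ b) (hε : 0 ≤ ε) (K : ℕ)
    (hP : ∀ j, 1 ≤ j → j ≤ K → |P j| ≤ b) (hQ : ∀ j, 1 ≤ j → j ≤ K → |Q j| ≤ b)
    (hd : ∀ j, 1 ≤ j → j ≤ K → |P j - Q j| ≤ ε) :
    ∀ k ≤ K, |newt P k - newt Q k| ≤ k * b ^ k * ε := by
  intro k
  induction k using Nat.strong_induction_on with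
  | _ k ih =>
    intro hk
    rcases k with _ | k
    · rw [newt_zero, newt_zero]; simp
    · have hk1 : (0 : ℝ) < (k : ℝ) + 1 := by positivity
      rw [newt_succ, newt_succ, ← sub_div, abs_div, abs_of_pos hk1, div_le_iff₀ hk1,
        ← sum_sub_distrib]
      refine (abs_sum_le_sum_abs _ _).trans ?_
      have h1 : ∀ a ∈ range (k + 1), |(-1 : ℝ) ^ (k - a) * newt P a * P (k + 1 - a) -
          (-1 : ℝ) ^ (k - a) * newt Q a * Q (k + 1 - a)| ≤ (k + 1) * b ^ (k + 1) * ε := by
        intro a ha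
        have ha' := mem_range.1 ha
        have e : (-1 : ℝ) ^ (k - a) * newt P a * P (k + 1 - a) -
          (-1 : ℝ) ^ (k - a) * newt Q a * Q (k + 1 - a) = (-1 : ℝ) ^ (k - a) *
            ((newt P a - newt Q a) * P (k + 1 - a) + newt Q a * (P (k + 1 - a) - Q (k + 1 - a))) := by
          ring
        rw [e, abs_mul, abs_pow, abs_neg, abs_one, one_pow, one_mul]
        refine (abs_add_le _ _).trans ?_
        rw [abs_mul, abs_mul]
        have h2 := ih a (by omega) (by omega)
        have h3 := hP (k + 1 - a) (by omega) (by omega)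
        have h4 := newt_bound hb K hQ a (by omega)
        have h5 := hd (k + 1 - a) (by omega) (by omega)
        have hba : b ^ a ≤ b ^ (k + 1) := pow_le_pow_right₀ hb (by omega)
        have hba1 : b ^ a * b ≤ b ^ (k + 1) := by
          rw [← pow_succ]; exact pow_le_pow_right₀ hb (by omega)
        have hak : (a : ℝ) ≤ k := by exact_mod_cast (by omega : a ≤ k)
        have c1 : |newt P a - newt Q a| * |P (k + 1 - a)| ≤ (a * b ^ a * ε) * b :=
          mul_le_mul h2 h3 (abs_nonneg _) (by positivity)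
        have c2 : |newt Q a| * |P (k + 1 - a) - Q (k + 1 - a)| ≤ b ^ a * ε :=
          mul_le_mul h4 h5 (abs_nonneg _) (by positivity)
        have c3 : (a * b ^ a * ε) * b ≤ k * b ^ (k + 1) * ε := by
          have : (a * b ^ a * ε) * b = a * (b ^ a * b) * ε := by ring
          rw [this]
          exact mul_le_mul_of_nonneg_right (mul_le_mul hak hba1 (by positivity) (by positivity)) hε
        have c4 : b ^ a * ε ≤ b ^ (k + 1) * ε := mul_le_mul_of_nonneg_right hba hε
        linarith
      refine (sum_le_sum h1).trans (le_of_eq ?_)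
      rw [sum_const, card_range, nsmul_eq_mul]
      push_cast
      ring

theorem newt_tendsto {P : ℕ → ℕ → ℝ} {Q : ℕ → ℝ}
    (h : ∀ j, 1 ≤ j → Filter.Tendsto (fun N => P N j) Filter.atTop (nhds (Q j))) (k : ℕ) :
    Filter.Tendsto (fun N => newt (P N) k) Filter.atTop (nhds (newt Q k)) := by
  induction k using Nat.strong_induction_on with
  | _ k ih =>
    rcases k with _ | k
    · simp only [newt_zero]; exact tendsto_const_nhds
    · simp only [newt_succ]
      refine Filter.Tendsto.div_const (tendsto_finset_sum _ fun a ha => ?_) _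
      have ha' := mem_range.1 ha
      exact ((ih a (by omega)).const_mul _).mul (h _ (by omega))

/-- the elementary symmetric function -/
noncomputable def es {N : ℕ} (f : Fin N → ℝ) (k : ℕ) : ℝ :=
  ∑ t ∈ powersetCard k (univ : Finset (Fin N)), ∏ i ∈ t, f i

/-- Newton's identities -/
theorem es_newt {N : ℕ} (f : Fin N → ℝ) (k : ℕ) : es f k = newt (fun j => ∑ i, f i ^ j) k := by
  induction k using Nat.strong_induction_on with
  | _ k ih =>
    rcases k with _ | k
    · rw [newt_zero]
      unfold es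
      simp
    · have h := MvPolynomial.mul_esymm_eq_sum (Fin N) ℝ (k + 1)
      have h1 := congrArg (MvPolynomial.aeval f) h
      have he : ∀ j, MvPolynomial.aeval f (MvPolynomial.esymm (Fin N) ℝ j) = es f j := by
        intro j
        unfold es MvPolynomial.esymm
        simp [map_sum, map_prod]
      have hp : ∀ j, MvPolynomial.aeval f (MvPolynomial.psum (Fin N) ℝ j) = ∑ i, f i ^ j := by
        intro j
        unfold MvPolynomial.psum
        simp [map_sum]
      rw [map_mul, map_mul, map_sum, he] at h1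
      simp only [map_mul, he, hp, map_pow, map_neg, map_one, map_natCast] at h1
      rw [newt_succ, eq_div_iff (by positivity)]
      have h2 : (∑ a ∈ antidiagonal (k + 1) with a.1 < k + 1,
          (-1 : ℝ) ^ a.1 * es f a.1 * ∑ i, f i ^ a.2) =
          ∑ a ∈ range (k + 1), (-1 : ℝ) ^ a * es f a * ∑ i, f i ^ (k + 1 - a) := by
        rw [sum_filter, Nat.sum_antidiagonal_eq_sum_range_succ_mk, sum_range_succ]
        simp only [lt_self_iff_false, if_false, add_zero]
        refine sum_congr rfl fun a ha => ?_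
        have ha' := mem_range.1 ha
        simp [ha']
      rw [h2] at h1
      push_cast at h1
      rw [mul_comm, h1, mul_sum]
      refine sum_congr rfl fun a ha => ?_
      have ha' := mem_range.1 ha
      rw [ih a (by omega)]
      have hs : (-1 : ℝ) ^ (k + 1 + 1) * (-1) ^ a = (-1) ^ (k - a) := by
        obtain ⟨c, rfl⟩ : ∃ c, k = a + c := ⟨k - a, by omega⟩
        rw [Nat.add_sub_cancel_left, ← pow_add]
        have : a + c + 1 + 1 + a = c + 2 * (a + 1) := by ring
        rw [this, pow_add, pow_mul]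
        simp
      rw [← hs]
      ring

/-! ### Products of the largest values -/

theorem prod_le_range {x : ℕ → ℝ} (hx : Antitone x) (h0 : ∀ i, 0 ≤ x i) (k : ℕ) (S : Finset ℕ)
    (hS : S.card = k) : ∏ i ∈ S, x i ≤ ∏ i ∈ range k, x i := by
  induction k generalizing S with
  | zero =>
    rw [card_eq_zero] at hS
    subst hS
    simp
  | succ k ih =>
    have hne : S.Nonempty := card_pos.1 (by omega)
    set s := S.max' hne with hs
    have hsS : s ∈ S := S.max'_mem hne
    have hsk : k ≤ s := by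
      have h1 : S ⊆ range (s + 1) := fun i hi => by
        rw [mem_range]
        have := S.le_max' i hi
        omega
      have h2 := card_le_card h1
      rw [hS, card_range] at h2
      omega
    rw [← mul_prod_erase S x hsS, prod_range_succ, mul_comm]
    have h3 : (S.erase s).card = k := by rw [card_erase_of_mem hsS, hS]; rfl
    exact mul_le_mul (ih _ h3) (hx hsk) (h0 _) (prod_nonneg fun i _ => h0 i)

theorem es_lower {x : ℕ → ℝ} (h0 : ∀ i, 0 ≤ x i) (k m N : ℕ) (hN : k ≤ N) :
    (∏ i ∈ range k, x i) ^ m ≤ es (fun i : Fin N => x i ^ m) k := by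
  unfold es
  set t0 : Finset (Fin N) := univ.filter (fun i : Fin N => (i : ℕ) < k) with ht0
  have hmap : t0.map Fin.valEmbedding = range k := by
    ext i
    rw [mem_map, mem_range]
    constructor
    · rintro ⟨j, hj, rfl⟩
      exact (mem_filter.1 hj).2
    · intro hi
      exact ⟨⟨i, by omega⟩, mem_filter.2 ⟨mem_univ _, hi⟩, rfl⟩
  have hcard : t0.card = k := by
    rw [← card_map Fin.valEmbedding, hmap, card_range]
  have hmem : t0 ∈ powersetCard k (univ : Finset (Fin N)) :=
    mem_powersetCard.2 ⟨subset_univ _, hcard⟩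
  have h1 : ∏ i ∈ t0, (fun i : Fin N => x i ^ m) i = (∏ i ∈ range k, x i) ^ m := by
    rw [← hmap, prod_map, ← prod_pow]
    rfl
  rw [← h1]
  exact single_le_sum (f := fun t => ∏ i ∈ t, (fun i : Fin N => x i ^ m) i)
    (fun t _ => prod_nonneg fun i _ => pow_nonneg (h0 _) _) hmem

theorem es_upper {x : ℕ → ℝ} (hx : Antitone x) (h0 : ∀ i, 0 ≤ x i) (k m a N : ℕ) (ham : a ≤ m) :
    es (fun i : Fin N => x i ^ m) k ≤ (∏ i ∈ range k, x i) ^ (m - a) *
      es (fun i : Fin N => x i ^ a) k := by
  unfold es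
  rw [mul_sum]
  refine sum_le_sum fun t ht => ?_
  have hc := (mem_powersetCard.1 ht).2
  have h1 : ∏ i ∈ t, x (i : ℕ) = ∏ i ∈ t.map Fin.valEmbedding, x i := by
    rw [prod_map]
    rfl
  have h2 : ∏ i ∈ t, x (i : ℕ) ≤ ∏ i ∈ range k, x i := by
    rw [h1]
    exact prod_le_range hx h0 k _ (by rw [card_map, hc])
  have h3 : ∏ i ∈ t, x (i : ℕ) ^ m = (∏ i ∈ t, x (i : ℕ)) ^ (m - a) * ∏ i ∈ t, x (i : ℕ) ^ a := by
    rw [prod_pow, prod_pow, ← pow_add]
    congr 1
    omega
  rw [h3]
  exact mul_le_mul_of_nonneg_right (pow_le_pow_left₀ (prod_nonneg fun i _ => h0 _) h2 _)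
    (prod_nonneg fun i _ => pow_nonneg (h0 _) _)

/-- **The squeeze.** -/
theorem squeeze {x : ℕ → ℝ} (hx : Antitone x) (h0 : ∀ i, 0 ≤ x i) {p : ℕ → ℝ} {a m : ℕ}
    (ha : 1 ≤ a) (ham : a ≤ m) (hp : ∀ j, 1 ≤ j → HasSum (fun i => x i ^ (j * m)) (p (j * m)))
    (hpa : ∀ j, 1 ≤ j → HasSum (fun i => x i ^ (j * a)) (p (j * a))) (k : ℕ) :
    (∏ i ∈ range k, x i) ^ m ≤ newt (fun j => p (j * m)) k ∧
      newt (fun j => p (j * m)) k ≤ (∏ i ∈ range k, x i) ^ (m - a) * newt (fun j => p (j * a)) k := by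
  have hlim : ∀ b : ℕ, (∀ j, 1 ≤ j → HasSum (fun i => x i ^ (j * b)) (p (j * b))) →
      Filter.Tendsto (fun N => es (fun i : Fin N => x i ^ b) k) Filter.atTop
        (nhds (newt (fun j => p (j * b)) k)) := by
    intro b hb
    simp only [es_newt]
    refine newt_tendsto (fun j hj => ?_) k
    have h1 := (hb j hj).tendsto_sum_nat
    refine h1.congr fun N => ?_
    rw [← Fin.sum_univ_eq_sum_range (fun i => x i ^ (j * b))]
    refine sum_congr rfl fun i _ => ?_
    rw [mul_comm, pow_mul]
  have l1 := hlim m hp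
  have l2 := hlim a hpa
  constructor
  · refine ge_of_tendsto l1 ?_
    filter_upwards [Filter.eventually_ge_atTop k] with N hN
    exact es_lower h0 k m N hN
  · exact le_of_tendsto_of_tendsto' l1 (l2.const_mul _) fun N => es_upper hx h0 k m a N ham

end Pool.Agent.T2H02.Lev
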