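import Mathlib
import Pool.Agent.T2H02.Lev.NumA

/-!
# All levels from the power sums (package B)
-/

namespace Pool.Agent.T2H02.Lev

open Finset

/-- the product of the first `K` values -/
theorem lev_core (K A : ℕ) (B : ℝ) (hB : 1 ≤ B) (Λ : ℝ) (hΛ : 1 ≤ Λ) :
    ∃ l0 C : ℝ, 1 ≤ l0 ∧ 0 ≤ C ∧ ∀ L : ℕ, 2 ≤ L → ∀ l : ℝ, l0 ≤ l → ∀ x y p q : ℕ → ℝ,
      Antitone x → Antitone y → (∀ i, 0 ≤ x i) → (∀ i, 0 ≤ y i) → y 0 ≤ 1 →
      (∀ m, 2 ≤ m → HasSum (fun i => x i ^ m) (p m)) →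
      (∀ m, 2 ≤ m → HasSum (fun i => y i ^ m) (q m)) →
      (∀ i < K, Real.exp (-(Λ / L)) ≤ y i) → q (A * L) ≤ B → 1 ≤ A →
      (∀ m : ℕ, A * L ≤ m → (m : ℝ) ≤ 2 * l * L →
        (1 - Real.exp (-l)) * q m ≤ p m ∧ p m ≤ (1 + Real.exp (-l)) * q m) →
      0 < ∏ i ∈ range K, x i ∧
        |Real.log (∏ i ∈ range K, x i) - Real.log (∏ i ∈ range K, y i)| ≤ C / (L * l) := by
  obtain ⟨c1, hc1⟩ : ∃ c1 : ℝ, c1 = K * (2 * B) ^ K * B := ⟨_, rfl⟩
  obtain ⟨c2, hc2⟩ : ∃ c2 : ℝ, c2 = 2 * (2 * B) ^ K := ⟨_, rfl⟩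
  obtain ⟨c3, hc3⟩ : ∃ c3 : ℝ, c3 = Real.log c2 + A * K * Λ := ⟨_, rfl⟩
  obtain ⟨κ, hκ⟩ : ∃ κ : ℝ, κ = 1 / (2 * (K + 1) * Λ) := ⟨_, rfl⟩
  have hΛ0 : 0 < Λ := by linarith
  have hB2 : 1 ≤ 2 * B := by linarith
  have hc1' : 0 ≤ c1 := by rw [hc1]; positivity
  have hc2' : 1 ≤ c2 := by
    rw [hc2]
    have := one_le_pow₀ hB2 (n := K)
    linarith
  have hc3' : 0 ≤ c3 := by
    rw [hc3]
    have := Real.log_nonneg hc2'
    positivity
  have hκ0 : 0 < κ := by rw [hκ]; positivity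
  have hκ1 : κ * (2 * (K + 1) * Λ) = 1 := by
    rw [hκ]; field_simp
  refine ⟨1 + 4 * c1 + K * A + 2 * (2 + A) / κ, 2 * c3 / κ, ?_, by positivity, ?_⟩
  · have : 0 ≤ (K : ℝ) * A := by positivity
    have : 0 ≤ 2 * (2 + (A : ℝ)) / κ := by positivity
    linarith
  intro L hL l hl x y p q hx hy hx0 hy0 hy1 hp hq hyK hqB hA hclose
  have hL0 : (0 : ℝ) < L := by exact_mod_cast (by omega : 0 < L)
  have hL1 : (1 : ℝ) ≤ L := by exact_mod_cast (by omega : 1 ≤ L)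
  have hKA : 0 ≤ (K : ℝ) * A := by positivity
  have hAκ : 0 ≤ 2 * (2 + (A : ℝ)) / κ := by positivity
  have hl1 : 1 ≤ l := by linarith
  have hl2 : 4 * c1 ≤ l := by linarith
  have hl3 : (K : ℝ) * A ≤ l := by linarith
  have hl4 : 2 * (2 + (A : ℝ)) / κ ≤ l := by linarith
  have hl0 : 0 < l := by linarith
  obtain ⟨a, ha⟩ : ∃ a : ℕ, a = A * L := ⟨_, rfl⟩
  have ha1 : 2 ≤ a := by rw [ha]; nlinarith
  have haR : (a : ℝ) = A * L := by rw [ha]; push_cast; ring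
  obtain ⟨M, hM⟩ : ∃ M : ℕ, M = ⌊κ * L * l⌋₊ := ⟨_, rfl⟩
  have hM1 : (M : ℝ) ≤ κ * L * l := by rw [hM]; exact Nat.floor_le (by positivity)
  have hM2 : κ * L * l < M + 1 := by rw [hM]; exact Nat.lt_floor_add_one _
  -- `M - a` is large
  have hMa : κ * L * l / 2 ≤ (M : ℝ) - a := by
    have h1 : 2 * (2 + (A : ℝ)) ≤ κ * l := by
      rw [div_le_iff₀ hκ0] at hl4
      linarith
    have h2 : (2 + (A : ℝ)) * L ≤ κ * L * l / 2 := by nlinarith
    rw [haR]
    nlinarith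
  have hMa' : (1 : ℝ) ≤ (M : ℝ) - a := by
    have h1 : 2 * (2 + (A : ℝ)) ≤ κ * l := by
      rw [div_le_iff₀ hκ0] at hl4
      linarith
    have hA0 : (0 : ℝ) ≤ A := by positivity
    have h2 : (2 + (A : ℝ)) * L ≤ κ * L * l / 2 := by nlinarith
    have h3 : 0 ≤ (A : ℝ) * L := by positivity
    nlinarith
  have hMa2 : a + 1 ≤ M := by
    have : ((a + 1 : ℕ) : ℝ) ≤ M := by push_cast; linarith
    exact_mod_cast this
  -- the power sums are bounded
  have hy1' : ∀ i, y i ≤ 1 := fun i => (hy (Nat.zero_le i)).trans hy1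
  have hqm : ∀ m, a ≤ m → q m ≤ B := by
    intro m hm
    refine le_trans ?_ (ha ▸ hqB)
    refine hasSum_le (fun i => ?_) (hq m (by omega)) (hq a ha1)
    exact pow_le_pow_of_le_one (hy0 i) (hy1' i) hm
  have hq0 : ∀ m, 2 ≤ m → 0 ≤ q m := fun m hm =>
    (hq m hm).nonneg fun i => pow_nonneg (hy0 i) _
  have hp0 : ∀ m, 2 ≤ m → 0 ≤ p m := fun m hm =>
    (hp m hm).nonneg fun i => pow_nonneg (hx0 i) _
  have hexp1 : Real.exp (-l) ≤ 1 := Real.exp_le_one_iff.2 (by linarith)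
  have hexp0 : 0 < Real.exp (-l) := Real.exp_pos _
  have hpm : ∀ m : ℕ, a ≤ m → (m : ℝ) ≤ 2 * l * L → p m ≤ 2 * B := by
    intro m hm hm2
    have h1 := (hclose m (by rw [← ha]; exact hm) hm2).2
    have h2 := hqm m hm
    have h3 := hq0 m (by omega)
    have h4 : Real.exp (-l) * q m ≤ 1 * q m := mul_le_mul_of_nonneg_right hexp1 h3
    nlinarith
  -- sizes of the indices
  have hjM : ∀ j, 1 ≤ j → j ≤ K → a ≤ j * M ∧ ((j * M : ℕ) : ℝ) ≤ 2 * l * L := by
    intro j hj hjK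
    refine ⟨by nlinarith, ?_⟩
    push_cast
    have h1 : (j : ℝ) ≤ K := by exact_mod_cast hjK
    have h2 : (j : ℝ) * M ≤ K * (κ * L * l) := mul_le_mul h1 hM1 (by positivity) (by positivity)
    have h3 : K * (κ * L * l) ≤ (κ * (2 * (K + 1) * Λ)) * (L * l) := by
      have h4 : (K : ℝ) * κ ≤ κ * (2 * (K + 1) * Λ) := by
        have : (K : ℝ) ≤ 2 * (K + 1) * Λ := by nlinarith [(by positivity : (0 : ℝ) ≤ (K : ℝ))]
        nlinarith
      have : 0 ≤ (L : ℝ) * l := by positivity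
      nlinarith
    rw [hκ1] at h3
    nlinarith [(by positivity : (0 : ℝ) ≤ (L : ℝ) * l)]
  have hja : ∀ j, 1 ≤ j → j ≤ K → a ≤ j * a ∧ ((j * a : ℕ) : ℝ) ≤ 2 * l * L := by
    intro j hj hjK
    refine ⟨Nat.le_mul_of_pos_left _ hj, ?_⟩
    push_cast
    rw [haR]
    have h1 : (j : ℝ) ≤ K := by exact_mod_cast hjK
    have h2 : (j : ℝ) * (A * L) ≤ K * (A * L) := mul_le_mul_of_nonneg_right h1 (by positivity)
    nlinarith
  -- the values of the Newton functions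
  obtain ⟨NP, hNP⟩ : ∃ NP, NP = newt (fun j => p (j * M)) K := ⟨_, rfl⟩
  obtain ⟨NQ, hNQ⟩ : ∃ NQ, NQ = newt (fun j => q (j * M)) K := ⟨_, rfl⟩
  obtain ⟨X, hX⟩ : ∃ X, X = ∏ i ∈ range K, x i := ⟨_, rfl⟩
  obtain ⟨Y, hY⟩ : ∃ Y, Y = ∏ i ∈ range K, y i := ⟨_, rfl⟩
  have hX0 : 0 ≤ X := by rw [hX]; exact prod_nonneg fun i _ => hx0 i
  have hx2 : ∀ b : ℕ, 2 ≤ b → ∀ j, 1 ≤ j → HasSum (fun i => x i ^ (j * b)) (p (j * b)) :=
    fun b hb j hj => hp _ (hb.trans (Nat.le_mul_of_pos_left _ hj))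
  have hy2 : ∀ b : ℕ, 2 ≤ b → ∀ j, 1 ≤ j → HasSum (fun i => y i ^ (j * b)) (q (j * b)) :=
    fun b hb j hj => hq _ (hb.trans (Nat.le_mul_of_pos_left _ hj))
  obtain ⟨sx1, sx2⟩ := squeeze hx hx0 (a := a) (m := M) (by omega) (by omega) (hx2 M (by omega))
    (hx2 a ha1) K
  obtain ⟨sy1, sy2⟩ := squeeze hy hy0 (a := a) (m := M) (by omega) (by omega) (hy2 M (by omega))
    (hy2 a ha1) K
  rw [← hX, ← hNP] at sx1 sx2
  rw [← hY, ← hNQ] at sy1 sy2
  have habsP : ∀ m : ℕ, a ≤ m → (m : ℝ) ≤ 2 * l * L → |p m| ≤ 2 * B := fun m h1 h2 => by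
    rw [abs_of_nonneg (hp0 m (by omega))]; exact hpm m h1 h2
  have habsQ : ∀ m : ℕ, a ≤ m → |q m| ≤ 2 * B := fun m h1 => by
    rw [abs_of_nonneg (hq0 m (by omega))]
    have := hqm m h1
    linarith
  have bP : newt (fun j => p (j * a)) K ≤ (2 * B) ^ K := (le_abs_self _).trans
    (newt_bound hB2 K (fun j h1 h2 => habsP _ (hja j h1 h2).1 (hja j h1 h2).2) K le_rfl)
  have bQ : newt (fun j => q (j * a)) K ≤ (2 * B) ^ K := (le_abs_self _).trans
    (newt_bound hB2 K (fun j h1 h2 => habsQ _ (hja j h1 h2).1) K le_rfl)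
  have hdiff : |NP - NQ| ≤ K * (2 * B) ^ K * (Real.exp (-l) * B) := by
    rw [hNP, hNQ]
    refine newt_diff hB2 (by positivity) K
      (fun j h1 h2 => habsP _ (hjM j h1 h2).1 (hjM j h1 h2).2)
      (fun j h1 h2 => habsQ _ (hjM j h1 h2).1) (fun j h1 h2 => ?_) K le_rfl
    obtain ⟨h3, h4⟩ := hjM j h1 h2
    obtain ⟨h5, h6⟩ := hclose (j * M) (by rw [← ha]; exact h3) h4
    have h7 := hqm (j * M) h3
    have h8 : Real.exp (-l) * q (j * M) ≤ Real.exp (-l) * B := mul_le_mul_of_nonneg_left h7 hexp0.le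
    rw [abs_le]
    constructor <;> nlinarith
  -- lower bound of `Y`
  have hYlow : Real.exp (-(K * Λ / L)) ≤ Y := by
    rw [hY]
    have h1 : ∏ i ∈ range K, Real.exp (-(Λ / L)) ≤ ∏ i ∈ range K, y i :=
      prod_le_prod (fun i _ => (Real.exp_pos _).le) fun i hi => hyK i (mem_range.1 hi)
    rw [prod_const, card_range, ← Real.exp_nat_mul] at h1
    refine le_trans (le_of_eq ?_) h1
    congr 1
    ring
  have hY0 : 0 < Y := (Real.exp_pos _).trans_le hYlow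
  have hYM : Real.exp (-(l / 2)) ≤ Y ^ M := by
    have h1 : Real.exp (-(K * Λ / L)) ^ M ≤ Y ^ M := pow_le_pow_left₀ (Real.exp_pos _).le hYlow _
    refine le_trans ?_ h1
    rw [← Real.exp_nat_mul]
    refine Real.exp_le_exp.2 ?_
    have h2 : (M : ℝ) * (K * Λ / L) ≤ l / 2 := by
      have h3 : (M : ℝ) * (K * Λ / L) ≤ (κ * L * l) * (K * Λ / L) :=
        mul_le_mul_of_nonneg_right hM1 (by positivity)
      have h4 : (κ * L * l) * (K * Λ / L) = κ * (K * Λ) * l := by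
        field_simp
      have h5 : κ * (K * Λ) ≤ 1 / 2 := by
        have : κ * (K * Λ) ≤ κ * ((K + 1) * Λ) :=
          mul_le_mul_of_nonneg_left (mul_le_mul_of_nonneg_right (by linarith) hΛ0.le) hκ0.le
        nlinarith
      rw [h4] at h3
      nlinarith
    linarith
  -- comparison
  have hsmall : K * (2 * B) ^ K * (Real.exp (-l) * B) ≤ 1 / 2 * NQ := by
    have h1 : K * (2 * B) ^ K * (Real.exp (-l) * B) = c1 * Real.exp (-l) := by rw [hc1]; ring
    rw [h1]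
    have h2 : Real.exp (-l) = Real.exp (-(l / 2)) * Real.exp (-(l / 2)) := by
      rw [← Real.exp_add]; congr 1; ring
    have h3 : c1 * Real.exp (-(l / 2)) ≤ 1 / 2 := by
      have h4 : l / 2 ≤ Real.exp (l / 2) := by
        have := Real.add_one_le_exp (l / 2)
        linarith
      rw [Real.exp_neg, ← div_eq_mul_inv, div_le_iff₀ (Real.exp_pos _)]
      linarith
    have h5 : Real.exp (-(l / 2)) ≤ NQ := hYM.trans sy1
    rw [h2, ← mul_assoc]
    exact mul_le_mul h3 h5 (Real.exp_pos _).le (by norm_num)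
  have hd := (abs_le.1 (hdiff.trans hsmall))
  have hNQ0 : 0 < NQ := (Real.exp_pos _).trans_le (hYM.trans sy1)
  have hYMa : 0 ≤ Y ^ (M - a) := pow_nonneg hY0.le _
  have hXMa : 0 ≤ X ^ (M - a) := pow_nonneg hX0 _
  have k1 : X ^ M ≤ c2 * Y ^ (M - a) := by
    have h1 : Y ^ (M - a) * newt (fun j => q (j * a)) K ≤ Y ^ (M - a) * (2 * B) ^ K :=
      mul_le_mul_of_nonneg_left bQ hYMa
    rw [hc2]
    nlinarith [hd.2]
  have k2 : Y ^ M ≤ c2 * X ^ (M - a) := by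
    have h1 : X ^ (M - a) * newt (fun j => p (j * a)) K ≤ X ^ (M - a) * (2 * B) ^ K :=
      mul_le_mul_of_nonneg_left bP hXMa
    rw [hc2]
    nlinarith [hd.1]
  have hXpos : 0 < X := by
    rcases hX0.eq_or_lt with h | h
    · exfalso
      rw [← h, zero_pow (by omega), mul_zero] at k2
      exact absurd k2 (not_le.2 (pow_pos hY0 _))
    · exact h
  rw [← hX, ← hY]
  refine ⟨hXpos, ?_⟩
  have hc20 : 0 < c2 := by linarith
  have l1 : (M : ℝ) * Real.log X ≤ Real.log c2 + ((M : ℝ) - a) * Real.log Y := by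
    have h1 := Real.log_le_log (pow_pos hXpos _) k1
    rw [Real.log_mul hc20.ne' (pow_pos hY0 _).ne', Real.log_pow, Real.log_pow,
      Nat.cast_sub (by omega)] at h1
    exact h1
  have l2 : (M : ℝ) * Real.log Y ≤ Real.log c2 + ((M : ℝ) - a) * Real.log X := by
    have h1 := Real.log_le_log (pow_pos hY0 _) k2
    rw [Real.log_mul hc20.ne' (pow_pos hXpos _).ne', Real.log_pow, Real.log_pow,
      Nat.cast_sub (by omega)] at h1
    exact h1
  have hv : -(a * Real.log Y) ≤ A * K * Λ := by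
    have h1 : -(K * Λ / L) ≤ Real.log Y := by
      have := Real.log_le_log (Real.exp_pos _) hYlow
      rwa [Real.log_exp] at this
    have h2 : -(a * Real.log Y) ≤ a * (K * Λ / L) := by
      have := mul_le_mul_of_nonneg_left h1 (by positivity : (0 : ℝ) ≤ a)
      linarith
    refine h2.trans (le_of_eq ?_)
    rw [haR]
    field_simp
  have hpos : 0 < κ * L * l / 2 := by positivity
  have hMa0 : 0 < (M : ℝ) - a := by linarith
  have hfin : c3 / ((M : ℝ) - a) ≤ 2 * c3 / κ / (L * l) := by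
    have h1 : c3 / ((M : ℝ) - a) ≤ c3 / (κ * L * l / 2) :=
      div_le_div_of_nonneg_left hc3' hpos hMa
    refine h1.trans (le_of_eq ?_)
    field_simp
  rw [abs_le]
  constructor
  · have h1 : Real.log Y - Real.log X ≤ c3 / ((M : ℝ) - a) := by
      rw [le_div_iff₀ hMa0, hc3]
      nlinarith
    linarith
  · have hM0 : 0 < (M : ℝ) := by
      have : (0 : ℝ) ≤ a := by positivity
      linarith
    have h1 : Real.log X - Real.log Y ≤ c3 / M := by
      rw [le_div_iff₀ hM0, hc3]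
      nlinarith
    have h2 : c3 / (M : ℝ) ≤ c3 / ((M : ℝ) - a) := by
      refine div_le_div_of_nonneg_left hc3' hMa0 ?_
      have : (0 : ℝ) ≤ a := by positivity
      linarith
    linarith

theorem lev_num (A : ℕ) (hA : 1 ≤ A) (B : ℝ) (hB : 1 ≤ B) (Λ : ℝ) (hΛ : 1 ≤ Λ) (k : ℕ) :
    ∃ l0 C : ℝ, 1 ≤ l0 ∧ 1 ≤ C ∧ ∀ L : ℕ, 2 ≤ L → ∀ l : ℝ, l0 ≤ l → ∀ x y p q : ℕ → ℝ,
      Antitone x → Antitone y → (∀ i, 0 ≤ x i) → (∀ i, 0 ≤ y i) →
      (∀ m, 2 ≤ m → HasSum (fun i => x i ^ m) (p m)) →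
      (∀ m, 2 ≤ m → HasSum (fun i => y i ^ m) (q m)) →
      (∀ i ≤ k, Real.exp (-(Λ / L)) ≤ y i) → q (A * L) ≤ B →
      (∀ m : ℕ, A * L ≤ m → (m : ℝ) ≤ 2 * l * L →
        (1 - Real.exp (-l)) * q m ≤ p m ∧ p m ≤ (1 + Real.exp (-l)) * q m) →
      0 < x k ∧ |Real.log (x k) - Real.log (y k)| ≤ C / (L * l) := by
  have hlB : 0 ≤ Real.log B := Real.log_nonneg hB
  have hB' : 1 ≤ B * Real.exp (Λ * A) := by
    have h1 : 1 ≤ Real.exp (Λ * A) := Real.one_le_exp (by positivity)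
    nlinarith
  have hΛ' : 1 ≤ Λ + Real.log B := by linarith
  obtain ⟨l1, C1, hl1, hC1, H1⟩ := lev_core k A (B * Real.exp (Λ * A)) hB' (Λ + Real.log B) hΛ'
  obtain ⟨l2, C2, hl2, hC2, H2⟩ := lev_core (k + 1) A (B * Real.exp (Λ * A)) hB' (Λ + Real.log B) hΛ'
  refine ⟨max l1 l2, C1 + C2 + 1, le_max_of_le_left hl1, by linarith, ?_⟩
  intro L hL l hl x y p q hx hy hx0 hy0 hp hq hyk hqB hclose
  have hL0 : (0 : ℝ) < L := by exact_mod_cast (by omega : 0 < L)
  have hl0 : 0 < l := by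
    have := (le_max_left l1 l2).trans hl
    linarith
  obtain ⟨c, hc⟩ : ∃ c, c = y 0 := ⟨_, rfl⟩
  have hclow : Real.exp (-(Λ / L)) ≤ c := by rw [hc]; exact hyk 0 (Nat.zero_le _)
  have hc0 : 0 < c := (Real.exp_pos _).trans_le hclow
  have hyc : ∀ i, y i ≤ c := fun i => by rw [hc]; exact hy (Nat.zero_le i)
  have hAL : 2 ≤ A * L := by nlinarith
  have hcB : c ^ (A * L) ≤ B := by
    refine le_trans ?_ hqB
    have h1 := le_hasSum (hq (A * L) hAL) 0 (fun j _ => pow_nonneg (hy0 j) _)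
    rw [hc]
    exact h1
  have hlogc : Real.log c ≤ Real.log B / L := by
    have h1 := Real.log_le_log (pow_pos hc0 _) hcB
    rw [Real.log_pow] at h1
    push_cast at h1
    rw [le_div_iff₀ hL0]
    rcases le_total 0 (Real.log c) with h | h
    · have hA1 : (1 : ℝ) ≤ A := by exact_mod_cast hA
      nlinarith [mul_nonneg h hL0.le]
    · nlinarith [mul_nonneg (neg_nonneg.2 h) hL0.le]
  -- the normalised data
  have hxs : Antitone fun i => x i / c := fun i j hij => div_le_div_of_nonneg_right (hx hij) hc0.le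
  have hys : Antitone fun i => y i / c := fun i j hij => div_le_div_of_nonneg_right (hy hij) hc0.le
  have hxs0 : ∀ i, 0 ≤ x i / c := fun i => div_nonneg (hx0 i) hc0.le
  have hys0 : ∀ i, 0 ≤ y i / c := fun i => div_nonneg (hy0 i) hc0.le
  have hy1 : y 0 / c ≤ 1 := by rw [← hc, div_self hc0.ne']
  have hps : ∀ m, 2 ≤ m → HasSum (fun i => (x i / c) ^ m) (p m / c ^ m) := by
    intro m hm
    simp only [div_pow]
    exact (hp m hm).div_const _
  have hqs : ∀ m, 2 ≤ m → HasSum (fun i => (y i / c) ^ m) (q m / c ^ m) := by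
    intro m hm
    simp only [div_pow]
    exact (hq m hm).div_const _
  have hyks : ∀ i ≤ k, Real.exp (-((Λ + Real.log B) / L)) ≤ y i / c := by
    intro i hi
    rw [le_div_iff₀ hc0]
    have h1 : c ≤ Real.exp (Real.log B / L) := by
      rw [← Real.exp_log hc0]
      exact Real.exp_le_exp.2 hlogc
    calc Real.exp (-((Λ + Real.log B) / L)) * c
        ≤ Real.exp (-((Λ + Real.log B) / L)) * Real.exp (Real.log B / L) :=
          mul_le_mul_of_nonneg_left h1 (Real.exp_pos _).le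
      _ = Real.exp (-(Λ / L)) := by
          rw [← Real.exp_add]; congr 1; ring
      _ ≤ y i := hyk i hi
  have hqBs : q (A * L) / c ^ (A * L) ≤ B * Real.exp (Λ * A) := by
    rw [div_le_iff₀ (pow_pos hc0 _)]
    have h1 : Real.exp (-(Λ / L)) ^ (A * L) ≤ c ^ (A * L) :=
      pow_le_pow_left₀ (Real.exp_pos _).le hclow _
    have h2 : Real.exp (-(Λ / L)) ^ (A * L) = Real.exp (-(Λ * A)) := by
      rw [← Real.exp_nat_mul]
      congr 1
      push_cast
      field_simp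
    rw [h2] at h1
    have h3 : B * Real.exp (Λ * A) * Real.exp (-(Λ * A)) ≤ B * Real.exp (Λ * A) * c ^ (A * L) :=
      mul_le_mul_of_nonneg_left h1 (by positivity)
    have h4 : B * Real.exp (Λ * A) * Real.exp (-(Λ * A)) = B := by
      rw [mul_assoc, ← Real.exp_add, add_neg_cancel, Real.exp_zero, mul_one]
    linarith
  have hcloses : ∀ m : ℕ, A * L ≤ m → (m : ℝ) ≤ 2 * l * L →
      (1 - Real.exp (-l)) * (q m / c ^ m) ≤ p m / c ^ m ∧
        p m / c ^ m ≤ (1 + Real.exp (-l)) * (q m / c ^ m) := by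
    intro m h1 h2
    obtain ⟨h3, h4⟩ := hclose m h1 h2
    have hcm := pow_pos hc0 m
    constructor
    · rw [← mul_div_assoc]; exact div_le_div_of_nonneg_right h3 hcm.le
    · rw [← mul_div_assoc]; exact div_le_div_of_nonneg_right h4 hcm.le
  obtain ⟨a1, a2⟩ := H1 L hL l ((le_max_left _ _).trans hl) (fun i => x i / c) (fun i => y i / c)
    (fun m => p m / c ^ m) (fun m => q m / c ^ m) hxs hys hxs0 hys0 hy1 hps hqs
    (fun i hi => hyks i hi.le) hqBs hA hcloses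
  obtain ⟨b1, b2⟩ := H2 L hL l ((le_max_right _ _).trans hl) (fun i => x i / c) (fun i => y i / c)
    (fun m => p m / c ^ m) (fun m => q m / c ^ m) hxs hys hxs0 hys0 hy1 hps hqs
    (fun i hi => hyks i (by omega)) hqBs hA hcloses
  rw [prod_range_succ] at b1
  have hxk : 0 < x k / c := pos_of_mul_pos_right b1 a1.le
  have hxk' : 0 < x k := by
    have := mul_pos hxk hc0
    rwa [div_mul_cancel₀ _ hc0.ne'] at this
  have hyk' : 0 < y k := (Real.exp_pos _).trans_le (hyk k le_rfl)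
  have hYk : 0 < ∏ i ∈ range k, y i / c := prod_pos fun i hi =>
    div_pos ((Real.exp_pos _).trans_le (hyk i (mem_range.1 hi).le)) hc0
  refine ⟨hxk', ?_⟩
  rw [prod_range_succ, prod_range_succ, Real.log_mul a1.ne' hxk.ne',
    Real.log_mul hYk.ne' (div_pos hyk' hc0).ne', Real.log_div hxk'.ne' hc0.ne',
    Real.log_div hyk'.ne' hc0.ne'] at b2
  have e : Real.log (x k) - Real.log (y k) =
      (Real.log (∏ i ∈ range k, x i / c) + (Real.log (x k) - Real.log c) -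
        (Real.log (∏ i ∈ range k, y i / c) + (Real.log (y k) - Real.log c))) -
      (Real.log (∏ i ∈ range k, x i / c) - Real.log (∏ i ∈ range k, y i / c)) := by ring
  rw [e]
  refine (abs_sub _ _).trans ?_
  refine (add_le_add b2 a2).trans ?_
  rw [← add_div]
  refine div_le_div_of_nonneg_right (by linarith) (by positivity)

end Pool.Agent.T2H02.Lev
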