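import Mathlib
import Pool.Agent.T2H02.Lev.FockDefs

/-!
# The continuum limit of the free levels (package E)
-/

open MeasureTheory

namespace Pool.Agent.T2H02.Lev

noncomputable section

/-- modes of the lattice cube: a momentum and a direction of a nonzero component, not the first -/
abbrev LMode (D L : ℕ) :=
  {p : (Fin D → Fin L) × Fin D // (p.1 p.2 : ℕ) ≠ 0 ∧ ∃ j < p.2, (p.1 j : ℕ) ≠ 0}

/-- modes of the unit cube -/
abbrev CMode (D : ℕ) := {p : (Fin D → ℕ) × Fin D // p.1 p.2 ≠ 0 ∧ ∃ j < p.2, p.1 j ≠ 0}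

/-- frequencies on the lattice -/
def freqL (D L : ℕ) (p : LMode D L) : ℝ :=
  2 * Real.arsinh (Real.sqrt (∑ i, Real.sin (Real.pi * (p.1.1 i : ℕ) / (2 * L)) ^ 2))

/-- frequencies in the continuum -/
def freqC (D : ℕ) (p : CMode D) : ℝ := Real.pi * Real.sqrt (∑ i, (p.1.1 i : ℝ) ^ 2)

namespace Cont

open MvPolynomial

/-! ### renaming the modes -/

section rename

variable {M M' : Type} {n : ℕ} {G : Type}

theorem pinj {e : M → M'} (he : Function.Injective e) :
    Function.Injective (Prod.map e id : M × Fin n → M' × Fin n) :=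
  he.prodMap Function.injective_id

theorem fact_rename (e : M → M') (A : Matrix (Fin n) (Fin n) ℝ)
    (q : MvPolynomial (M × Fin n) ℂ) :
    fact M' A (rename (Prod.map e id) q) = rename (Prod.map e id) (fact M A q) := by
  have h : (fact M' A).comp (rename (Prod.map e id)) =
      (rename (Prod.map e id) : MvPolynomial (M × Fin n) ℂ →ₐ[ℂ] _).comp (fact M A) := by
    refine MvPolynomial.algHom_ext fun s => ?_
    simp only [AlgHom.comp_apply, rename_X, fact, aeval_X, map_sum, map_mul, algHom_C,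
      MvPolynomial.algebraMap_eq]
    rfl
  exact DFunLike.congr_fun h q

theorem fen_map (ω : M' → ℝ) {e : M → M'} (he : Function.Injective e) (d : M × Fin n →₀ ℕ) :
    fen ω (d.mapDomain (Prod.map e id)) = fen (fun l => ω (e l)) d := by
  unfold fen
  rw [Finsupp.sum_mapDomain_index_inj (pinj he)]
  rfl

theorem fen_le {ω ω' : M → ℝ} {c : ℝ} {d : M × Fin n →₀ ℕ}
    (h : ∀ s ∈ d.support, ω s.1 ≤ c * ω' s.1) : fen ω d ≤ c * fen ω' d := by
  unfold fen Finsupp.sum
  rw [Finset.mul_sum]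
  refine Finset.sum_le_sum fun s hs => ?_
  have := mul_le_mul_of_nonneg_left (h s hs) (Nat.cast_nonneg (α := ℝ) (d s))
  linarith

theorem freq_le_fen {ω : M → ℝ} (hω : ∀ l, 0 ≤ ω l) {d : M × Fin n →₀ ℕ} {s : M × Fin n}
    (hs : s ∈ d.support) : ω s.1 ≤ fen ω d := by
  have h1 : (1 : ℝ) ≤ (d s : ℝ) := by
    have := Finsupp.mem_support_iff.1 hs
    exact_mod_cast Nat.one_le_iff_ne_zero.2 this
  have h2 : (d s : ℝ) * ω s.1 ≤ fen ω d := by
    unfold fen Finsupp.sum
    exact Finset.single_le_sum (f := fun s : M × Fin n => (d s : ℝ) * ω s.1)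
      (fun i _ => mul_nonneg (Nat.cast_nonneg _) (hω i.1)) hs
  have := hω s.1
  nlinarith

/-- finitely many exponents -/
theorem finD' {ω : M → ℝ} (hω : ∀ l, 0 < ω l) {E : ℝ} (hf : {l | ω l ≤ E}.Finite) :
    {d : M × Fin n →₀ ℕ | fen ω d ≤ E}.Finite := by
  classical
  obtain ⟨T, hT⟩ : ∃ T : Finset (M × Fin n), T = hf.toFinset ×ˢ Finset.univ := ⟨_, rfl⟩
  refine (Set.finite_Icc 0 (Finsupp.indicator T fun s _ => ⌊E / ω s.1⌋₊)).subset
    fun d hd => ⟨zero_le, ?_⟩
  have hd' : fen ω d ≤ E := hd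
  intro s
  by_cases hs : s ∈ d.support
  · have h1 : s ∈ T := by
      rw [hT, Finset.mem_product]
      exact ⟨hf.mem_toFinset.2 ((freq_le_fen (fun l => (hω l).le) hs).trans hd'),
        Finset.mem_univ _⟩
    rw [Finsupp.indicator_of_mem h1]
    refine Nat.le_floor ?_
    rw [le_div_iff₀ (hω s.1)]
    refine le_trans ?_ hd'
    unfold fen Finsupp.sum
    exact Finset.single_le_sum (f := fun s : M × Fin n => (d s : ℝ) * ω s.1)
      (fun i _ => mul_nonneg (Nat.cast_nonneg _) (hω i.1).le) hs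
  · rw [Finsupp.notMem_support_iff.1 hs]
    exact Nat.zero_le _

theorem finite_singl {ω : M → ℝ} (hω : ∀ l, 0 < ω l) {E : ℝ} (hf : {l | ω l ≤ E}.Finite)
    (ρ : G → Matrix (Fin n) (Fin n) ℝ) : Module.Finite ℂ (singl ω ρ E) := by
  classical
  obtain ⟨S, hS⟩ : ∃ S : Finset (M × Fin n →₀ ℕ), S = (finD' (n := n) hω hf).toFinset := ⟨_, rfl⟩
  obtain ⟨W, hW⟩ : ∃ W : Submodule ℂ (MvPolynomial (M × Fin n) ℂ), W = Submodule.span ℂ
    ((S.image fun d => monomial d (1 : ℂ) : Finset (MvPolynomial (M × Fin n) ℂ)) : Set _) :=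
    ⟨_, rfl⟩
  have hfin : Module.Finite ℂ W := by
    rw [hW]
    exact Module.Finite.span_finset ℂ _
  have hle : singl ω ρ E ≤ W := by
    intro p hp
    rw [p.as_sum]
    refine Submodule.sum_mem _ fun d hd => ?_
    have h1 : monomial d (coeff d p) = coeff d p • monomial d (1 : ℂ) := by
      rw [smul_monomial, smul_eq_mul, mul_one]
    rw [h1]
    refine Submodule.smul_mem _ _ ?_
    rw [hW]
    refine Submodule.subset_span ?_
    rw [Finset.coe_image]
    refine ⟨d, ?_, rfl⟩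
    rw [Finset.mem_coe, hS, Set.Finite.mem_toFinset]
    exact hp.1 d hd
  exact Submodule.finiteDimensional_of_le hle

theorem transfer {ω : M → ℝ} {ω' : M' → ℝ} {e : M → M'} (he : Function.Injective e)
    (ρ : G → Matrix (Fin n) (Fin n) ℝ) {E E' : ℝ}
    (h : ∀ d : M × Fin n →₀ ℕ, fen ω d ≤ E → fen (fun l => ω' (e l)) d ≤ E')
    (hfin : Module.Finite ℂ (singl ω' ρ E')) :
    Module.finrank ℂ (singl ω ρ E) ≤ Module.finrank ℂ (singl ω' ρ E') := by
  classical
  have hinj : Function.Injective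
      (rename (Prod.map e id) : MvPolynomial (M × Fin n) ℂ →ₐ[ℂ] _).toLinearMap :=
    rename_injective _ (pinj he)
  have h1 : (singl ω ρ E).map
      (rename (Prod.map e id) : MvPolynomial (M × Fin n) ℂ →ₐ[ℂ] _).toLinearMap ≤
      singl ω' ρ E' := by
    rintro _ ⟨p, hp, rfl⟩
    refine ⟨fun d hd => ?_, fun g => ?_⟩
    · rw [AlgHom.toLinearMap_apply, support_rename_of_injective (pinj he)] at hd
      obtain ⟨d', hd', rfl⟩ := Finset.mem_image.1 hd
      rw [fen_map _ he]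
      exact h d' (hp.1 d' hd')
    · rw [AlgHom.toLinearMap_apply, fact_rename, hp.2 g]
  rw [(Submodule.equivMapOfInjective _ hinj (singl ω ρ E)).finrank_eq]
  exact Submodule.finrank_mono h1

theorem transfer_back {ω : M → ℝ} {ω' : M' → ℝ} {e : M → M'} (he : Function.Injective e)
    (ρ : G → Matrix (Fin n) (Fin n) ℝ) {E E' : ℝ}
    (h : ∀ d : M × Fin n →₀ ℕ, fen (fun l => ω' (e l)) d ≤ E' → fen ω d ≤ E)
    (hr : ∀ l, ω' l ≤ E' → l ∈ Set.range e) (hpos : ∀ l, 0 ≤ ω' l)
    (hfin : Module.Finite ℂ (singl ω ρ E)) :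
    Module.finrank ℂ (singl ω' ρ E') ≤ Module.finrank ℂ (singl ω ρ E) := by
  classical
  have h1 : singl ω' ρ E' ≤ (singl ω ρ E).map
      (rename (Prod.map e id) : MvPolynomial (M × Fin n) ℂ →ₐ[ℂ] _).toLinearMap := by
    intro p hp
    obtain ⟨q, hq⟩ := exists_rename_eq_of_vars_subset_range p
      (Prod.map e id : M × Fin n → M' × Fin n) (pinj he) (by
        intro s hs
        rw [Finset.mem_coe, mem_vars_iff_mem_support] at hs
        obtain ⟨d, hd, hsd⟩ := hs
        obtain ⟨l, hl⟩ := hr s.1 ((freq_le_fen hpos hsd).trans (hp.1 d hd))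
        exact ⟨(l, s.2), Prod.ext hl rfl⟩)
    refine ⟨q, ⟨fun d hd => ?_, fun g => ?_⟩, hq⟩
    · refine h d ?_
      rw [← fen_map _ he]
      refine hp.1 _ ?_
      rw [← hq, support_rename_of_injective (pinj he)]
      exact Finset.mem_image_of_mem _ hd
    · refine rename_injective _ (pinj he) ?_
      rw [← fact_rename, hq, hp.2 g]
  have h2 : Module.Finite ℂ ((singl ω ρ E).map
      (rename (Prod.map e id) : MvPolynomial (M × Fin n) ℂ →ₐ[ℂ] _).toLinearMap) :=
    Module.Finite.map _ _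
  exact (Submodule.finrank_mono h1).trans (Submodule.finrank_map_le _ _)

/-! ### there are enough invariants -/

/-- the quadratic invariant -/
def qJ (n : ℕ) (l0 : M) : MvPolynomial (M × Fin n) ℂ := ∑ a, X (l0, a) ^ 2

theorem fact_X' (A : Matrix (Fin n) (Fin n) ℝ) (s : M × Fin n) :
    fact M A (X s) = ∑ b, C ((A b s.2 : ℝ) : ℂ) * X (s.1, b) := by
  unfold fact
  rw [aeval_X]

theorem fact_qJ {A : Matrix (Fin n) (Fin n) ℝ} (hA : A.transpose * A = 1) (l0 : M) :
    fact M A (qJ n l0) = qJ n l0 := by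
  classical
  have hA' : A * A.transpose = 1 := mul_eq_one_comm.1 hA
  unfold qJ
  rw [map_sum]
  simp only [pow_two, map_mul, fact_X', Finset.sum_mul_sum]
  rw [Finset.sum_comm]
  refine Finset.sum_congr rfl fun b _ => ?_
  rw [Finset.sum_comm, Finset.sum_eq_single b]
  · have h1 : ∑ a, (A b a) * (A b a) = 1 := by
      have := congrFun (congrFun hA' b) b
      rw [Matrix.mul_apply, Matrix.one_apply_eq] at this
      exact this
    have h2 : ∀ a, C ((A b a : ℝ) : ℂ) * X (l0, b) * (C ((A b a : ℝ) : ℂ) * X (l0, b)) =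
        C ((A b a * A b a : ℝ) : ℂ) * (X (l0, b) * X (l0, b) : MvPolynomial (M × Fin n) ℂ) := by
      intro a
      rw [Complex.ofReal_mul, C_mul]
      ring
    simp only [h2]
    rw [← Finset.sum_mul, ← map_sum, ← Complex.ofReal_sum, h1, Complex.ofReal_one, C_1, one_mul]
  · intro c _ hc
    have h1 : ∑ a, (A b a) * (A c a) = 0 := by
      have := congrFun (congrFun hA' b) c
      rw [Matrix.mul_apply, Matrix.one_apply_ne (Ne.symm hc)] at this
      exact this
    have h2 : ∀ a, C ((A b a : ℝ) : ℂ) * X (l0, b) * (C ((A c a : ℝ) : ℂ) * X (l0, c)) =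
        C ((A b a * A c a : ℝ) : ℂ) * (X (l0, b) * X (l0, c) : MvPolynomial (M × Fin n) ℂ) := by
      intro a
      rw [Complex.ofReal_mul, C_mul]
      ring
    simp only [h2]
    rw [← Finset.sum_mul, ← map_sum, ← Complex.ofReal_sum, h1, Complex.ofReal_zero, C_0, zero_mul]
  · simp

/-- the exponents have energy `e` -/
def HasEn (ω : M → ℝ) (e : ℝ) (p : MvPolynomial (M × Fin n) ℂ) : Prop :=
  ∀ d ∈ p.support, fen ω d = e

theorem HasEn.mul {ω : M → ℝ} {e e' : ℝ} {p q : MvPolynomial (M × Fin n) ℂ}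
    (hp : HasEn ω e p) (hq : HasEn ω e' q) : HasEn ω (e + e') (p * q) := by
  classical
  intro d hd
  obtain ⟨a, ha, b, hb, rfl⟩ := Finset.mem_add.1 (support_mul p q hd)
  have h1 : fen ω (a + b) = fen ω a + fen ω b := by
    unfold fen
    refine Finsupp.sum_add_index' (fun s => by simp) fun s x y => ?_
    push_cast
    ring
  rw [h1, hp a ha, hq b hb]

theorem HasEn.pow {ω : M → ℝ} {e : ℝ} {p : MvPolynomial (M × Fin n) ℂ}
    (hp : HasEn ω e p) (j : ℕ) : HasEn ω (j * e) (p ^ j) := by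
  classical
  induction j with
  | zero =>
    intro d hd
    rw [pow_zero, support_one, Finset.mem_singleton] at hd
    subst hd
    unfold fen
    rw [Finsupp.sum_zero_index]
    simp
  | succ j ih =>
    rw [pow_succ]
    have := ih.mul hp
    have e1 : ((j + 1 : ℕ) : ℝ) * e = j * e + e := by push_cast; ring
    rw [e1]
    exact this

theorem hasEn_qJ (ω : M → ℝ) (l0 : M) : HasEn ω (2 * ω l0) (qJ n l0) := by
  classical
  intro d hd
  unfold qJ at hd
  obtain ⟨a, -, ha⟩ := Finset.mem_biUnion.1 (support_sum hd)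
  rw [X_pow_eq_monomial, support_monomial] at ha
  rw [if_neg one_ne_zero, Finset.mem_singleton] at ha
  subst ha
  unfold fen
  rw [Finsupp.sum_single_index]
  · push_cast
    ring
  · simp

theorem lower {ω : M → ℝ} (hn : 0 < n) (l0 : M) (h0 : 0 ≤ ω l0)
    (ρ : G → Matrix (Fin n) (Fin n) ℝ)
    (horth : ∀ g, (ρ g).transpose * ρ g = 1) (k : ℕ) (hf : Module.Finite ℂ
      (singl ω ρ (k * (2 * ω l0)))) :
    k + 1 ≤ Module.finrank ℂ (singl ω ρ (k * (2 * ω l0))) := by
  classical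
  have hmem : ∀ j : Fin (k + 1), qJ n l0 ^ (j : ℕ) ∈ singl ω ρ (k * (2 * ω l0)) := by
    intro j
    refine ⟨fun d hd => ?_, fun g => ?_⟩
    · rw [(hasEn_qJ ω l0).pow j d hd]
      have : ((j : ℕ) : ℝ) ≤ k := by exact_mod_cast Nat.lt_succ_iff.1 j.2
      nlinarith
    · rw [map_pow, fact_qJ (horth g)]
  have hli : LinearIndependent ℂ fun j : Fin (k + 1) => qJ n l0 ^ (j : ℕ) := by
    let φ : MvPolynomial (M × Fin n) ℂ →ₐ[ℂ] Polynomial ℂ :=
      aeval fun s => if s = (l0, ⟨0, hn⟩) then Polynomial.X else 0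
    have hφ : φ (qJ n l0) = Polynomial.X ^ 2 := by
      unfold qJ
      rw [map_sum, Finset.sum_eq_single ⟨0, hn⟩]
      · simp [φ]
      · intro b _ hb
        simp [φ, hb]
      · simp
    refine LinearIndependent.of_comp φ.toLinearMap ?_
    have h1 : (φ.toLinearMap ∘ fun j : Fin (k + 1) => qJ n l0 ^ (j : ℕ)) =
        (Polynomial.basisMonomials ℂ) ∘ fun j : Fin (k + 1) => 2 * (j : ℕ) := by
      funext j
      simp only [Function.comp_apply, AlgHom.toLinearMap_apply, map_pow, hφ,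
        Polynomial.coe_basisMonomials]
      rw [← pow_mul, Polynomial.X_pow_eq_monomial]
    rw [h1]
    refine (Polynomial.basisMonomials ℂ).linearIndependent.comp _ ?_
    intro i j hij
    have : 2 * (i : ℕ) = 2 * (j : ℕ) := hij
    exact Fin.ext (by omega)
  have hli2 : LinearIndependent ℂ fun j : Fin (k + 1) =>
      (⟨qJ n l0 ^ (j : ℕ), hmem j⟩ : singl ω ρ (k * (2 * ω l0))) := by
    refine LinearIndependent.of_comp (singl ω ρ (k * (2 * ω l0))).subtype ?_
    exact hli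
  have := hli2.fintype_card_le_finrank
  rwa [Fintype.card_fin] at this

end rename

/-! ### the frequencies -/

theorem sin_lower {x : ℝ} (h0 : 0 ≤ x) (h1 : x ≤ Real.pi / 2) :
    x ≤ Real.pi / 2 * Real.sin x ∧ x ≤ Real.sin x * (1 + x ^ 2 * (Real.pi / 12)) := by
  have h2 : x - x ^ 3 / 6 ≤ Real.sin x := by
    rcases h0.eq_or_lt with h | h
    · rw [← h]; simp
    · exact (Real.sin_gt_sub_cube h).le
  have h3 : 2 / Real.pi * x ≤ Real.sin x := Real.mul_le_sin h0 h1
  have hpi := Real.pi_pos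
  have h4 : x ≤ Real.pi / 2 * Real.sin x := by
    have := mul_le_mul_of_nonneg_left h3 (by positivity : 0 ≤ Real.pi / 2)
    have e : Real.pi / 2 * (2 / Real.pi * x) = x := by field_simp
    linarith
  have h5 : x ^ 2 * x ≤ x ^ 2 * (Real.pi / 2 * Real.sin x) :=
    mul_le_mul_of_nonneg_left h4 (sq_nonneg _)
  exact ⟨h4, by nlinarith⟩

theorem sinh_upper {t : ℝ} (h0 : 0 ≤ t) (h1 : t ≤ 1) : Real.sinh t ≤ t * (1 + t ^ 2) := by
  rcases h0.eq_or_lt with h | h
  · rw [← h]; simp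
  obtain ⟨c, hc, h2⟩ := exists_deriv_eq_slope Real.sinh h Real.continuous_sinh.continuousOn
    Real.differentiable_sinh.differentiableOn
  rw [Real.deriv_sinh, Real.sinh_zero, sub_zero, sub_zero, eq_div_iff h.ne'] at h2
  have h3 : Real.cosh c ≤ Real.cosh t := by
    rw [Real.cosh_le_cosh, abs_of_pos hc.1, abs_of_pos h]
    exact hc.2.le
  have h4 := Real.cosh_le_exp_half_sq t
  have h5 : Real.exp (t ^ 2 / 2) ≤ 1 + t ^ 2 := by
    have := Real.abs_exp_sub_one_le (x := t ^ 2 / 2) (by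
      rw [abs_of_nonneg (by positivity)]
      nlinarith)
    rw [abs_of_nonneg (by positivity : (0 : ℝ) ≤ t ^ 2 / 2)] at this
    have := (abs_le.1 this).2
    linarith
  rw [← h2]
  have h6 : Real.cosh c ≤ 1 + t ^ 2 := by linarith
  nlinarith

theorem arsinh_le_self {y : ℝ} (h : 0 ≤ y) : Real.arsinh y ≤ y := by
  have h1 := Real.arsinh_le_arsinh.2 (Real.self_le_sinh_iff.2 h)
  rwa [Real.arsinh_sinh] at h1

/-- the continuum mode of a lattice mode -/
def emb (D L : ℕ) (p : LMode D L) : CMode D := ⟨(fun i => (p.1.1 i : ℕ), p.1.2), p.2⟩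

theorem emb_inj (D L : ℕ) : Function.Injective (emb D L) := by
  intro p q h
  have h1 := congrArg Subtype.val h
  have h2 : (fun i => (p.1.1 i : ℕ)) = fun i => (q.1.1 i : ℕ) := (Prod.ext_iff.1 h1).1
  have h3 : p.1.2 = q.1.2 := (Prod.ext_iff.1 h1).2
  refine Subtype.ext (Prod.ext (funext fun i => Fin.ext (congrFun h2 i)) h3)

/-- the argument of the sine -/
def xx {D L : ℕ} (p : LMode D L) (i : Fin D) : ℝ := Real.pi * (p.1.1 i : ℕ) / (2 * L)

theorem xx_nonneg {D L : ℕ} (p : LMode D L) (i : Fin D) : 0 ≤ xx p i := by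
  unfold xx
  have := Real.pi_pos
  positivity

theorem xx_le {D L : ℕ} (p : LMode D L) (i : Fin D) : xx p i ≤ Real.pi / 2 := by
  unfold xx
  have hL : 0 < L := lt_of_le_of_lt (Nat.zero_le _) (p.1.1 i).2
  have hL' : (0 : ℝ) < L := by exact_mod_cast hL
  have h1 : ((p.1.1 i : ℕ) : ℝ) ≤ L := by exact_mod_cast (p.1.1 i).2.le
  rw [div_le_iff₀ (by positivity)]
  have := Real.pi_pos
  nlinarith

theorem freqC_emb {D L : ℕ} (hL : 0 < L) (p : LMode D L) :
    freqC D (emb D L p) = 2 * L * Real.sqrt (∑ i, xx p i ^ 2) := by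
  have hL' : (0 : ℝ) < L := by exact_mod_cast hL
  have hpi := Real.pi_pos
  have h1 : ∑ i, xx p i ^ 2 = (Real.pi / (2 * L)) ^ 2 * ∑ i, ((p.1.1 i : ℕ) : ℝ) ^ 2 := by
    rw [Finset.mul_sum]
    refine Finset.sum_congr rfl fun i _ => ?_
    unfold xx
    ring
  rw [h1, Real.sqrt_mul (by positivity), Real.sqrt_sq (by positivity)]
  unfold freqC emb
  field_simp

theorem freqL_eq {D L : ℕ} (p : LMode D L) :
    freqL D L p = 2 * Real.arsinh (Real.sqrt (∑ i, Real.sin (xx p i) ^ 2)) := rfl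

theorem freqL_pos {D L : ℕ} (p : LMode D L) : 0 < freqL D L p := by
  rw [freqL_eq]
  have h1 : 0 < ∑ i, Real.sin (xx p i) ^ 2 := by
    refine Finset.sum_pos' (fun i _ => sq_nonneg _) ⟨p.1.2, Finset.mem_univ _, ?_⟩
    have hL : 0 < L := lt_of_le_of_lt (Nat.zero_le _) (p.1.1 p.1.2).2
    have hL' : (0 : ℝ) < L := by exact_mod_cast hL
    have h2 : (0 : ℝ) < ((p.1.1 p.1.2 : ℕ) : ℝ) := by
      exact_mod_cast Nat.pos_of_ne_zero p.2.1
    have h3 : 0 < xx p p.1.2 := by
      unfold xx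
      have := Real.pi_pos
      positivity
    have h4 : xx p p.1.2 < Real.pi := by
      have := xx_le p p.1.2
      have := Real.pi_pos
      linarith
    have := Real.sin_pos_of_pos_of_lt_pi h3 h4
    positivity
  have h2 : 0 < Real.arsinh (Real.sqrt (∑ i, Real.sin (xx p i) ^ 2)) :=
    Real.arsinh_pos_iff.2 (Real.sqrt_pos.2 h1)
  linarith

theorem upperL {D L : ℕ} (hL : 0 < L) (p : LMode D L) :
    L * freqL D L p ≤ freqC D (emb D L p) := by
  have hL' : (0 : ℝ) < L := by exact_mod_cast hL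
  rw [freqC_emb hL, freqL_eq]
  have h1 := arsinh_le_self (Real.sqrt_nonneg (∑ i, Real.sin (xx p i) ^ 2))
  have h2 : Real.sqrt (∑ i, Real.sin (xx p i) ^ 2) ≤ Real.sqrt (∑ i, xx p i ^ 2) := by
    refine Real.sqrt_le_sqrt (Finset.sum_le_sum fun i _ => ?_)
    have h3 := Real.sin_le (xx_nonneg p i)
    have h4 : 0 ≤ Real.sin (xx p i) := Real.sin_nonneg_of_nonneg_of_le_pi (xx_nonneg p i) (by
      have := xx_le p i
      have := Real.pi_pos
      linarith)
    exact pow_le_pow_left₀ h4 h3 2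
  nlinarith

theorem lowerL {D L : ℕ} (hL : 0 < L) (p : LMode D L) {t : ℝ} (ht : freqL D L p = 2 * t)
    (ht1 : t ≤ 1) : freqC D (emb D L p) ≤ (1 + 9 * t ^ 2) * (L * freqL D L p) := by
  have hL' : (0 : ℝ) < L := by exact_mod_cast hL
  have hpi := Real.pi_pos
  have hpi2 := Real.pi_le_four
  have hpi3 := Real.pi_lt_d2
  obtain ⟨S, hS⟩ : ∃ S, S = ∑ i, Real.sin (xx p i) ^ 2 := ⟨_, rfl⟩
  have hS0 : 0 ≤ S := by rw [hS]; exact Finset.sum_nonneg fun i _ => sq_nonneg _
  have ht' : Real.arsinh (Real.sqrt S) = t := by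
    rw [freqL_eq, ← hS] at ht
    linarith
  have ht0 : 0 ≤ t := by
    rw [← ht']
    exact Real.arsinh_nonneg_iff.2 (Real.sqrt_nonneg _)
  have hSt : Real.sqrt S = Real.sinh t := by rw [← ht', Real.sinh_arsinh]
  have hsq : Real.sqrt S ≤ t * (1 + t ^ 2) := by
    rw [hSt]
    exact sinh_upper ht0 ht1
  have hsi : ∀ i, Real.sin (xx p i) ≤ Real.sqrt S := by
    intro i
    refine Real.le_sqrt_of_sq_le ?_
    rw [hS]
    exact Finset.single_le_sum (f := fun i => Real.sin (xx p i) ^ 2) (fun j _ => sq_nonneg _)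
      (Finset.mem_univ i)
  have hS2 : Real.sqrt S ^ 2 = S := Real.sq_sqrt hS0
  have hS4 : S ≤ 4 * t ^ 2 := by
    rw [← hS2]
    have h1 : Real.sqrt S ≤ 2 * t := by nlinarith
    have h2 := pow_le_pow_left₀ (Real.sqrt_nonneg S) h1 2
    nlinarith
  have hx : ∀ i, xx p i ≤ Real.sin (xx p i) * (1 + S) := by
    intro i
    obtain ⟨h1, h2⟩ := sin_lower (xx_nonneg p i) (xx_le p i)
    have h3 : 0 ≤ Real.sin (xx p i) := Real.sin_nonneg_of_nonneg_of_le_pi (xx_nonneg p i) (by
      have := xx_le p i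
      linarith)
    have h4 : xx p i ≤ Real.pi / 2 * Real.sqrt S :=
      h1.trans (mul_le_mul_of_nonneg_left (hsi i) (by positivity))
    have h5 : xx p i ^ 2 ≤ (Real.pi / 2) ^ 2 * S := by
      have := pow_le_pow_left₀ (xx_nonneg p i) h4 2
      rw [mul_pow, hS2] at this
      exact this
    have h6 : xx p i ^ 2 * (Real.pi / 12) ≤ S := by
      have h7 : xx p i ^ 2 * (Real.pi / 12) ≤ (Real.pi / 2) ^ 2 * S * (Real.pi / 12) :=
        mul_le_mul_of_nonneg_right h5 (by positivity)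
      have h8 : (Real.pi / 2) ^ 2 * S * (Real.pi / 12) = S * (Real.pi ^ 3 / 48) := by ring
      have h9 : Real.pi ^ 3 ≤ 48 := by
        have : Real.pi ≤ 3.15 := hpi3.le
        calc Real.pi ^ 3 ≤ (3.15 : ℝ) ^ 3 := pow_le_pow_left₀ hpi.le this 3
          _ ≤ 48 := by norm_num
      have h10 : S * (Real.pi ^ 3 / 48) ≤ S * 1 :=
        mul_le_mul_of_nonneg_left (by linarith) hS0
      linarith
    refine h2.trans (mul_le_mul_of_nonneg_left (by linarith) h3)
  have hfin : Real.sqrt (∑ i, xx p i ^ 2) ≤ Real.sqrt S * (1 + S) := by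
    have h1 : ∑ i, xx p i ^ 2 ≤ (Real.sqrt S * (1 + S)) ^ 2 := by
      rw [mul_pow, hS2, hS, Finset.sum_mul]
      refine Finset.sum_le_sum fun i _ => ?_
      rw [← mul_pow, ← hS]
      exact pow_le_pow_left₀ (xx_nonneg p i) (hx i) 2
    exact (Real.sqrt_le_sqrt h1).trans (le_of_eq (Real.sqrt_sq (by positivity)))
  rw [freqC_emb hL, ht]
  have h1 : Real.sqrt S * (1 + S) ≤ t * (1 + 9 * t ^ 2) := by
    have h2 : Real.sqrt S * (1 + S) ≤ t * (1 + t ^ 2) * (1 + 4 * t ^ 2) :=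
      mul_le_mul hsq (by linarith) (by linarith) (by positivity)
    have ht2 : t ^ 2 ≤ 1 := pow_le_one₀ ht0 ht1
    have h3 : (1 + t ^ 2) * (1 + 4 * t ^ 2) ≤ 1 + 9 * t ^ 2 := by
      nlinarith [mul_nonneg (sq_nonneg t) (sub_nonneg.2 ht2)]
    nlinarith
  have h2 : Real.sqrt (∑ i, xx p i ^ 2) ≤ t * (1 + 9 * t ^ 2) := hfin.trans h1
  have h3 : 2 * L * Real.sqrt (∑ i, xx p i ^ 2) ≤ 2 * L * (t * (1 + 9 * t ^ 2)) :=
    mul_le_mul_of_nonneg_left h2 (by positivity)
  linarith

theorem freqC_coord {D : ℕ} (p : CMode D) (i : Fin D) : Real.pi * (p.1.1 i : ℝ) ≤ freqC D p := by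
  unfold freqC
  refine mul_le_mul_of_nonneg_left ?_ Real.pi_pos.le
  refine Real.le_sqrt_of_sq_le ?_
  exact Finset.single_le_sum (f := fun i => (p.1.1 i : ℝ) ^ 2) (fun j _ => sq_nonneg _)
    (Finset.mem_univ i)

theorem freqC_pos {D : ℕ} (p : CMode D) : 0 < freqC D p := by
  have h1 := freqC_coord p p.1.2
  have h2 : (0 : ℝ) < (p.1.1 p.1.2 : ℝ) := by exact_mod_cast Nat.pos_of_ne_zero p.2.1
  have := mul_pos Real.pi_pos h2
  linarith

theorem freqC_finite (D : ℕ) (E : ℝ) : {p : CMode D | freqC D p ≤ E}.Finite := by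
  have h1 : {p : (Fin D → ℕ) × Fin D | p.1 ∈ Set.Iic (fun _ : Fin D => ⌊E / Real.pi⌋₊)}.Finite := by
    have := (Set.finite_Iic (fun _ : Fin D => ⌊E / Real.pi⌋₊)).prod (Set.finite_univ (α := Fin D))
    refine this.subset fun p hp => ⟨hp, Set.mem_univ _⟩
  refine (h1.preimage (f := Subtype.val) Subtype.val_injective.injOn).subset fun p hp => ?_
  intro i
  refine Nat.le_floor ?_
  rw [le_div_iff₀ Real.pi_pos]
  have := freqC_coord p i
  have hp' : freqC D p ≤ E := hp
  linarith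

/-- a mode of the continuum -/
def l0 {D : ℕ} (hD : 2 ≤ D) : CMode D := ⟨(fun _ => 1, ⟨1, by omega⟩), by simp, by
  refine ⟨⟨0, by omega⟩, ?_, by simp⟩
  rw [Fin.lt_def]
  simp⟩

theorem main {n : ℕ} {G : Type} (ρ : G → Matrix (Fin n) (Fin n) ℝ) (hn : 0 < n)
    (horth : ∀ g, (ρ g).transpose * ρ g = 1) (D : ℕ) (hD : 2 ≤ D) (k : ℕ) :
    ∃ (L0 : ℕ) (C : ℝ), 0 ≤ C ∧ ∀ L : ℕ, L0 ≤ L →
      |L * flev (freqL D L) ρ k - flev (freqC D) ρ k| ≤ C / L ^ 2 := by
  obtain ⟨c, hc⟩ : ∃ c, c = flev (freqC D) ρ k := ⟨_, rfl⟩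
  obtain ⟨SC, hSC⟩ : ∃ SC : Set ℝ, SC = {E : ℝ | k + 1 ≤ Module.finrank ℂ
    (singl (freqC D) ρ E)} := ⟨_, rfl⟩
  have hcs : c = sInf SC := by rw [hc, hSC]; rfl
  have hfC : ∀ E, Module.Finite ℂ (singl (freqC D) ρ E) := fun E =>
    finite_singl freqC_pos (freqC_finite D E) ρ
  have hfL : ∀ L E, Module.Finite ℂ (singl (freqL D L) ρ E) := fun L E =>
    finite_singl freqL_pos (Set.toFinite _) ρ
  have hneg : ∀ (M : Type) (ω : M → ℝ), (∀ l, 0 < ω l) → ∀ E : ℝ,
      1 ≤ Module.finrank ℂ (singl ω ρ E) → 0 ≤ E := by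
    intro M ω hω E h
    by_contra hE
    have h1 : singl ω ρ E = ⊥ := by
      rw [eq_bot_iff]
      intro p hp
      rw [Submodule.mem_bot]
      by_contra hp0
      obtain ⟨d, hd⟩ := support_nonempty.2 hp0
      have h2 : 0 ≤ fen ω d := by
        unfold fen Finsupp.sum
        exact Finset.sum_nonneg fun s _ => mul_nonneg (Nat.cast_nonneg _) (hω s.1).le
      exact hE (h2.trans (hp.1 d hd))
    rw [h1, finrank_bot] at h
    omega
  have hneC : SC.Nonempty := by
    refine ⟨k * (2 * freqC D (l0 hD)), ?_⟩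
    rw [hSC]
    exact lower hn (l0 hD) (freqC_pos _).le ρ horth k (hfC _)
  have hbC : BddBelow SC := ⟨0, fun E hE => by
    rw [hSC] at hE
    exact hneg _ _ freqC_pos E (le_trans (Nat.le_add_left 1 k) hE)⟩
  have hc0 : 0 ≤ c := by
    rw [hcs]
    refine le_csInf hneC fun E hE => ?_
    rw [hSC] at hE
    exact hneg _ _ freqC_pos E (le_trans (Nat.le_add_left 1 k) hE)
  obtain ⟨L0, hL0⟩ := exists_nat_gt (c + 1)
  refine ⟨L0 + 1, (9 / 4) * (c + 1) ^ 2 * c, by positivity, fun L hL => ?_⟩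
  have hLpos : 0 < L := by omega
  have hL' : (0 : ℝ) < L := by exact_mod_cast hLpos
  have hLc : c + 1 < L := by
    have : (L0 : ℝ) ≤ L := by exact_mod_cast (by omega : L0 ≤ L)
    linarith
  obtain ⟨SL, hSL⟩ : ∃ SL : Set ℝ, SL = {E : ℝ | k + 1 ≤ Module.finrank ℂ
    (singl (freqL D L) ρ E)} := ⟨_, rfl⟩
  obtain ⟨l, hl⟩ : ∃ l, l = flev (freqL D L) ρ k := ⟨_, rfl⟩
  have hls : l = sInf SL := by rw [hl, hSL]; rfl
  have hbL : BddBelow SL := ⟨0, fun E hE => by
    rw [hSL] at hE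
    exact hneg _ _ freqL_pos E (le_trans (Nat.le_add_left 1 k) hE)⟩
  -- from the continuum to the lattice
  have hback : ∀ E ∈ SC, E < Real.pi * L → E / L ∈ SL := by
    intro E hE hEL
    rw [hSC] at hE
    rw [hSL]
    have hE' : k + 1 ≤ Module.finrank ℂ (singl (freqC D) ρ E) := hE
    refine hE'.trans (transfer_back (emb_inj D L) ρ (fun d hd => ?_) (fun p hp => ?_)
      (fun p => (freqC_pos p).le) (hfL L _))
    · have h1 : fen (freqL D L) d ≤ (1 / L : ℝ) * fen (fun p => freqC D (emb D L p)) d := by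
        refine fen_le fun s _ => ?_
        have := upperL hLpos s.1
        rw [one_div, ← div_eq_inv_mul, le_div_iff₀ hL']
        linarith
      refine h1.trans ?_
      rw [one_div, ← div_eq_inv_mul]
      exact div_le_div_of_nonneg_right hd hL'.le
    · have h1 : ∀ i, p.1.1 i < L := by
        intro i
        have h2 := (freqC_coord p i).trans hp
        have h3 : Real.pi * (p.1.1 i : ℝ) < Real.pi * L := lt_of_le_of_lt h2 hEL
        have h4 : (p.1.1 i : ℝ) < L := lt_of_mul_lt_mul_left h3 Real.pi_pos.le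
        exact_mod_cast h4
      exact ⟨⟨(fun i => ⟨p.1.1 i, h1 i⟩, p.1.2), p.2⟩, rfl⟩
  have hpiL : (L : ℝ) < Real.pi * L := by
    have := Real.pi_gt_three
    nlinarith
  have hneL : SL.Nonempty := by
    obtain ⟨E, hE, hE2⟩ := exists_lt_of_csInf_lt hneC
      (show sInf SC < c + 1 by rw [← hcs]; linarith)
    exact ⟨_, hback E hE (by linarith)⟩
  have h1 : L * l ≤ c := by
    by_contra hcon
    rw [not_le] at hcon
    obtain ⟨E, hE, hE2⟩ := exists_lt_of_csInf_lt hneC
      (show sInf SC < min (L * l) (c + 1) by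
        rw [← hcs]
        exact lt_min hcon (by linarith))
    have h2 := csInf_le hbL (hback E hE (by
      have := hE2.trans_le (min_le_right _ _)
      linarith))
    rw [← hls] at h2
    have h3 : E < L * l := hE2.trans_le (min_le_left _ _)
    rw [le_div_iff₀ hL'] at h2
    linarith
  have hl0 : 0 ≤ l := by
    rw [hls]
    refine le_csInf hneL fun E hE => ?_
    rw [hSL] at hE
    exact hneg _ _ freqL_pos E (le_trans (Nat.le_add_left 1 k) hE)
  -- from the lattice to the continuum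
  obtain ⟨κ, hκ⟩ : ∃ κ : ℝ, κ = (9 / 4) * (c + 1) ^ 2 / L ^ 2 := ⟨_, rfl⟩
  have hκ0 : 0 ≤ κ := by rw [hκ]; positivity
  have hforw : ∀ e ∈ SL, e ≤ (c + 1) / L → (1 + κ) * L * e ∈ SC := by
    intro e he heL
    rw [hSL] at he
    rw [hSC]
    have he' : k + 1 ≤ Module.finrank ℂ (singl (freqL D L) ρ e) := he
    refine he'.trans (transfer (emb_inj D L) ρ (fun d hd => ?_) (hfC _))
    have h2 : fen (fun p => freqC D (emb D L p)) d ≤ ((1 + κ) * L) * fen (freqL D L) d := by
      refine fen_le fun s hs => ?_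
      have h3 : freqL D L s.1 ≤ (c + 1) / L :=
        ((freq_le_fen (fun p => (freqL_pos p).le) hs).trans hd).trans heL
      have h4 := lowerL hLpos s.1 (t := freqL D L s.1 / 2) (by ring) (by
        have h5 : (c + 1) / L ≤ 1 := by
          rw [div_le_one hL']
          exact hLc.le
        linarith)
      have h6 : 9 * (freqL D L s.1 / 2) ^ 2 ≤ κ := by
        have h7 := pow_le_pow_left₀ (freqL_pos s.1).le h3 2
        rw [div_pow] at h7
        rw [hκ]
        have e1 : (9 : ℝ) / 4 * (c + 1) ^ 2 / L ^ 2 = 9 / 4 * ((c + 1) ^ 2 / L ^ 2) := by ring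
        rw [e1]
        linarith
      have h8 := freqL_pos s.1
      have h9 : 0 ≤ (L : ℝ) * freqL D L s.1 := by positivity
      have h10 := mul_le_mul_of_nonneg_right h6 h9
      linarith
    refine h2.trans ?_
    exact mul_le_mul_of_nonneg_left hd (by positivity)
  have h2 : c ≤ (1 + κ) * L * l := by
    by_contra hcon
    rw [not_le] at hcon
    have hkL : 0 < (1 + κ) * L := by positivity
    have h3 : l < c / ((1 + κ) * L) := by
      rw [lt_div_iff₀ hkL]
      linarith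
    have h4 : l < (c + 1) / L := by
      rw [lt_div_iff₀ hL']
      linarith
    obtain ⟨e, he, he2⟩ := exists_lt_of_csInf_lt hneL
      (show sInf SL < min (c / ((1 + κ) * L)) ((c + 1) / L) by
        rw [← hls]
        exact lt_min h3 h4)
    have h5 := csInf_le hbC (hforw e he (he2.le.trans (min_le_right _ _)))
    rw [← hcs] at h5
    have h6 : e < c / ((1 + κ) * L) := he2.trans_le (min_le_left _ _)
    rw [lt_div_iff₀ hkL] at h6
    linarith
  rw [← hl, ← hc]
  have h3 : κ * (L * l) ≤ κ * c := mul_le_mul_of_nonneg_left h1 hκ0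
  have h4 : κ * c = (9 / 4) * (c + 1) ^ 2 * c / L ^ 2 := by rw [hκ]; ring
  rw [abs_le]
  constructor
  · rw [← h4]
    linarith
  · have : 0 ≤ (9 / 4) * (c + 1) ^ 2 * c / (L : ℝ) ^ 2 := by positivity
    linarith

end Cont

theorem cont_lim {n : ℕ} {G : Type} [Group G] (ρ : G → Matrix (Fin n) (Fin n) ℝ) (hn : 0 < n)
    (hmul : ∀ g h, ρ (g * h) = ρ g * ρ h) (hone : ρ 1 = 1)
    (horth : ∀ g, (ρ g).transpose * ρ g = 1) (D : ℕ) (hD : 2 ≤ D) (k : ℕ) :
    ∃ C : ℝ, 0 ≤ C ∧ ∀ L : ℕ, 2 ≤ L →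
      |L * flev (freqL D L) ρ k - flev (freqC D) ρ k| ≤ C / L ^ 2 := by
  obtain ⟨L0, C, hC, h⟩ := Cont.main ρ hn horth D hD k
  refine ⟨C + ∑ L ∈ Finset.range L0,
    |L * flev (freqL D L) ρ k - flev (freqC D) ρ k| * L ^ 2, ?_, fun L hL => ?_⟩
  · have : 0 ≤ ∑ L ∈ Finset.range L0,
      |L * flev (freqL D L) ρ k - flev (freqC D) ρ k| * (L : ℝ) ^ 2 :=
      Finset.sum_nonneg fun L _ => by positivity
    linarith
  have hL' : (0 : ℝ) < L := by
    have : 0 < L := by omega
    exact_mod_cast this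
  have hs0 : 0 ≤ ∑ L ∈ Finset.range L0,
      |L * flev (freqL D L) ρ k - flev (freqC D) ρ k| * (L : ℝ) ^ 2 :=
      Finset.sum_nonneg fun L _ => by positivity
  rcases lt_or_ge L L0 with h1 | h1
  · rw [le_div_iff₀ (by positivity)]
    have := Finset.single_le_sum (f := fun L : ℕ =>
      |L * flev (freqL D L) ρ k - flev (freqC D) ρ k| * (L : ℝ) ^ 2)
      (fun L _ => by positivity) (Finset.mem_range.2 h1)
    linarith
  · refine (h L h1).trans ?_
    exact div_le_div_of_nonneg_right (by linarith) (by positivity)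

end

end Pool.Agent.T2H02.Lev
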