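import Mathlib
import Pool.Agent.T2H02.Gap.Spec2

/-!
# The exact number of the modes
-/

open MeasureTheory Filter Finset
open scoped Matrix.Norms.Frobenius Topology
open Pool.Agent.H906R3.YM Pool.Agent.W793.YM Pool.Agent.TH618.YM Pool.Agent.T2H02.Gap

namespace Pool.Agent.T2H02.Lev

set_option linter.unusedSectionVars false
set_option linter.unusedVariables false

noncomputable section

variable {D L : ℕ}

/-- the pairs of a momentum and a direction with a nonzero component -/
abbrev Nz (D L : ℕ) := {p : St D L × Fin D // (p.1 p.2 : ℕ) ≠ 0}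

/-- the modes: the momentum and a direction with a nonzero component which is not the first one -/
abbrev Md (D L : ℕ) := {p : St D L × Fin D // (p.1 p.2 : ℕ) ≠ 0 ∧ ∃ j < p.2, (p.1 j : ℕ) ≠ 0}

/-- nonzero momenta -/
abbrev Nm (D L : ℕ) := {m : St D L // ∃ j, (m j : ℕ) ≠ 0}

/-- the first nonzero component -/
lemma exists_first (m : St D L) (h : ∃ j, (m j : ℕ) ≠ 0) : ∃ i, (m i : ℕ) ≠ 0 ∧ ∀ j < i, (m j : ℕ) = 0 := by
  classical
  obtain ⟨i, hi, hi2⟩ := Finset.exists_minimal (s := univ.filter fun j : Fin D => (m j : ℕ) ≠ 0) (by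
    obtain ⟨j, hj⟩ := h
    exact ⟨j, by simp [hj]⟩)
  refine ⟨i, (mem_filter.1 hi).2, fun j hj => ?_⟩
  by_contra hc
  exact absurd (hi2 (mem_filter.2 ⟨mem_univ j, hc⟩) hj.le) (not_le.2 hj)

lemma card_Nz_ge : Fintype.card (Md D L) + Fintype.card (Nm D L) ≤ Fintype.card (Nz D L) := by
  classical
  have hex : ∀ m : Nm D L, ∃ i, (m.1 i : ℕ) ≠ 0 ∧ ∀ j < i, (m.1 j : ℕ) = 0 := fun m =>
    exists_first m.1 m.2
  choose i hi hi2 using hex
  rw [← Fintype.card_sum]
  refine Fintype.card_le_of_injective
    (fun q : Md D L ⊕ Nm D L => (Sum.elim (fun p => ⟨p.1, p.2.1⟩) (fun m => ⟨(m.1, i m), hi m⟩) q :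
      Nz D L)) ?_
  rintro (p | m) (p' | m') h
  · have h1 : p.1 = p'.1 := congrArg (fun q : Nz D L => q.1) h
    exact congrArg Sum.inl (Subtype.ext h1)
  · exfalso
    have h1 : p.1 = (m'.1, i m') := congrArg (fun q : Nz D L => q.1) h
    obtain ⟨j, hj, hj2⟩ := p.2.2
    rw [h1] at hj hj2
    exact hj2 (hi2 m' j hj)
  · exfalso
    have h1 : (m.1, i m) = p'.1 := congrArg (fun q : Nz D L => q.1) h
    obtain ⟨j, hj, hj2⟩ := p'.2.2
    rw [← h1] at hj hj2
    exact hj2 (hi2 m j hj)
  · have h1 : (m.1, i m) = (m'.1, i m') := congrArg (fun q : Nz D L => q.1) h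
    exact congrArg Sum.inr (Subtype.ext (Prod.ext_iff.1 h1).1)

lemma card_Nz_le : Fintype.card (Nz D L) ≤ Fintype.card (Lk D L) := by
  classical
  have hlt : ∀ p : Nz D L, (p.1.1 p.1.2 : ℕ) - 1 < L := fun p => by
    have := (p.1.1 p.1.2).2
    omega
  refine Fintype.card_le_of_injective (fun p : Nz D L =>
    (⟨(Function.update p.1.1 p.1.2 ⟨(p.1.1 p.1.2 : ℕ) - 1, hlt p⟩, p.1.2), by
      have := (p.1.1 p.1.2).2
      have h2 := p.2
      simp only [Function.update_self]
      omega⟩ : Lk D L)) ?_
  rintro ⟨⟨m, i⟩, hm⟩ ⟨⟨m', i'⟩, hm'⟩ h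
  have h1 := congrArg Subtype.val h
  simp only [Prod.mk.injEq] at h1
  obtain ⟨h2, h3⟩ := h1
  subst h3
  have h4 : m = m' := by
    funext j
    by_cases hj : j = i
    · subst hj
      have := congrFun h2 j
      simp only [Function.update_self, Fin.mk.injEq] at this
      have e1 : (m j : ℕ) ≠ 0 := hm
      have e2 : (m' j : ℕ) ≠ 0 := hm'
      exact Fin.ext (by omega)
    · have := congrFun h2 j
      simpa [hj] using this
  subst h4
  rfl

/-- the number of zero modes -/
lemma card_zero : Fintype.card {l : Lk D L // kap D L l = 0} ≤ Fintype.card (Nm D L) := by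
  classical
  -- the combination of the zero modes
  obtain ⟨A, hA⟩ : ∃ A : ({l : Lk D L // kap D L l = 0} → ℝ) →ₗ[ℝ] (Lk D L → ℝ),
      ∀ a e, A a e = ∑ l, a l * bb D L l.1 e :=
    ⟨{ toFun := fun a e => ∑ l, a l * bb D L l.1 e
       map_add' := fun a b => by
        funext e
        simp only [Pi.add_apply, add_mul, sum_add_distrib]
       map_smul' := fun s a => by
        funext e
        simp only [Pi.smul_apply, smul_eq_mul, RingHom.id_apply, mul_sum, mul_assoc] }, fun a e => rfl⟩
  have hOm : ∀ a l, Om (A a) l = ∑ l' : {l : Lk D L // kap D L l = 0}, a l' * (if l = l'.1 then 1 else 0) := by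
    intro a l
    rw [Om_apply]
    simp only [hA, smul_eq_mul, mul_sum]
    rw [sum_comm]
    refine sum_congr rfl fun l' _ => ?_
    rw [← bb_orth, mul_sum]
    exact sum_congr rfl fun e _ => by ring
  have hpos : ∀ a l, 0 < kap D L l → Om (A a) l = 0 := by
    intro a l hl
    rw [hOm]
    refine sum_eq_zero fun l' _ => ?_
    rw [if_neg, mul_zero]
    rintro rfl
    exact hl.ne' l'.2
  have hhat : ∀ a, hatL (A a) = 0 := by
    intro a
    have h1 : hatL (A a) = hatL (0 : Lk D L → ℝ) := hatL_congr fun l hl => by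
      rw [hpos a l hl, map_zero]; rfl
    rw [h1, ← hatM_apply, map_zero]
  obtain ⟨Φ, hΦ⟩ : ∃ Φ : ({l : Lk D L // kap D L l = 0} → ℝ) →ₗ[ℝ] (Nm D L → ℝ),
      ∀ a m, Φ a m = pthM (cst m.1) (A a) :=
    ⟨{ toFun := fun a m => pthM (cst m.1) (A a)
       map_add' := fun a b => by
        funext m
        simp only [map_add, Pi.add_apply]
       map_smul' := fun s a => by
        funext m
        simp only [map_smul, Pi.smul_apply, RingHom.id_apply] }, fun a m => rfl⟩
  have hinj : Function.Injective Φ := by
    refine (injective_iff_map_eq_zero Φ).2 fun a ha => ?_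
    have hp : ∀ x : St D L, pthM (cst x) (A a) = 0 := by
      intro x
      by_cases hx : ∃ j, (x j : ℕ) ≠ 0
      · have := congrFun ha ⟨x, hx⟩
        rw [hΦ] at this
        exact this
      · push Not at hx
        have h0 : cst x = 0 := by
          funext j; exact hx j
        rw [h0, pthM_apply]
        unfold pthL sz
        simp [pth]
    have hzero : A a = 0 := by
      funext e
      have h1 := congrFun (hhat a) e
      rw [hatL_eq] at h1
      have h2 : pthL (A a) (cst (src e)) = 0 := by rw [← pthM_apply]; exact hp (src e)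
      have h3 : pthL (A a) (cst (tgt e)) = 0 := by rw [← pthM_apply]; exact hp (tgt e)
      rw [h2, h3] at h1
      simpa using h1
    funext l0
    have h4 := hOm a l0.1
    rw [hzero, map_zero] at h4
    rw [sum_eq_single l0] at h4
    · simp only [if_true, mul_one] at h4
      exact h4.symm
    · intro l _ hl
      rw [if_neg, mul_zero]
      exact fun h => hl (Subtype.ext h.symm)
    · intro h; exact absurd (mem_univ _) h
  have h1 := LinearMap.finrank_le_finrank_of_injective hinj
  rwa [Module.finrank_fintype_fun_eq_card, Module.finrank_fintype_fun_eq_card] at h1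

/-- the number of the modes with a given eigenvalue -/
lemma card_pos (hL : 0 < L) {κ : ℝ} (hκ : κ ≠ 0) : Fintype.card {l : Lk D L // kap D L l = κ} ≤
    Fintype.card {p : Md D L // lD p.1.1 = κ} := by
  classical
  obtain ⟨Φ, hΦ⟩ : ∃ Φ : ({l : Lk D L // kap D L l = κ} → ℝ) →ₗ[ℝ] ({p : Md D L // lD p.1.1 = κ} → ℝ),
      ∀ a p, Φ a p = bt (fun e => ∑ l, a l * bb D L l.1 e) p.1.1.2 p.1.1.1 := by
    have hlin : ∀ (a : {l : Lk D L // kap D L l = κ} → ℝ) (i : Fin D) (m : St D L),
        bt (fun e => ∑ l, a l * bb D L l.1 e) i m = ∑ l, a l * bt (bb D L l.1) i m := by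
      intro a i m
      rw [← sum_uf]
      simp only [← sum_uf, sum_mul, mul_sum]
      rw [sum_comm]
      exact sum_congr rfl fun l _ => sum_congr rfl fun e _ => by ring
    refine ⟨{ toFun := fun a p => bt (fun e => ∑ l, a l * bb D L l.1 e) p.1.1.2 p.1.1.1
              map_add' := fun a b => ?_
              map_smul' := fun s a => ?_ }, fun a p => rfl⟩
    · funext p
      show bt (fun e => ∑ l, (a + b) l * bb D L l.1 e) p.1.1.2 p.1.1.1 =
        bt (fun e => ∑ l, a l * bb D L l.1 e) p.1.1.2 p.1.1.1 +
          bt (fun e => ∑ l, b l * bb D L l.1 e) p.1.1.2 p.1.1.1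
      rw [hlin, hlin, hlin]
      simp only [Pi.add_apply, add_mul, sum_add_distrib]
    · funext p
      show bt (fun e => ∑ l, (s • a) l * bb D L l.1 e) p.1.1.2 p.1.1.1 =
        s • bt (fun e => ∑ l, a l * bb D L l.1 e) p.1.1.2 p.1.1.1
      rw [hlin, hlin]
      simp only [Pi.smul_apply, smul_eq_mul, mul_sum]
      exact sum_congr rfl fun l _ => by ring
  have hinj : Function.Injective Φ := by
    refine (injective_iff_map_eq_zero Φ).2 fun a ha => ?_
    obtain ⟨A, hA⟩ : ∃ A : Lk D L → ℝ, A = fun e => ∑ l, a l * bb D L l.1 e := ⟨_, rfl⟩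
    have hE : Eig A κ := by
      rw [hA]
      exact eig_sum univ a (fun l => bb D L l.1) fun l _ => by
        have := eig_bb l.1
        rw [l.2] at this
        exact this
    -- the components which are not the first one
    have hnf : ∀ (i : Fin D) (m : St D L), (∃ j < i, (m j : ℕ) ≠ 0) → bt A i m = 0 := by
      intro i m hj
      by_contra hb
      have h2 := eig_val hL hE hκ i m hb
      have h3 : (m i : ℕ) ≠ 0 := fun h => hb (bt_zero A i m h)
      have h4 := congrFun ha ⟨⟨(m, i), ⟨h3, hj⟩⟩, h2⟩
      rw [hΦ, ← hA] at h4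
      exact hb h4
    have h1 : A = 0 := by
      refine bt_complete _ fun i m => ?_
      by_cases hj : ∃ j < i, (m j : ℕ) ≠ 0
      · exact hnf i m hj
      · by_cases hi : (m i : ℕ) = 0
        · exact bt_zero A i m hi
        · have hdiv := eig_div hE hκ m
          rw [sum_eq_single i] at hdiv
          · exact hdiv
          · intro k _ hk
            rcases lt_or_gt_of_ne hk with h | h
            · have : (m k : ℕ) = 0 := by
                by_contra hc
                exact hj ⟨k, h, hc⟩
              exact bt_zero A k m this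
            · exact hnf k m ⟨i, h, hi⟩
          · intro h; exact absurd (mem_univ _) h
    funext l0
    have h4 : ∑ e, bb D L l0.1 e * (∑ l, a l * bb D L l.1 e) = 0 := by
      refine sum_eq_zero fun e _ => ?_
      have := congrFun h1 e
      rw [hA] at this
      simp only [Pi.zero_apply] at this
      rw [this, mul_zero]
    have h5 : ∑ e, bb D L l0.1 e * (∑ l, a l * bb D L l.1 e) = a l0 := by
      simp only [mul_sum]
      rw [sum_comm]
      calc ∑ l, ∑ e, bb D L l0.1 e * (a l * bb D L l.1 e) =
          ∑ l : {l : Lk D L // kap D L l = κ}, a l * (if l0.1 = l.1 then 1 else 0) := by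
            refine sum_congr rfl fun l _ => ?_
            rw [← bb_orth, mul_sum]
            exact sum_congr rfl fun e _ => by ring
        _ = a l0 := by
            rw [sum_eq_single l0]
            · simp
            · intro l _ hl
              rw [if_neg, mul_zero]
              exact fun h => hl (Subtype.ext h.symm)
            · intro h; exact absurd (mem_univ _) h
    rw [h4] at h5
    exact h5.symm
  have h1 := LinearMap.finrank_le_finrank_of_injective hinj
  rwa [Module.finrank_fintype_fun_eq_card, Module.finrank_fintype_fun_eq_card] at h1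

lemma lD_pos_Md (hL : 0 < L) (p : Md D L) : 0 < lD p.1.1 := by
  have h1 : lN L 1 ≤ lN L (p.1.1 p.1.2) := lN_mono hL (by have := p.2.1; omega) (p.1.1 p.1.2).2
  have h3 : 0 < lN L (p.1.1 p.1.2) := by
    rcases (lN_nonneg (L := L) (p.1.1 p.1.2 : ℕ)).eq_or_lt with h | h
    · exfalso
      have h4 : lN L (p.1.1 p.1.2) = lN L 0 := by
        rw [← h]; simp [lN]
      exact p.2.1 (lN_strict hL (p.1.1 p.1.2).2 hL h4)
    · exact h
  unfold lD
  exact lt_of_lt_of_le h3 (single_le_sum (f := fun j => lN L (p.1.1 j))
    (fun j _ => lN_nonneg _) (mem_univ p.1.2))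

/-- **The exact counting of the modes.** -/
theorem count_eq (hL : 0 < L) {κ : ℝ} (hκ : κ ≠ 0) : (univ.filter fun l : Lk D L => kap D L l = κ).card =
    (univ.filter fun p : Md D L => lD p.1.1 = κ).card := by
  classical
  have hle : ∀ κ : ℝ, κ ≠ 0 → (univ.filter fun l : Lk D L => kap D L l = κ).card ≤
      (univ.filter fun p : Md D L => lD p.1.1 = κ).card := by
    intro κ hκ
    have := card_pos (D := D) hL hκ
    rwa [Fintype.card_subtype, Fintype.card_subtype] at this
  -- the values
  obtain ⟨V, hV⟩ : ∃ V : Finset ℝ, V = ((univ.image fun l : Lk D L => kap D L l) ∪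
    (univ.image fun p : Md D L => lD p.1.1) ∪ {κ}).erase 0 := ⟨_, rfl⟩
  have hsum1 : (univ.filter fun l : Lk D L => kap D L l ≠ 0).card =
      ∑ v ∈ V, (univ.filter fun l : Lk D L => kap D L l = v).card := by
    rw [card_eq_sum_card_fiberwise (f := fun l => kap D L l) (t := V)]
    · refine sum_congr rfl fun v hv => ?_
      congr 1
      ext l
      simp only [mem_filter, mem_univ, true_and]
      constructor
      · exact fun h => h.2
      · intro h
        refine ⟨?_, h⟩
        rw [h]
        rw [hV] at hv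
        exact (mem_erase.1 hv).1
    · intro l hl
      rw [hV]
      simp only [coe_filter, mem_univ, true_and, Set.mem_ofPred_eq] at hl
      simp [hl]
  have hsum2 : Fintype.card (Md D L) =
      ∑ v ∈ V, (univ.filter fun p : Md D L => lD p.1.1 = v).card := by
    rw [← card_univ, card_eq_sum_card_fiberwise (f := fun p : Md D L => lD p.1.1) (t := V)]
    intro p _
    rw [hV]
    have := (lD_pos_Md hL p).ne'
    simp [this]
  have hle2 : ∑ v ∈ V, (univ.filter fun l : Lk D L => kap D L l = v).card ≤
      ∑ v ∈ V, (univ.filter fun p : Md D L => lD p.1.1 = v).card :=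
    sum_le_sum fun v hv => hle v (by rw [hV] at hv; exact (mem_erase.1 hv).1)
  have hge : ∑ v ∈ V, (univ.filter fun p : Md D L => lD p.1.1 = v).card ≤
      ∑ v ∈ V, (univ.filter fun l : Lk D L => kap D L l = v).card := by
    rw [← hsum1, ← hsum2]
    have h1 := card_zero (D := D) (L := L)
    have h2 := card_Nz_ge (D := D) (L := L)
    have h3 := card_Nz_le (D := D) (L := L)
    rw [Fintype.card_subtype] at h1
    have h4 : (univ.filter fun l : Lk D L => kap D L l = 0).card +
        (univ.filter fun l : Lk D L => kap D L l ≠ 0).card = Fintype.card (Lk D L) := by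
      rw [← card_univ]
      exact card_filter_add_card_filter_not (fun l : Lk D L => kap D L l = 0)
    omega
  have heq := (sum_eq_sum_iff_of_le fun v hv => hle v (by rw [hV] at hv; exact (mem_erase.1 hv).1)).1
    (le_antisymm hle2 hge)
  refine heq κ ?_
  rw [hV]
  simp [hκ]

/-- **Products over the modes.** -/
theorem prod_modes (hL : 0 < L) (h : ℝ → ℝ) :
    ∏ l : Lk D L, (if 0 < kap D L l then h (kap D L l) else 1) = ∏ p : Md D L, h (lD p.1.1) := by
  classical
  rw [prod_ite, prod_const_one, mul_one, prod_comp h fun p : Md D L => lD p.1.1,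
    prod_comp h fun l : Lk D L => kap D L l]
  have him : (univ.filter fun l : Lk D L => 0 < kap D L l).image (fun l : Lk D L => kap D L l) =
      univ.image fun p : Md D L => lD p.1.1 := by
    ext v
    simp only [mem_image, mem_filter, mem_univ, true_and]
    constructor
    · rintro ⟨l, hl, rfl⟩
      have h1 : 0 < (univ.filter fun l' : Lk D L => kap D L l' = kap D L l).card :=
        Finset.card_pos.2 ⟨l, by simp⟩
      rw [count_eq hL hl.ne'] at h1
      obtain ⟨p, hp⟩ := Finset.card_pos.1 h1
      exact ⟨p, (mem_filter.1 hp).2⟩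
    · rintro ⟨p, rfl⟩
      have hp := lD_pos_Md hL p
      have h1 : 0 < (univ.filter fun p' : Md D L => lD p'.1.1 = lD p.1.1).card :=
        Finset.card_pos.2 ⟨p, by simp⟩
      rw [← count_eq hL hp.ne'] at h1
      obtain ⟨l, hl⟩ := Finset.card_pos.1 h1
      have hl2 := (mem_filter.1 hl).2
      exact ⟨l, by rw [hl2]; exact hp, hl2⟩
  rw [him]
  refine prod_congr rfl fun v hv => ?_
  obtain ⟨p, _, rfl⟩ := mem_image.1 hv
  have hp := lD_pos_Md hL p
  rw [← count_eq hL hp.ne', filter_filter]
  congr 2
  ext l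
  simp only [mem_filter, mem_univ, true_and]
  constructor
  · exact fun h => h.2
  · intro h
    exact ⟨by rw [h]; exact hp, h⟩

end

end Pool.Agent.T2H02.Lev
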