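import Mathlib
import Pool.Agent.T2H02.Gap.Main
import Pool.Agent.T2H02.Lev.Count
import Pool.Agent.T2H02.Lev.Cont

/-!
# The traces and the partition function of the free theory
-/

open MeasureTheory Filter Finset
open scoped Matrix.Norms.Frobenius Topology
open Pool.Agent.H906R3.YM Pool.Agent.W793.YM Pool.Agent.TH618.YM Pool.Agent.T2H02.Gap

namespace Pool.Agent.T2H02.Lev

set_option linter.unusedSectionVars false
set_option linter.unusedVariables false

noncomputable section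

variable {N n D L : ℕ} {G : Subgroup (UN N)}
variable [CompactSpace G] [SecondCountableTopology G] [MeasurableSpace G] [BorelSpace G]

/-- the partition function of the free theory with holonomy `P` -/
def FR (B : Frame G n) (D L : ℕ) (t : ℝ) (P : G) : ℝ :=
  ∏ p : LMode D L, 1 / |(1 - Real.exp (-(t * freqL D L p)) • adm B P).det|

lemma lD_nonneg (m : St D L) : 0 ≤ lD m := by
  unfold lD
  exact Finset.sum_nonneg fun j _ => lN_nonneg _

lemma lam_lD (p : LMode D L) : lam (lD p.1.1) = Real.exp (-freqL D L p) := by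
  unfold lam freqL lD lN
  congr 2
  have h : ∑ j, 4 * Real.sin (Real.pi * ((p.1.1 j : ℕ) : ℝ) / (2 * L)) ^ 2 =
      2 ^ 2 * ∑ i, Real.sin (Real.pi * (p.1.1 i : ℕ) / (2 * L)) ^ 2 := by
    rw [mul_sum]
    exact sum_congr rfl fun j _ => by norm_num
  rw [h, Real.sqrt_mul (by positivity), Real.sqrt_sq (by norm_num)]
  congr 2
  ring

lemma RR_eq (hL : 0 < L) (B : Frame G n) (τ : ℕ) (P : G) : RR B D L τ P = FR B D L τ P := by
  obtain ⟨hh, hhd⟩ : ∃ hh : ℝ → ℝ, ∀ κ, hh κ =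
      1 / |LinearMap.det (LinearMap.id - (lam κ ^ τ) • adL B P)| := ⟨_, fun _ => rfl⟩
  have h1 : RR B D L τ P = ∏ l : Lk D L, if 0 < kap D L l then hh (kap D L l) else 1 := by
    unfold RR
    refine prod_congr rfl fun l _ => ?_
    unfold qv
    split_ifs
    · rw [hhd]
    · rw [zero_smul, sub_zero, LinearMap.det_id]
      norm_num
  rw [h1, prod_modes hL hh]
  unfold FR
  refine prod_congr rfl fun p _ => ?_
  rw [hhd, det_adm, lam_lD, ← Real.exp_nat_mul]
  have : (τ : ℝ) * -freqL D L p = -(τ * freqL D L p) := by ring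
  rw [this]

lemma adm_le' (B : Frame G n) (P : G) (i k : Fin n) : |adm B P i k| ≤ 1 := adm_le B P i k

/-- **A bound uniform in the volume.** -/
theorem RR_bound (B : Frame G n) (D : ℕ) (μ : Measure G) [IsProbabilityMeasure μ] :
    ∃ (A : ℕ) (Bd : ℝ), 1 ≤ A ∧ 1 ≤ Bd ∧ ∀ L : ℕ, 2 ≤ L →
      ∫ P, RR B D L (2 * (A * L)) P ∂μ ≤ Bd := by
  obtain ⟨C, q0, hC, hq0, hq01, h⟩ := prod_expand n
  obtain ⟨c, hc⟩ : ∃ c, c = CS D := ⟨_, rfl⟩
  have hc0 : 0 ≤ c := by rw [hc]; exact CS_nonneg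
  obtain ⟨A, hA⟩ := exists_nat_ge ((c + 1) / q0)
  have hA' : c + 1 ≤ A * q0 := by rwa [div_le_iff₀ hq0] at hA
  have hAge : (1 : ℝ) ≤ A := by
    have hA0 : (0 : ℝ) ≤ A := Nat.cast_nonneg A
    have := mul_le_mul_of_nonneg_left hq01 hA0
    linarith
  have hAp : (0 : ℝ) < A := by linarith
  have hAn : 1 ≤ A := by exact_mod_cast hAge
  have hexpA : Real.exp (-(A : ℝ)) ≤ 1 / A := by
    rw [Real.exp_neg, one_div]
    refine inv_anti₀ hAp ?_
    have := Real.add_one_le_exp (A : ℝ)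
    linarith
  have hn : (0 : ℝ) ≤ n := Nat.cast_nonneg n
  refine ⟨A, 1 + n + (n ^ 2 + n ^ 2) / 2 + C, hAn, by
    have : (0 : ℝ) ≤ (n ^ 2 + n ^ 2) / 2 := by positivity
    linarith, fun L hL => ?_⟩
  have hAL : 1 ≤ A * L := Nat.mul_pos (by omega) (by omega)
  obtain ⟨m, hm⟩ : ∃ m, A * L = m + 1 := ⟨A * L - 1, by omega⟩
  rw [hm]
  obtain ⟨q, hq⟩ : ∃ q, q = lam (kmin L) ^ (2 * (m + 1)) := ⟨_, rfl⟩
  have hqp : 0 < q := by rw [hq]; exact pow_pos (lam_pos _) _
  have hqA : q ≤ 1 / A := by rw [hq]; exact (q1_small hL (by omega)).trans hexpA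
  have hLm : L ≤ 2 * (m + 1) := by
    have : 1 * L ≤ A * L := Nat.mul_le_mul_right L hAn
    omega
  have hS : ∑ l, qv D L (2 * (m + 1)) l ≤ c * q := by
    rw [hc, hq]
    exact sum_lam (by omega) hLm
  have hS0 : 0 ≤ ∑ l, qv D L (2 * (m + 1)) l := Finset.sum_nonneg fun l _ => qv_nonneg _ l
  have hcq : c * q ≤ q0 := by
    have h1 : c * q ≤ c * (1 / A) := mul_le_mul_of_nonneg_left hqA hc0
    have h2 : c * (1 / (A : ℝ)) ≤ q0 := by
      rw [mul_one_div, div_le_iff₀ hAp]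
      linarith
    linarith
  obtain ⟨S, hSd⟩ : ∃ S, S = ∑ l, qv D L (2 * (m + 1)) l := ⟨_, rfl⟩
  obtain ⟨S2, hS2d⟩ : ∃ S2, S2 = ∑ l, qv D L (2 * (m + 1)) l ^ 2 := ⟨_, rfl⟩
  have hS1 : S ≤ 1 := by rw [hSd]; linarith
  have hS0' : 0 ≤ S := by rw [hSd]; exact hS0
  have hS20 : 0 ≤ S2 := by rw [hS2d]; exact Finset.sum_nonneg fun l _ => sq_nonneg _
  have hS21 : S2 ≤ 1 := by
    have h1 : S2 ≤ S ^ 2 := by
      rw [hS2d, hSd, sq (∑ l, qv D L (2 * (m + 1)) l), Finset.sum_mul]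
      refine Finset.sum_le_sum fun l _ => ?_
      rw [sq]
      exact mul_le_mul_of_nonneg_left (Finset.single_le_sum (fun l _ => qv_nonneg _ l)
        (Finset.mem_univ l)) (qv_nonneg _ l)
    have h2 : S ^ 2 ≤ 1 := pow_le_one₀ hS0' hS1
    linarith
  have hpt : ∀ P : G, RR B D L (2 * (m + 1)) P ≤ 1 + n + (n ^ 2 + n ^ 2) / 2 + C := by
    intro P
    have h1 := h (adm B P) (adm_le B P) (Lk D L) (qv D L (2 * (m + 1))) (fun l => qv_nonneg _ l)
      (hS.trans hcq)
    have h2 : RR B D L (2 * (m + 1)) P = ∏ e, 1 / |(1 - qv D L (2 * (m + 1)) e • adm B P).det| := by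
      unfold RR
      exact prod_congr rfl fun l _ => by rw [det_adm]
    rw [← h2, ← hSd, ← hS2d] at h1
    have htr : |Matrix.trace (adm B P)| ≤ n := by
      unfold Matrix.trace
      calc |∑ i, (adm B P).diag i| ≤ ∑ i, |(adm B P).diag i| := Finset.abs_sum_le_sum_abs _ _
        _ ≤ ∑ _i : Fin n, (1 : ℝ) := Finset.sum_le_sum fun i _ => adm_le B P i i
        _ = n := by simp
    have htr2 : |Matrix.trace (adm B P * adm B P)| ≤ n ^ 2 := by
      unfold Matrix.trace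
      calc |∑ i, (adm B P * adm B P).diag i| ≤ ∑ i, |(adm B P * adm B P).diag i| :=
            Finset.abs_sum_le_sum_abs _ _
        _ ≤ ∑ _i : Fin n, (n : ℝ) := by
            refine Finset.sum_le_sum fun i _ => ?_
            rw [Matrix.diag_apply, Matrix.mul_apply]
            calc |∑ j, adm B P i j * adm B P j i| ≤ ∑ j, |adm B P i j * adm B P j i| :=
                  Finset.abs_sum_le_sum_abs _ _
              _ ≤ ∑ _j : Fin n, (1 : ℝ) := by
                  refine Finset.sum_le_sum fun j _ => ?_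
                  rw [abs_mul]
                  exact mul_le_one₀ (adm_le B P i j) (abs_nonneg _) (adm_le B P j i)
              _ = n := by simp
        _ = n ^ 2 := by simp [sq]
    have h3 : S * Matrix.trace (adm B P) ≤ n := by
      calc S * Matrix.trace (adm B P) ≤ S * n := mul_le_mul_of_nonneg_left (abs_le.1 htr).2 hS0'
        _ ≤ 1 * n := mul_le_mul_of_nonneg_right hS1 hn
        _ = n := one_mul _
    have h4 : S ^ 2 * Matrix.trace (adm B P) ^ 2 ≤ n ^ 2 := by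
      have h5 : Matrix.trace (adm B P) ^ 2 ≤ n ^ 2 := sq_le_sq' (abs_le.1 htr).1 (abs_le.1 htr).2
      calc S ^ 2 * Matrix.trace (adm B P) ^ 2 ≤ 1 * n ^ 2 :=
            mul_le_mul (pow_le_one₀ hS0' hS1) h5 (sq_nonneg _) (by norm_num)
        _ = n ^ 2 := one_mul _
    have h6 : S2 * Matrix.trace (adm B P * adm B P) ≤ n ^ 2 := by
      calc S2 * Matrix.trace (adm B P * adm B P) ≤ S2 * n ^ 2 :=
            mul_le_mul_of_nonneg_left (abs_le.1 htr2).2 hS20
        _ ≤ 1 * n ^ 2 := mul_le_mul_of_nonneg_right hS21 (by positivity)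
        _ = n ^ 2 := one_mul _
    have h7 : C * S ^ 3 ≤ C := by
      calc C * S ^ 3 ≤ C * 1 := mul_le_mul_of_nonneg_left (pow_le_one₀ hS0' hS1) hC
        _ = C := mul_one _
    have h8 := (abs_le.1 h1).2
    linarith
  calc ∫ P, RR B D L (2 * (m + 1)) P ∂μ ≤
      ∫ _P, (1 + n + (n ^ 2 + n ^ 2) / 2 + C : ℝ) ∂μ := by
        refine integral_mono_of_nonneg (Eventually.of_forall fun P => ?_) (integrable_const _)
          (Eventually.of_forall hpt)
        unfold RR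
        exact Finset.prod_nonneg fun l _ => by positivity
    _ = _ := by simp

lemma qv_lt_one {τ : ℕ} (hτ : 0 < τ) (l : Lk D L) : qv D L τ l < 1 := by
  unfold qv
  split_ifs with h
  · exact pow_lt_one₀ (lam_pos _).le (lam_lt_one h) (by omega)
  · exact one_pos

lemma RR_cont (B : Frame G n) {τ : ℕ} (hτ : 0 < τ) : Continuous fun P : G => RR B D L τ P := by
  unfold RR
  refine continuous_finsetProd _ fun l _ => ?_
  have hadm : Continuous fun P : G => adm B P := continuous_matrix fun i j => adm_cont B i j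
  have h1 : Continuous fun P : G => (1 - qv D L τ l • adm B P).det :=
    Continuous.matrix_det (continuous_const.sub (hadm.const_smul (qv D L τ l)))
  have h2 : ∀ P : G, |LinearMap.det (LinearMap.id - qv D L τ l • adL B P)| ≠ 0 := fun P =>
    abs_ne_zero.2 (det_ne_zero (fun v => norm_adL B P v) (qv_nonneg τ l) (qv_lt_one hτ l))
  have h3 : Continuous fun P : G => |LinearMap.det (LinearMap.id - qv D L τ l • adL B P)| := by
    have : (fun P : G => |LinearMap.det (LinearMap.id - qv D L τ l • adL B P)|) =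
        fun P => |(1 - qv D L τ l • adm B P).det| := by
      funext P; rw [det_adm]
    rw [this]
    exact h1.abs
  exact continuous_const.div h3 h2

/-- **The traces of the transfer matrix at weak coupling**, with the exact leading term. -/
theorem trace_RR (D : ℕ) (B : Frame G n) (hG : IsClosed (G : Set (UN N)))
    (μ : Measure G) [IsProbabilityMeasure μ] [μ.IsHaarMeasure] :
    ∃ C : ℝ, 1 ≤ C ∧ ∀ (L : ℕ) (Y b : ℝ), 1 ≤ Y → (L : ℝ) ≤ Y →
      C * Y ^ (2 * D + 6) ≤ b → ∃ b0 : ℝ, 0 < b0 ∧ ∀ m : ℕ, 2 * ((m : ℝ) + 1) ≤ Y →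
      (1 - (b ^ 3)⁻¹) * (∫ P, RR B D L (2 * (m + 1)) P ∂μ) * b0 ^ (m + 1) ≤
        ∫ P, ZP μ D L (2 * m + 1) (b ^ 24) P ∂μ ∧
      ∫ P, ZP μ D L (2 * m + 1) (b ^ 24) P ∂μ ≤
        (1 + (b ^ 3)⁻¹) * (∫ P, RR B D L (2 * (m + 1)) P ∂μ) * b0 ^ (m + 1) := by
  obtain ⟨κ, C', r0, hCh⟩ := exists_Ch B hG μ
  obtain ⟨C1, hC1, hlap⟩ := lap_rel D B hG μ hCh
  have hκ := hCh.κpos
  refine ⟨C1, hC1, ?_⟩
  intro L Y b hY hLY hb1
  have hYp : 0 < Y ^ (2 * D + 6) := by positivity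
  have hbpos : 0 < b := lt_of_lt_of_le (by positivity) hb1
  have hbone : 1 ≤ b := by
    refine le_trans ?_ hb1
    exact one_le_mul_of_one_le_of_one_le hC1 (one_le_pow₀ hY)
  have hinvb : (b ^ 3)⁻¹ ≤ 1 := inv_le_one_of_one_le₀ (one_le_pow₀ hbone)
  refine ⟨b0 n D L κ b, b0_pos hκ hbpos, ?_⟩
  intro m hmY
  have h3 : Integrable (fun P => RR B D L (2 * (m + 1)) P) μ := cint μ (RR_cont B (by omega))
  obtain ⟨b1, hb1d⟩ : ∃ b1, b1 = b0 n D L κ b ^ (m + 1) := ⟨_, rfl⟩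
  have hb1p : 0 < b1 := by rw [hb1d]; exact pow_pos (b0_pos hκ hbpos) _
  have hY2 : ((2 * m + 1 : ℕ) : ℝ) + 1 ≤ Y := by
    push_cast; linarith
  have hL2 := fun P => hlap L (2 * m + 1) Y b hY hLY hY2 hb1 P
  have hJ : ∀ P : G, κ ^ ((2 * m + 1 + 1) * Fintype.card (Lk D L)) *
      ((b ^ 12) ^ ((2 * m + 1 + 1) * Fintype.card (Lk D L) * n))⁻¹ * JP B D L (2 * m + 1) P =
      b1 * RR B D L (2 * (m + 1)) P := by
    intro P
    rw [JP_RR, hb1d, b0_pow]
    ring
  rw [← hb1d]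
  have hZi : Integrable (fun P => ZP μ D L (2 * m + 1) (b ^ 24) P) μ :=
    cint μ (ZP_cont μ (2 * m + 1) (b ^ 24))
  constructor
  · calc (1 - (b ^ 3)⁻¹) * (∫ P, RR B D L (2 * (m + 1)) P ∂μ) * b1 =
          (1 - (b ^ 3)⁻¹) * b1 * ∫ P, RR B D L (2 * (m + 1)) P ∂μ := by ring
      _ = ∫ P, (1 - (b ^ 3)⁻¹) * b1 * RR B D L (2 * (m + 1)) P ∂μ := (integral_const_mul _ _).symm
      _ ≤ ∫ P, ZP μ D L (2 * m + 1) (b ^ 24) P ∂μ := by
          refine integral_mono (h3.const_mul _) hZi fun P => ?_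
          have := (hL2 P).2.1
          rw [hJ P] at this
          simp only
          linarith
  · calc ∫ P, ZP μ D L (2 * m + 1) (b ^ 24) P ∂μ ≤
        ∫ P, (1 + (b ^ 3)⁻¹) * b1 * RR B D L (2 * (m + 1)) P ∂μ := by
          refine integral_mono hZi (h3.const_mul _) fun P => ?_
          have := (hL2 P).2.2
          rw [hJ P] at this
          simp only
          linarith
      _ = (1 + (b ^ 3)⁻¹) * b1 * ∫ P, RR B D L (2 * (m + 1)) P ∂μ := integral_const_mul _ _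
      _ = _ := by ring

end

end Pool.Agent.T2H02.Lev
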