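import Mathlib
import Pool.Agent.T2H02.Lev.Num
import Pool.Agent.T2H02.Lev.Fock
import Pool.Agent.T2H02.Lev.Eig2
import Pool.Agent.T2H02.Lev.TraceR

/-!
# All levels of the transfer matrix
-/

open MeasureTheory Filter Function
open scoped Matrix.Norms.Frobenius Topology RealInnerProductSpace
open Pool.Agent.H906R3.YM Pool.Agent.W793.YM Pool.Agent.TH618.YM Pool.Agent.T2H02.Gap

namespace Pool.Agent.T2H02.Lev

set_option linter.unusedSectionVars false
set_option linter.unusedVariables false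

noncomputable section

variable {N n D L : ℕ} {G : Subgroup (UN N)}
variable [CompactSpace G] [SecondCountableTopology G] [MeasurableSpace G] [BorelSpace G]

lemma adm_one (B : Frame G n) : adm B 1 = 1 := by
  ext i k
  have h : adL B 1 (EuclideanSpace.single k (1 : ℝ)) = EuclideanSpace.single k 1 := adL_one B _
  show ⟪EuclideanSpace.single i (1 : ℝ), adL B 1 (EuclideanSpace.single k (1 : ℝ))⟫ = _
  rw [h, EuclideanSpace.inner_single_left, Matrix.one_apply]
  simp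

lemma adm_orth (B : Frame G n) (P : G) : (adm B P).transpose * adm B P = 1 := by
  have h : (adm B P).transpose = adm B P⁻¹ := by
    ext i k
    rw [Matrix.transpose_apply, T2H02.Gap.adm_inv]
  rw [h, ← adm_mul, inv_mul_cancel, adm_one]

lemma adm_cont' (B : Frame G n) : Continuous (adm B) := continuous_matrix fun i j => adm_cont B i j

/-- the lowest mode -/
lemma exists_lowest (hD : 2 ≤ D) (hL : 2 ≤ L) : ∃ p : LMode D L,
    freqL D L p = 2 * Real.arsinh (Real.sqrt 2 * Real.sin (Real.pi / (2 * L))) := by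
  classical
  obtain ⟨i0, hi0⟩ : ∃ i : Fin D, (i : ℕ) = 0 := ⟨⟨0, by omega⟩, rfl⟩
  obtain ⟨i1, hi1⟩ : ∃ i : Fin D, (i : ℕ) = 1 := ⟨⟨1, by omega⟩, rfl⟩
  have h01 : i0 < i1 := by rw [Fin.lt_def]; omega
  obtain ⟨z, hz⟩ : ∃ z : Fin L, (z : ℕ) = 0 := ⟨⟨0, by omega⟩, rfl⟩
  obtain ⟨u, hu⟩ : ∃ u : Fin L, (u : ℕ) = 1 := ⟨⟨1, by omega⟩, rfl⟩
  obtain ⟨m, hm⟩ : ∃ m : Fin D → Fin L, m = fun i => if i = i0 ∨ i = i1 then u else z := ⟨_, rfl⟩
  have hm0 : (m i0 : ℕ) = 1 := by rw [hm]; simp [hu]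
  have hm1 : (m i1 : ℕ) = 1 := by rw [hm]; simp [hu]
  refine ⟨⟨(m, i1), by show (m i1 : ℕ) ≠ 0; omega, i0, h01, by show (m i0 : ℕ) ≠ 0; omega⟩, ?_⟩
  unfold freqL
  simp only
  have hsum : ∑ i, Real.sin (Real.pi * ((m i : ℕ) : ℝ) / (2 * L)) ^ 2 =
      2 * Real.sin (Real.pi / (2 * L)) ^ 2 := by
    have h1 : ∀ i, Real.sin (Real.pi * ((m i : ℕ) : ℝ) / (2 * L)) ^ 2 =
        (if i = i0 then Real.sin (Real.pi / (2 * L)) ^ 2 else 0) +
        (if i = i1 then Real.sin (Real.pi / (2 * L)) ^ 2 else 0) := by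
      intro i
      by_cases h0 : i = i0
      · subst h0
        rw [hm0, if_pos rfl, if_neg h01.ne]; simp
      · by_cases h1 : i = i1
        · subst h1
          rw [hm1, if_neg h0, if_pos rfl]; simp
        · have : (m i : ℕ) = 0 := by rw [hm]; simp [h0, h1, hz]
          rw [this, if_neg h0, if_neg h1]; simp
    rw [Finset.sum_congr rfl fun i _ => h1 i, Finset.sum_add_distrib, Finset.sum_ite_eq',
      Finset.sum_ite_eq']
    simp only [Finset.mem_univ, if_true]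
    ring
  have hsin : 0 ≤ Real.sin (Real.pi / (2 * L)) := by
    have hL' : (2 : ℝ) ≤ L := by exact_mod_cast hL
    have hp := Real.pi_pos
    refine Real.sin_nonneg_of_nonneg_of_le_pi (by positivity) ?_
    rw [div_le_iff₀ (by positivity)]
    nlinarith
  rw [hsum, Real.sqrt_mul (by norm_num), Real.sqrt_sq hsin]

lemma freqL_pos (hL : 0 < L) (p : LMode D L) : 0 < freqL D L p := by
  have h := lD_pos_Md hL p
  have h1 := lam_lt_one h
  rw [lam_lD, Real.exp_lt_one_iff] at h1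
  linarith

/-- **The levels of the transfer matrix.** -/
theorem lev_main (hD : 2 ≤ D) (B : Frame G n) (hn : 0 < n) (hG : IsClosed (G : Set (UN N)))
    (μ : Measure G) [IsProbabilityMeasure μ] [μ.IsHaarMeasure] (k : ℕ) :
    ∃ C : ℝ, 1 ≤ C ∧ ∀ L : ℕ, 2 ≤ L → ∀ β : ℝ, C * (L : ℝ) ^ (96 * D + 288) ≤ β →
      0 < lev (opT (νm μ D L) (KK μ β) (KK_cont μ β)) k ∧
      |1 / 2 * Real.log (lev (opT (νm μ D L) (KK μ β) (KK_cont μ β)) 0 /
        lev (opT (νm μ D L) (KK μ β) (KK_cont μ β)) k) - flev (freqL D L) (adm B) k| ≤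
        C / (L * Real.log β) := by
  obtain ⟨C1, hC1, htr⟩ := trace_RR D B hG μ
  obtain ⟨A, Bd, hA, hBd, hbd⟩ := RR_bound B D μ
  obtain ⟨l0, c0, hl0, hc0, hnum0⟩ := lev_num A hA Bd hBd 1 le_rfl 0
  obtain ⟨l1, c1, hl1, hc1, hnum1⟩ := lev_num A hA Bd hBd (20 * k + 1) (by
    have : (0 : ℝ) ≤ k := Nat.cast_nonneg k
    linarith) k
  obtain ⟨C2, hC2, hsc⟩ := scales C1 (max l0 l1) hC1 (le_trans hl0 (le_max_left _ _)) (2 * D + 6)
    (by omega)
  refine ⟨max C2 (4 * (c0 + c1)), le_trans hC2 (le_max_left _ _), ?_⟩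
  intro L hL β hβ
  have hL' : (2 : ℝ) ≤ L := by exact_mod_cast hL
  have hLp : (0 : ℝ) < L := by linarith
  have : NeZero L := ⟨by omega⟩
  have hpow : 96 * D + 288 = 48 * (2 * D + 6) := by ring
  rw [hpow] at hβ
  obtain ⟨b, l, hb1, hb24, hl, hlβ, hexp, hCb⟩ := hsc L hL β
    ((mul_le_mul_of_nonneg_right (le_max_left _ _) (by positivity)).trans hβ)
  have hll0 : l0 ≤ l := (le_max_left _ _).trans hl
  have hll1 : l1 ≤ l := (le_max_right _ _).trans hl
  have hlpos : 0 < l := by linarith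
  have hY1 : 1 ≤ 4 * l * (L : ℝ) := by
    have : 1 * 1 ≤ l * (L : ℝ) := mul_le_mul (by linarith) (by linarith) (by norm_num) hlpos.le
    linarith
  have hY2 : (L : ℝ) ≤ 4 * l * L := by
    have : 1 * (L : ℝ) ≤ 4 * l * L := mul_le_mul_of_nonneg_right (by linarith) hLp.le
    linarith
  obtain ⟨b0, hb0, hz⟩ := htr L (4 * l * L) b hY1 hY2 hCb
  obtain ⟨T, hT⟩ : ∃ T, T = opT (νm μ D L) (KK μ β) (KK_cont μ β) := ⟨_, rfl⟩
  rw [← hT]
  have hK : Kern T (νm μ D L) (col (νm μ D L) (KK μ β) (KK_cont μ β)) := by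
    rw [hT]; exact kern_opT (νm μ D L) (KK_cont μ β) (KK_symm μ β)
  have hsumT : ∀ m, 1 ≤ m → HasSum (fun k => lev T k ^ (m + 1))
      (∫ P, ZP μ D L (2 * m + 1) β P ∂μ) := by
    intro m hm
    have h := hasSum_lev (νm μ D L) (KK_cont μ β) (KK_symm μ β) m hm
    rw [zt_eq (νm μ D L) (KK_cont μ β) (KK_symm μ β), trace_KK, ← hT] at h
    exact h
  -- the free theory
  obtain ⟨p0, hp0⟩ := exists_lowest hD hL
  obtain ⟨hmono, hf0, hfle, hfsum⟩ := fock (freqL D L) (fun p => freqL_pos (by omega) p) p0 hn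
    (adm B) (adm_cont' B) (adm_mul B) (adm_one B) (adm_orth B) μ
  obtain ⟨x, hx⟩ : ∃ x : ℕ → ℝ, ∀ i, x i = lev T i / b0 := ⟨_, fun _ => rfl⟩
  obtain ⟨y, hy⟩ : ∃ y : ℕ → ℝ, ∀ i, y i = Real.exp (-(2 * flev (freqL D L) (adm B) i)) :=
    ⟨_, fun _ => rfl⟩
  obtain ⟨p, hp⟩ : ∃ p : ℕ → ℝ, ∀ m, p m = (∫ P, ZP μ D L (2 * (m - 1) + 1) β P ∂μ) / b0 ^ m :=
    ⟨_, fun _ => rfl⟩
  obtain ⟨q, hq⟩ : ∃ q : ℕ → ℝ, ∀ m, q m = ∫ P, RR B D L (2 * m) P ∂μ := ⟨_, fun _ => rfl⟩
  have hxa : Antitone x := by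
    intro i j hij
    rw [hx, hx]
    exact div_le_div_of_nonneg_right (lev_antitone hK hij) hb0.le
  have hya : Antitone y := by
    intro i j hij
    rw [hy, hy]
    refine Real.exp_le_exp.2 (neg_le_neg ?_)
    exact mul_le_mul_of_nonneg_left (hmono hij) (by norm_num)
  have hx0 : ∀ i, 0 ≤ x i := fun i => by rw [hx]; exact div_nonneg (lev_nonneg hK i) hb0.le
  have hy0 : ∀ i, 0 ≤ y i := fun i => by rw [hy]; exact (Real.exp_pos _).le
  have hxp : ∀ m, 2 ≤ m → HasSum (fun i => x i ^ m) (p m) := by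
    intro m hm
    have h := (hsumT (m - 1) (by omega)).div_const (b0 ^ m)
    rw [← hp] at h
    refine h.congr_fun ?_ |> fun h => h
    intro i
    rw [hx, div_pow]
    congr 2
    omega
  have hyq : ∀ m, 2 ≤ m → HasSum (fun i => y i ^ m) (q m) := by
    intro m hm
    have h := hfsum (2 * m) (by
      have : (0 : ℝ) < m := by exact_mod_cast (by omega : 0 < m)
      positivity)
    have h2 : (∫ g, ∏ l, 1 / |(1 - Real.exp (-(2 * (m : ℝ) * freqL D L l)) • adm B g).det| ∂μ) = q m := by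
      rw [hq]
      refine integral_congr_ae (Eventually.of_forall fun P => ?_)
      simp only
      rw [RR_eq (by omega)]
      unfold FR
      push_cast
      rfl
    rw [h2] at h
    have h3 : (fun i => y i ^ m) = fun k => Real.exp (-(2 * (m : ℝ) * flev (freqL D L) (adm B) k)) := by
      funext i
      rw [hy, ← Real.exp_nat_mul]
      congr 1
      ring
    rw [h3]
    exact h
  have hqB : q (A * L) ≤ Bd := by rw [hq]; exact hbd L hL
  have hwin : ∀ m : ℕ, A * L ≤ m → (m : ℝ) ≤ 2 * l * L →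
      (1 - Real.exp (-l)) * q m ≤ p m ∧ p m ≤ (1 + Real.exp (-l)) * q m := by
    intro m hm1 hm2
    have hAL : 1 ≤ A * L := Nat.mul_pos (by omega) (by omega)
    obtain ⟨m', rfl⟩ : ∃ m', m = m' + 1 := ⟨m - 1, by omega⟩
    obtain ⟨h1, h2⟩ := hz m' (by push_cast at hm2; linarith)
    rw [hb24, ← hexp, ← hq] at h1 h2
    have hbp : 0 < b0 ^ (m' + 1) := pow_pos hb0 _
    rw [hp]
    simp only [Nat.add_sub_cancel]
    exact ⟨(le_div_iff₀ hbp).2 h1, (div_le_iff₀ hbp).2 h2⟩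
  have hfre : freqL D L p0 ≤ 5 / L := by
    have := wL_le hL
    unfold wL at this
    rw [hp0]
    have e : (20 : ℝ) / L = 4 * (5 / L) := by ring
    linarith
  have hylow : ∀ i ≤ k, Real.exp (-((20 * k + 1) / L)) ≤ y i := by
    intro i hi
    rw [hy]
    refine Real.exp_le_exp.2 (neg_le_neg ?_)
    have hi' : (i : ℝ) ≤ k := by exact_mod_cast hi
    calc 2 * flev (freqL D L) (adm B) i ≤ 2 * (2 * i * freqL D L p0) :=
          mul_le_mul_of_nonneg_left (hfle i) (by norm_num)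
      _ ≤ 2 * (2 * k * (5 / L)) := by
          refine mul_le_mul_of_nonneg_left ?_ (by norm_num)
          exact mul_le_mul (by linarith) hfre (freqL_pos (by omega) p0).le (by positivity)
      _ = 20 * k / L := by ring
      _ ≤ (20 * k + 1) / L := div_le_div_of_nonneg_right (by linarith) hLp.le
  have hylow0 : ∀ i ≤ 0, Real.exp (-((1 : ℝ) / L)) ≤ y i := by
    intro i hi
    have : i = 0 := by omega
    rw [this, hy, hf0, mul_zero, neg_zero, Real.exp_zero, Real.exp_le_one_iff]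
    have : 0 < 1 / (L : ℝ) := by positivity
    linarith
  obtain ⟨hpos0, habs0⟩ := hnum0 L hL l hll0 x y p q hxa hya hx0 hy0 hxp hyq hylow0 hqB hwin
  obtain ⟨hposk, habsk⟩ := hnum1 L hL l hll1 x y p q hxa hya hx0 hy0 hxp hyq hylow hqB hwin
  have hlevk : 0 < lev T k := by
    rw [hx] at hposk
    by_contra h
    push Not at h
    have := div_nonpos_of_nonpos_of_nonneg h hb0.le
    linarith
  have hlev0 : 0 < lev T 0 := lt_of_lt_of_le hlevk (lev_antitone hK (Nat.zero_le k))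
  refine ⟨hlevk, ?_⟩
  have e1 : Real.log (lev T 0 / lev T k) = Real.log (x 0) - Real.log (x k) := by
    rw [hx, hx, Real.log_div hlev0.ne' hb0.ne', Real.log_div hlevk.ne' hb0.ne',
      Real.log_div hlev0.ne' hlevk.ne']
    ring
  have e2 : Real.log (y 0) = 0 := by
    rw [hy, Real.log_exp, hf0]; ring
  have e3 : Real.log (y k) = -(2 * flev (freqL D L) (adm B) k) := by rw [hy, Real.log_exp]
  rw [e2, sub_zero] at habs0
  rw [e3] at habsk
  rw [e1]
  have hlogβ : 0 < Real.log β := by rw [← hlβ]; linarith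
  have hfin : (c0 / (L * l) + c1 / (L * l)) / 2 ≤ max C2 (4 * (c0 + c1)) / (L * Real.log β) := by
    calc (c0 / (L * l) + c1 / (L * l)) / 2 = 4 * (c0 + c1) / (L * Real.log β) := by
          rw [← hlβ]; field_simp; ring
      _ ≤ _ := div_le_div_of_nonneg_right (le_max_right _ _) (by positivity)
  refine le_trans ?_ hfin
  rw [abs_le] at habs0 habsk ⊢
  constructor
  · linarith [habs0.1, habs0.2, habsk.1, habsk.2]
  · linarith [habs0.1, habs0.2, habsk.1, habsk.2]

end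

end Pool.Agent.T2H02.Lev
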