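import Mathlib
import Pool.Agent.T2H02.Lev.Main

/-!
# The first free level
-/

open MeasureTheory Filter Function
open scoped Matrix.Norms.Frobenius Topology RealInnerProductSpace
open Pool.Agent.H906R3.YM Pool.Agent.W793.YM Pool.Agent.TH618.YM Pool.Agent.T2H02.Gap

namespace Pool.Agent.T2H02.Lev

set_option linter.unusedSectionVars false
set_option linter.unusedVariables false

noncomputable section

section lev

variable {H : Type*} [SeminormedAddCommGroup H] [InnerProductSpace ℝ H]
variable {T : H →ₗ[ℝ] H} {Ω : Type*} [MeasurableSpace Ω] {ν : Measure Ω} {c : Ω → H}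

lemma lev_zero (hT : Kern T ν c) (hH : ∃ f : H, ‖f‖ ^ 2 = 1) : lev T 0 = top2 T := by
  have hne : (levSet T 0).Nonempty := by
    obtain ⟨f, hf⟩ := hH
    refine ⟨0, fun _ => f, fun i j => ?_, fun a => by rw [zero_mul]; exact sq_nonneg _⟩
    rw [real_inner_self_eq_norm_sq, hf, if_pos (Fin.ext (by omega))]
  refine le_antisymm (csSup_le hne fun s hs => levSet_le hT hs) ?_
  unfold top2 lev
  refine csSup_le (nonempty_top hH) ?_
  rintro s ⟨f, hf, hs⟩
  refine le_csSup (bdd_lev hT 0) ⟨fun _ => f, fun i j => ?_, fun a => ?_⟩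
  · rw [real_inner_self_eq_norm_sq, hf, if_pos (Fin.ext (by omega))]
  · rw [Fin.sum_univ_one, Fin.sum_univ_one, map_smul, norm_smul, mul_pow, hs, Real.norm_eq_abs,
      sq_abs, mul_comm]

lemma levSet_one : levSet T 1 = secSet T := by
  ext s
  constructor
  · rintro ⟨f, hf, h⟩
    refine ⟨f 0, f 1, ?_, ?_, ?_, fun a b => ?_⟩
    · rw [← real_inner_self_eq_norm_sq, hf, if_pos rfl]
    · rw [← real_inner_self_eq_norm_sq, hf, if_pos rfl]
    · rw [hf, if_neg (by decide)]
    · have := h ![a, b]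
      simpa [Fin.sum_univ_two] using this
  · rintro ⟨f, g, hf, hg, hfg, h⟩
    refine ⟨![f, g], fun i j => ?_, fun a => ?_⟩
    · fin_cases i <;> fin_cases j
      · simp [hf]
      · simp [hfg]
      · simp [real_inner_comm, hfg]
      · simp [hg]
    · have := h (a 0) (a 1)
      simpa [Fin.sum_univ_two] using this

end lev

variable {N n D L : ℕ} {G : Subgroup (UN N)}
variable [CompactSpace G] [SecondCountableTopology G] [MeasurableSpace G] [BorelSpace G]

/-- **The first level of the free theory.** -/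
theorem flev_one (hD : 2 ≤ D) (B : Frame G n) (hn : 0 < n) (hG : IsClosed (G : Set (UN N)))
    (μ : Measure G) [IsProbabilityMeasure μ] [μ.IsHaarMeasure]
    (hinv : ∀ v : En n, (∀ P : G, adL B P v = v) → v = 0) (hL : 2 ≤ L) :
    flev (freqL D L) (adm B) 1 = 4 * Real.arsinh (Real.sqrt 2 * Real.sin (Real.pi / (2 * L))) := by
  obtain ⟨C, hC, h⟩ := gap_main hD B hn hG μ hinv
  obtain ⟨C', hC', h'⟩ := lev_main hD B hn hG μ 1
  have hL' : (2 : ℝ) ≤ L := by exact_mod_cast hL
  have hLp : (0 : ℝ) < L := by linarith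
  obtain ⟨x, hx⟩ : ∃ x, x = |4 * Real.arsinh (Real.sqrt 2 * Real.sin (Real.pi / (2 * L))) -
    flev (freqL D L) (adm B) 1| := ⟨_, rfl⟩
  have key : ∀ᶠ β : ℝ in atTop, x ≤ (C + C') / (L * Real.log β) := by
    filter_upwards [eventually_ge_atTop (C * (L : ℝ) ^ (96 * D + 288)),
      eventually_ge_atTop (C' * (L : ℝ) ^ (96 * D + 288))] with β h1 h2
    obtain ⟨-, -, h3⟩ := h L hL β h1
    obtain ⟨-, h4⟩ := h' L hL β h2
    have hK := kern_opT (νm μ D L) (KK_cont μ β) (KK_symm μ β)
    have hl1 : lev (opT (νm μ D L) (KK μ β) (KK_cont μ β)) 1 =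
        sec2 (opT (νm μ D L) (KK μ β) (KK_cont μ β)) := by
      unfold lev sec2
      rw [levSet_one]
    have hl0 : lev (opT (νm μ D L) (KK μ β) (KK_cont μ β)) 0 =
        top2 (opT (νm μ D L) (KK μ β) (KK_cont μ β)) :=
      lev_zero hK ⟨CF.mk (νm μ D L) (fun _ => 1) continuous_const, by
        rw [norm_cf]
        simp [CF.fn_mk]⟩
    rw [hl0, hl1] at h4
    rw [abs_sub_comm] at h3
    rw [hx, add_div]
    refine (abs_sub_le _ _ _).trans (add_le_add h3 h4)
  have hlim : Tendsto (fun β : ℝ => (C + C') / (L * Real.log β)) atTop (𝓝 0) :=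
    Tendsto.const_div_atTop (Real.tendsto_log_atTop.const_mul_atTop hLp) _
  have h0 : x ≤ 0 := ge_of_tendsto hlim key
  have h1 : x = 0 := le_antisymm h0 (by rw [hx]; exact abs_nonneg _)
  rw [hx, abs_eq_zero, sub_eq_zero] at h1
  exact h1.symm

end

end Pool.Agent.T2H02.Lev
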